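import Mathlib
import Pool.Agent.Helper923.HMertens
import Pool.Agent.H318R2.Cr.Defs

set_option autoImplicit false

namespace Pool.Agent.H318R2.Cr

open Finset ArithmeticFunction

theorem Rgh_mul {z a b : ℕ} : Rgh z (a * b) ↔ Rgh z a ∧ Rgh z b := by
  constructor
  · intro h
    exact ⟨fun p hp hz hd => h p hp hz (hd.mul_right b), fun p hp hz hd => h p hp hz (hd.mul_left a)⟩
  · rintro ⟨h1, h2⟩ p hp hz hd
    rcases hp.dvd_mul.1 hd with h | h
    · exact h1 p hp hz h
    · exact h2 p hp hz h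

theorem Rgh_one {z : ℕ} : Rgh z 1 := fun p hp _ hd => hp.one_lt.ne' (Nat.dvd_one.1 hd)

theorem lt_of_Rgh {z n : ℕ} (hn : n ≠ 1) (hn0 : n ≠ 0) (h : Rgh z n) : z < n := by
  by_contra hc
  have h1 := Nat.minFac_le (n := n) (by omega)
  exact h n.minFac (Nat.minFac_prime hn) (by omega) (Nat.minFac_dvd n)

open Classical in
/-- the weight `1/n` on rough numbers -/
noncomputable def fM (z : ℕ) : ArithmeticFunction ℝ :=
  ⟨fun n => if Rgh z n then (n : ℝ)⁻¹ else 0, by simp⟩

open Classical in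
/-- the weight `Λ(n)/n` on rough numbers -/
noncomputable def fL (z : ℕ) : ArithmeticFunction ℝ :=
  ⟨fun n => if Rgh z n then vonMangoldt n / n else 0, by simp⟩

open Classical in
theorem fM_apply (z n : ℕ) : fM z n = if Rgh z n then (n : ℝ)⁻¹ else 0 := rfl

open Classical in
theorem fL_apply (z n : ℕ) : fL z n = if Rgh z n then vonMangoldt n / n else 0 := rfl

theorem fM_nonneg (z n : ℕ) : 0 ≤ fM z n := by
  rw [fM_apply]; split_ifs <;> positivity

theorem fL_nonneg (z n : ℕ) : 0 ≤ fL z n := by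
  rw [fL_apply]; split_ifs
  · exact div_nonneg vonMangoldt_nonneg (by positivity)
  · exact le_rfl

theorem fM_one (z : ℕ) : fM z 1 = 1 := by
  rw [fM_apply, if_pos Rgh_one]; simp

open Classical in
theorem conv (z n : ℕ) : (fM z * fL z) n = if Rgh z n then Real.log n / n else 0 := by
  rw [mul_apply]
  split_ifs with h
  · rcases Nat.eq_zero_or_pos n with rfl | hn
    · simp
    have h1 : ∀ x ∈ Nat.divisorsAntidiagonal n, fM z x.1 * fL z x.2 = vonMangoldt x.2 / n := by
      intro x hx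
      rw [Nat.mem_divisorsAntidiagonal] at hx
      have h2 : Rgh z (x.1 * x.2) := by rw [hx.1]; exact h
      rw [Rgh_mul] at h2
      rw [fM_apply, fL_apply, if_pos h2.1, if_pos h2.2]
      have h3 : (n : ℝ) = x.1 * x.2 := by rw [← hx.1]; push_cast; ring
      rw [h3, div_eq_mul_inv, div_eq_mul_inv, mul_inv]; ring
    rw [sum_congr rfl h1, ← sum_div]
    congr 1
    rw [← vonMangoldt_sum]
    exact Nat.sum_divisorsAntidiagonal' (fun _ i => (vonMangoldt i : ℝ))
  · apply sum_eq_zero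
    intro x hx
    rw [Nat.mem_divisorsAntidiagonal] at hx
    rw [← hx.1, Rgh_mul, not_and_or] at h
    rw [fM_apply, fL_apply]
    rcases h with h | h
    · rw [if_neg h, zero_mul]
    · rw [if_neg h, mul_zero]

/-! ### the von Mangoldt sum -/

theorem sum_vM_le : ∃ C : ℝ, 0 ≤ C ∧ ∀ N : ℕ, 1 ≤ N →
    ∑ d ∈ Ioc 0 N, (vonMangoldt d : ℝ) / d ≤ Real.log N + C := by
  refine ⟨Real.log 4 + 4, by have := Real.log_nonneg (show (1:ℝ) ≤ 4 by norm_num); linarith, fun N hN => ?_⟩
  have hN0 : (0 : ℝ) < N := by exact_mod_cast hN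
  have h1 : ∑ n ∈ Ioc 0 N, Real.log n = ∑ n ∈ Ioc 0 N, (vonMangoldt n : ℝ) * ((N / n : ℕ) : ℝ) := by
    rw [← sum_Ioc_mul_zeta_eq_sum, vonMangoldt_mul_zeta]
    simp [log_apply]
  have h2 : ∑ n ∈ Ioc 0 N, Real.log n ≤ N * Real.log N := by
    calc ∑ n ∈ Ioc 0 N, Real.log n ≤ ∑ _n ∈ Ioc 0 N, Real.log N := by
          apply sum_le_sum
          intro n hn
          rw [mem_Ioc] at hn
          exact Real.log_le_log (by exact_mod_cast hn.1) (by exact_mod_cast hn.2)
      _ = N * Real.log N := by rw [sum_const, Nat.card_Ioc]; simp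
  have h3 : ∑ n ∈ Ioc 0 N, (vonMangoldt n : ℝ) = Chebyshev.psi N := by
    rw [Chebyshev.psi, Nat.floor_natCast]
  have h4 := Chebyshev.psi_le_const_mul_self (x := (N : ℝ)) hN0.le
  have h5 : N * ∑ d ∈ Ioc 0 N, (vonMangoldt d : ℝ) / d - Chebyshev.psi N ≤
      ∑ n ∈ Ioc 0 N, (vonMangoldt n : ℝ) * ((N / n : ℕ) : ℝ) := by
    rw [← h3, mul_sum, ← sum_sub_distrib]
    apply sum_le_sum
    intro n hn
    rw [mem_Ioc] at hn
    have hn0 : (0 : ℝ) < n := by exact_mod_cast hn.1
    have h6 : (N : ℝ) / n - 1 ≤ ((N / n : ℕ) : ℝ) := by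
      have := Nat.lt_floor_add_one ((N : ℝ) / n)
      rw [Nat.floor_div_eq_div] at this
      linarith
    have h7 : (0 : ℝ) ≤ vonMangoldt n := vonMangoldt_nonneg
    calc (N : ℝ) * (vonMangoldt n / n) - vonMangoldt n = vonMangoldt n * ((N : ℝ) / n - 1) := by
          field_simp
      _ ≤ _ := mul_le_mul_of_nonneg_left h6 h7
  have h8 : N * ∑ d ∈ Ioc 0 N, (vonMangoldt d : ℝ) / d ≤ N * (Real.log N + (Real.log 4 + 4)) := by
    rw [← h1] at h5
    linarith
  exact le_of_mul_le_mul_left h8 hN0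

theorem T_bound : ∃ C : ℝ, 0 ≤ C ∧ ∀ z N : ℕ, 1 ≤ z → z ≤ N →
    |∑ d ∈ Ioc 0 N, fL z d - (Real.log N - Real.log z)| ≤ C := by
  classical
  obtain ⟨C1, hC1, h1⟩ := sum_vM_le
  obtain ⟨C2, h2⟩ := Helper923.HMertens.mertens_log
  have hC2 : 0 ≤ C2 := (abs_nonneg _).trans (h2 1 le_rfl)
  refine ⟨C1 + 2 * C2, by positivity, fun z N hz hzN => ?_⟩
  have hA := abs_le.1 (h2 N (by omega))
  have hB := abs_le.1 (h2 z hz)
  have e0 : ∀ n : ℕ, Icc 1 n = Ioc 0 n := fun n => by ext; simp [mem_Icc, mem_Ioc]; omega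
  rw [e0] at hA hB
  set A := ∑ p ∈ (Ioc 0 N).filter Nat.Prime, Real.log p / p with hAdef
  set B := ∑ p ∈ (Ioc 0 z).filter Nat.Prime, Real.log p / p with hBdef
  have hsub : (Ioc 0 z).filter Nat.Prime ⊆ (Ioc 0 N).filter Nat.Prime := by
    intro p; simp only [mem_filter, mem_Ioc]; rintro ⟨⟨a, b⟩, c⟩; exact ⟨⟨a, by omega⟩, c⟩
  -- lower bound
  have hlow : A - B ≤ ∑ d ∈ Ioc 0 N, fL z d := by
    rw [hAdef, hBdef, ← sum_sdiff hsub, add_sub_cancel_right]
    calc ∑ p ∈ (Ioc 0 N).filter Nat.Prime \ (Ioc 0 z).filter Nat.Prime, Real.log p / p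
        = ∑ p ∈ (Ioc 0 N).filter Nat.Prime \ (Ioc 0 z).filter Nat.Prime, fL z p := by
          apply sum_congr rfl
          intro p hp
          simp only [mem_sdiff, mem_filter, mem_Ioc, not_and] at hp
          have hpp := hp.1.2
          have hzp : z < p := by
            by_contra h
            exact hp.2 ⟨hp.1.1.1, by omega⟩ hpp
          rw [fL_apply, if_pos, vonMangoldt_apply_prime hpp]
          intro q hq hqz hqp
          have := (Nat.prime_dvd_prime_iff_eq hq hpp).1 hqp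
          omega
      _ ≤ ∑ d ∈ Ioc 0 N, fL z d := by
          apply sum_le_sum_of_subset_of_nonneg
          · intro p; simp only [mem_sdiff, mem_filter]; tauto
          · intro d _ _; exact fL_nonneg z d
  -- upper bound
  have hup : ∑ d ∈ Ioc 0 N, fL z d + B ≤ ∑ d ∈ Ioc 0 N, (vonMangoldt d : ℝ) / d := by
    have e1 : ∑ d ∈ Ioc 0 N, (vonMangoldt d : ℝ) / d - ∑ d ∈ Ioc 0 N, fL z d =
        ∑ d ∈ Ioc 0 N, if Rgh z d then 0 else (vonMangoldt d : ℝ) / d := by
      rw [← sum_sub_distrib]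
      apply sum_congr rfl
      intro d _
      rw [fL_apply]; split_ifs <;> simp
    have e2 : B ≤ ∑ d ∈ Ioc 0 N, if Rgh z d then 0 else (vonMangoldt d : ℝ) / d := by
      rw [hBdef]
      calc ∑ p ∈ (Ioc 0 z).filter Nat.Prime, Real.log p / p
          = ∑ p ∈ (Ioc 0 z).filter Nat.Prime, if Rgh z p then 0 else (vonMangoldt p : ℝ) / p := by
            apply sum_congr rfl
            intro p hp
            simp only [mem_filter, mem_Ioc] at hp
            rw [if_neg, vonMangoldt_apply_prime hp.2]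
            intro h
            exact h p hp.2 hp.1.2 dvd_rfl
        _ ≤ _ := by
            apply sum_le_sum_of_subset_of_nonneg
            · intro p; simp only [mem_filter, mem_Ioc]; rintro ⟨⟨a, b⟩, c⟩; exact ⟨a, by omega⟩
            · intro d _ _
              split_ifs
              · exact le_rfl
              · exact div_nonneg vonMangoldt_nonneg (by positivity)
    linarith
  have h3 := h1 N (by omega)
  rw [abs_le]
  constructor <;> linarith

theorem T_zero {z N : ℕ} (h : N ≤ z) : ∑ d ∈ Ioc 0 N, fL z d = 0 := by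
  apply sum_eq_zero
  intro d hd
  rw [mem_Ioc] at hd
  rw [fL_apply]
  split_ifs with h1
  · by_cases hd1 : d = 1
    · subst hd1; simp
    · have := lt_of_Rgh hd1 (by omega) h1
      omega
  · rfl

/-- `∑ 1/m` over rough `m ≤ x` -/
noncomputable def MM (z : ℕ) (x : ℝ) : ℝ := ∑ m ∈ Ioc 0 ⌊x⌋₊, fM z m

/-- `∑ (1/m) log (x/m)` over rough `m ≤ x` -/
noncomputable def II (z : ℕ) (x : ℝ) : ℝ := ∑ m ∈ Ioc 0 ⌊x⌋₊, fM z m * Real.log (x / m)

theorem MM_nonneg (z : ℕ) (x : ℝ) : 0 ≤ MM z x := sum_nonneg fun _ _ => fM_nonneg _ _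

theorem MM_mono (z : ℕ) : Monotone (MM z) := by
  intro x y hxy
  apply sum_le_sum_of_subset_of_nonneg
  · exact Ioc_subset_Ioc le_rfl (Nat.floor_le_floor hxy)
  · intro d _ _; exact fM_nonneg z d

theorem MM_small {z : ℕ} {x : ℝ} (h1 : 1 ≤ x) (h2 : x < z + 1) : MM z x = 1 := by
  unfold MM
  have h3 : 1 ≤ ⌊x⌋₊ := Nat.le_floor (by exact_mod_cast h1)
  have h4 : ⌊x⌋₊ ≤ z := by
    rw [← Nat.lt_succ_iff, Nat.floor_lt (by linarith)]
    push_cast; exact h2
  rw [sum_eq_single 1]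
  · exact fM_one z
  · intro d hd hd1
    rw [mem_Ioc] at hd
    rw [fM_apply, if_neg]
    intro h
    have := lt_of_Rgh hd1 (by omega) h
    omega
  · intro h
    exact absurd (mem_Ioc.2 ⟨by norm_num, h3⟩) h

theorem II_small {z : ℕ} {x : ℝ} (h1 : 1 ≤ x) (h2 : x < z + 1) : II z x = Real.log x := by
  unfold II
  have h3 : 1 ≤ ⌊x⌋₊ := Nat.le_floor (by exact_mod_cast h1)
  have h4 : ⌊x⌋₊ ≤ z := by
    rw [← Nat.lt_succ_iff, Nat.floor_lt (by linarith)]
    push_cast; exact h2
  rw [sum_eq_single 1]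
  · rw [fM_one]; simp
  · intro d hd hd1
    rw [mem_Ioc] at hd
    rw [fM_apply, if_neg, zero_mul]
    intro h
    have := lt_of_Rgh hd1 (by omega) h
    omega
  · intro h
    exact absurd (mem_Ioc.2 ⟨by norm_num, h3⟩) h

theorem II_zero {z : ℕ} {x : ℝ} (h : x < 1) : II z x = 0 := by
  unfold II
  rw [Nat.floor_eq_zero.2 h]; simp

theorem II_diff {z : ℕ} {x y : ℝ} (hx : 0 < x) (hxy : x ≤ y) :
    MM z x * Real.log (y / x) ≤ II z y - II z x ∧ II z y - II z x ≤ MM z y * Real.log (y / x) := by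
  have hy : 0 < y := by linarith
  have hsub : Ioc 0 ⌊x⌋₊ ⊆ Ioc 0 ⌊y⌋₊ := Ioc_subset_Ioc le_rfl (Nat.floor_le_floor hxy)
  have e : II z y - II z x = ∑ m ∈ Ioc 0 ⌊x⌋₊, fM z m * Real.log (y / x) +
      ∑ m ∈ Ioc 0 ⌊y⌋₊ \ Ioc 0 ⌊x⌋₊, fM z m * Real.log (y / m) := by
    unfold II
    rw [← sum_sdiff hsub, add_sub_assoc, ← sum_sub_distrib, add_comm]
    congr 1
    apply sum_congr rfl
    intro m hm
    rw [mem_Ioc] at hm
    have hm0 : (0 : ℝ) < m := by exact_mod_cast hm.1
    rw [Real.log_div hy.ne' hm0.ne', Real.log_div hx.ne' hm0.ne', Real.log_div hy.ne' hx.ne']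
    ring
  have hlog : 0 ≤ Real.log (y / x) := Real.log_nonneg (by rwa [one_le_div hx])
  rw [e]
  constructor
  · unfold MM
    rw [sum_mul]
    have : 0 ≤ ∑ m ∈ Ioc 0 ⌊y⌋₊ \ Ioc 0 ⌊x⌋₊, fM z m * Real.log (y / m) := by
      apply sum_nonneg
      intro m hm
      rw [mem_sdiff, mem_Ioc] at hm
      have hm0 : (0 : ℝ) < m := by exact_mod_cast hm.1.1
      have hmy : (m : ℝ) ≤ y := by
        have := Nat.floor_le hy.le
        have h2 : (m : ℝ) ≤ ⌊y⌋₊ := by exact_mod_cast hm.1.2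
        linarith
      exact mul_nonneg (fM_nonneg z m) (Real.log_nonneg (by rwa [one_le_div hm0]))
    linarith
  · unfold MM
    rw [sum_mul, ← sum_sdiff hsub (f := fun m => fM z m * Real.log (y / x)), add_comm]
    gcongr with m hm
    · exact fM_nonneg z m
    · rw [mem_sdiff, mem_Ioc, mem_Ioc] at hm
      have hm0 : (0 : ℝ) < m := by exact_mod_cast hm.1.1
      positivity
    · rw [mem_sdiff, mem_Ioc, mem_Ioc] at hm
      have h3 : ⌊x⌋₊ < m := by
        by_contra h; exact hm.2 ⟨hm.1.1, by omega⟩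
      exact (Nat.lt_of_floor_lt h3).le

/-- The basic equation for the logarithmic counting function of rough numbers. -/
theorem main_eq : ∃ C : ℝ, 0 ≤ C ∧ ∀ (z : ℕ) (x : ℝ), 1 ≤ z → 1 ≤ x →
    |Real.log x * MM z x - II z x - II z (x / z)| ≤ C * MM z x := by
  obtain ⟨C, hC, hT⟩ := T_bound
  refine ⟨C + 1, by positivity, fun z x hz hx => ?_⟩
  have hz0 : (0 : ℝ) < z := by exact_mod_cast hz
  have hx0 : 0 < x := by linarith
  set N := ⌊x⌋₊ with hN
  have hfl : ∀ m : ℕ, 0 < m → N / m = ⌊x / m⌋₊ := fun m _ => by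
    rw [hN, Nat.floor_div_natCast]
  have e1 : Real.log x * MM z x - II z x = ∑ m ∈ Ioc 0 N, fM z m * ∑ d ∈ Ioc 0 (N / m), fL z d := by
    rw [← sum_Ioc_mul_eq_sum_sum]
    unfold MM II
    rw [mul_sum, ← sum_sub_distrib]
    apply sum_congr rfl
    intro m hm
    rw [mem_Ioc] at hm
    have hm0 : (0 : ℝ) < m := by exact_mod_cast hm.1
    rw [conv, fM_apply, Real.log_div hx0.ne' hm0.ne']
    split_ifs
    · rw [div_eq_mul_inv]; ring
    · ring
  set N' := ⌊x / z⌋₊ with hN'
  have hN'N : N' ≤ N := by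
    apply Nat.floor_le_floor
    apply div_le_self hx0.le
    exact_mod_cast hz
  have e2 : ∑ m ∈ Ioc 0 N, fM z m * ∑ d ∈ Ioc 0 (N / m), fL z d =
      ∑ m ∈ Ioc 0 N', fM z m * ∑ d ∈ Ioc 0 (N / m), fL z d := by
    symm
    apply sum_subset (Ioc_subset_Ioc le_rfl hN'N)
    intro m hm hm'
    rw [mem_Ioc] at hm hm'
    have hm0 : (0 : ℝ) < m := by exact_mod_cast hm.1
    have h1 : N' < m := by
      by_contra h; exact hm' ⟨hm.1, by omega⟩
    have h2 : x / z < m := Nat.lt_of_floor_lt h1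
    rw [T_zero, mul_zero]
    rw [hfl m hm.1]
    have h3 : x / m < z := by
      rw [div_lt_iff₀ hm0]
      rw [div_lt_iff₀ hz0] at h2
      linarith
    have := (Nat.floor_lt (by positivity)).2 h3
    omega
  rw [e1, e2]
  unfold II
  rw [← hN', ← sum_sub_distrib]
  calc |∑ m ∈ Ioc 0 N', (fM z m * ∑ d ∈ Ioc 0 (N / m), fL z d - fM z m * Real.log (x / z / m))|
      ≤ ∑ m ∈ Ioc 0 N', fM z m * (C + 1) := by
        refine (abs_sum_le_sum_abs _ _).trans (sum_le_sum fun m hm => ?_)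
        rw [mem_Ioc] at hm
        have hm0 : (0 : ℝ) < m := by exact_mod_cast hm.1
        have hmx : (m : ℝ) ≤ x / z := by
          have := Nat.floor_le (a := x / z) (by positivity)
          have h2 : (m : ℝ) ≤ N' := by exact_mod_cast hm.2
          linarith
        rw [← mul_sub, abs_mul, abs_of_nonneg (fM_nonneg z m)]
        apply mul_le_mul_of_nonneg_left _ (fM_nonneg z m)
        have h4 : (z : ℝ) ≤ x / m := by
          rw [le_div_iff₀ hm0]; rw [le_div_iff₀ hz0] at hmx; linarith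
        have h5 : z ≤ N / m := by
          rw [hfl m hm.1]; exact Nat.le_floor h4
        have h6 := abs_le.1 (hT z (N / m) hz h5)
        have hxm : 0 < x / m := by positivity
        have h7 : ((N / m : ℕ) : ℝ) ≤ x / m := by
          rw [hfl m hm.1]; exact Nat.floor_le hxm.le
        have h8 : x / m < ((N / m : ℕ) : ℝ) + 1 := by
          rw [hfl m hm.1]; exact Nat.lt_floor_add_one _
        have hNm0 : (1 : ℝ) ≤ ((N / m : ℕ) : ℝ) := by
          have : 1 ≤ N / m := by omega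
          exact_mod_cast this
        have h9 : Real.log ((N / m : ℕ) : ℝ) ≤ Real.log (x / m) :=
          Real.log_le_log (by linarith) h7
        have h10 : Real.log (x / m) ≤ Real.log ((N / m : ℕ) : ℝ) + 1 := by
          have h11 : Real.log (x / m) ≤ Real.log (2 * ((N / m : ℕ) : ℝ)) :=
            Real.log_le_log hxm (by linarith)
          rw [Real.log_mul (by norm_num) (by linarith)] at h11
          have := Real.log_two_lt_d9
          linarith
        have h12 : Real.log (x / z / m) = Real.log (x / m) - Real.log z := by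
          rw [div_right_comm, Real.log_div hxm.ne' hz0.ne']
        rw [h12, abs_le]
        constructor <;> linarith
    _ = (C + 1) * MM z (x / z) := by rw [← sum_mul, mul_comm]; rfl
    _ ≤ (C + 1) * MM z x := by
        apply mul_le_mul_of_nonneg_left _ (by positivity)
        apply MM_mono
        apply div_le_self hx0.le
        exact_mod_cast hz

end Pool.Agent.H318R2.Cr
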