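import Mathlib
import Pool.Agent.Helper923.HMertens
import Pool.Agent.H318R2.Cr.Rough

set_option autoImplicit false

namespace Pool.Agent.H318R2.Cr

open Finset ArithmeticFunction

theorem mem_Pz {z p : ℕ} : p ∈ Pz z ↔ p.Prime ∧ p ≤ z := by
  unfold Pz
  rw [mem_filter, mem_Ioc]
  constructor
  · rintro ⟨⟨_, h⟩, hp⟩; exact ⟨hp, h⟩
  · rintro ⟨hp, h⟩; exact ⟨⟨hp.pos, h⟩, hp⟩

theorem one_sub_inv_pos {p : ℕ} (hp : p.Prime) : 0 < 1 - 1 / (p : ℝ) := by
  have : (2 : ℝ) ≤ p := by exact_mod_cast hp.two_le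
  have : 1 / (p : ℝ) ≤ 1 / 2 := one_div_le_one_div_of_le (by norm_num) this
  linarith

theorem V_pos (z : ℕ) : 0 < V z := prod_pos fun p hp => one_sub_inv_pos (mem_Pz.1 hp).1

theorem V_le_one (z : ℕ) : V z ≤ 1 := by
  apply prod_le_one
  · intro p hp; exact (one_sub_inv_pos (mem_Pz.1 hp).1).le
  · intro p _; have : (0 : ℝ) ≤ 1 / p := by positivity
    linarith

theorem exp_le_one_sub {x : ℝ} (h0 : 0 ≤ x) (h1 : x ≤ 1 / 2) :
    Real.exp (-x - 2 * x ^ 2) ≤ 1 - x := by
  have h2 : 0 < 1 - x := by linarith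
  have h3 := Real.add_one_le_exp (x / (1 - x))
  have h4 : x / (1 - x) + 1 = 1 / (1 - x) := by field_simp; ring
  rw [h4] at h3
  have h5 : Real.exp (-(x / (1 - x))) ≤ 1 - x := by
    rw [Real.exp_neg]
    calc (Real.exp (x / (1 - x)))⁻¹ ≤ (1 / (1 - x))⁻¹ := inv_anti₀ (by positivity) h3
      _ = 1 - x := by rw [one_div, inv_inv]
  refine le_trans (Real.exp_le_exp.mpr ?_) h5
  have h6 : x / (1 - x) ≤ x + 2 * x ^ 2 := by
    rw [div_le_iff₀ h2]
    nlinarith [mul_nonneg h0 (mul_nonneg h0 (show 0 ≤ 1 - 2 * x by linarith))]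
  linarith

/-- sum of `1/p^2` is bounded -/
theorem sum_inv_sq (S : Finset ℕ) : ∑ n ∈ S, 1 / (n : ℝ) ^ 2 ≤ 2 := by
  have h := hasSum_zeta_two
  have h1 := sum_le_hasSum S (fun n _ => by positivity) h
  have h2 : Real.pi ^ 2 / 6 ≤ 2 := by
    have := Real.pi_lt_d2
    have h3 := Real.pi_pos
    nlinarith
  linarith

/-- Mertens: `V z * log z` is bounded above and below. -/
theorem cz_bounds : ∃ c₁ c₂ : ℝ, 0 < c₁ ∧ c₁ ≤ c₂ ∧ ∀ z : ℕ, 2 ≤ z →
    c₁ ≤ V z * Real.log z ∧ V z * Real.log z ≤ c₂ := by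
  obtain ⟨C, hC, h⟩ := Helper923.HMertens.mertens_ratio
  have hl2 : 0 < Real.log 2 := Real.log_pos (by norm_num)
  set B := C / Real.log 2 with hB
  have hB0 : 0 ≤ B := by positivity
  have key : ∀ z : ℕ, 2 ≤ z → |∑ p ∈ Pz z, (1 : ℝ) / p - 1 / 2 - (Real.log (Real.log z) - Real.log (Real.log 2))| ≤ B := by
    intro z hz
    have h1 := h 2 z le_rfl hz
    have h2 : Pz z = insert 2 ((Ioc 2 z).filter Nat.Prime) := by
      ext p
      rw [mem_Pz, mem_insert, mem_filter, mem_Ioc]
      constructor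
      · rintro ⟨hp, hpz⟩
        have := hp.two_le
        by_cases h2 : p = 2
        · left; exact h2
        · right; exact ⟨⟨by omega, hpz⟩, hp⟩
      · rintro (rfl | ⟨⟨_, h3⟩, h4⟩)
        · exact ⟨Nat.prime_two, hz⟩
        · exact ⟨h4, h3⟩
    have h3 : ∑ p ∈ Pz z, (1 : ℝ) / p = 1 / 2 + ∑ p ∈ (Ioc 2 z).filter Nat.Prime, (1 : ℝ) / p := by
      rw [h2, sum_insert]
      · norm_num
      · simp
    have hlz : 0 < Real.log z := Real.log_pos (by exact_mod_cast (by omega : 1 < z))
    push_cast at h1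
    rw [Real.log_div hlz.ne' hl2.ne'] at h1
    rw [h3]
    have e : 1 / 2 + ∑ p ∈ (Ioc 2 z).filter Nat.Prime, (1 : ℝ) / p - 1 / 2 -
        (Real.log (Real.log z) - Real.log (Real.log 2)) =
        ∑ p ∈ (Ioc 2 z).filter Nat.Prime, (1 : ℝ) / p -
        (Real.log (Real.log z) - Real.log (Real.log 2)) := by ring
    rw [e]
    exact h1
  refine ⟨Real.log 2 * Real.exp (-1 / 2 - B - 4), Real.log 2 * Real.exp (-1 / 2 + B), by positivity, ?_, ?_⟩
  · gcongr; linarith
  · intro z hz
    have hlz : 0 < Real.log z := Real.log_pos (by exact_mod_cast (by omega : 1 < z))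
    have hk := abs_le.1 (key z hz)
    set S := ∑ p ∈ Pz z, (1 : ℝ) / p with hS
    have hupper : V z ≤ Real.exp (-S) := by
      rw [hS, ← sum_neg_distrib, Real.exp_sum]
      unfold V
      apply prod_le_prod
      · intro p hp; exact (one_sub_inv_pos (mem_Pz.1 hp).1).le
      · intro p _
        have := Real.add_one_le_exp (-(1 / (p : ℝ)))
        linarith
    have hlower : Real.exp (-S - 4) ≤ V z := by
      have h4 : ∑ p ∈ Pz z, 1 / (p : ℝ) ^ 2 ≤ 2 := sum_inv_sq _
      have h5 : Real.exp (-S - 4) ≤ Real.exp (∑ p ∈ Pz z, (-(1 / (p : ℝ)) - 2 * (1 / (p : ℝ)) ^ 2)) := by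
        apply Real.exp_le_exp.2
        rw [sum_sub_distrib, sum_neg_distrib, ← mul_sum]
        have h6 : ∑ p ∈ Pz z, (1 / (p : ℝ)) ^ 2 ≤ 2 := by
          calc ∑ p ∈ Pz z, (1 / (p : ℝ)) ^ 2 = ∑ p ∈ Pz z, 1 / (p : ℝ) ^ 2 := by
                apply sum_congr rfl; intro p _; rw [div_pow, one_pow]
            _ ≤ 2 := h4
        linarith
      refine h5.trans ?_
      rw [Real.exp_sum]
      unfold V
      apply prod_le_prod
      · intro p _; positivity
      · intro p hp
        apply exp_le_one_sub (by positivity)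
        exact one_div_le_one_div_of_le (by norm_num) (by exact_mod_cast (mem_Pz.1 hp).1.two_le)
    have e1 : Real.exp (Real.log (Real.log z)) = Real.log z := Real.exp_log hlz
    have e2 : Real.exp (Real.log (Real.log 2)) = Real.log 2 := Real.exp_log hl2
    constructor
    · calc Real.log 2 * Real.exp (-1 / 2 - B - 4)
          = Real.exp (Real.log (Real.log 2) + (-1 / 2 - B - 4)) := by rw [Real.exp_add, e2]
        _ ≤ Real.exp (-S - 4 + Real.log (Real.log z)) := by
            apply Real.exp_le_exp.2; linarith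
        _ = Real.exp (-S - 4) * Real.log z := by rw [Real.exp_add, e1]
        _ ≤ V z * Real.log z := by gcongr
    · calc V z * Real.log z ≤ Real.exp (-S) * Real.log z := by gcongr
        _ = Real.exp (-S + Real.log (Real.log z)) := by rw [Real.exp_add, e1]
        _ ≤ Real.exp (Real.log (Real.log 2) + (-1 / 2 + B)) := by
            apply Real.exp_le_exp.2; linarith
        _ = _ := by rw [Real.exp_add, e2]

/-! ### the Dirichlet series of rough numbers -/

open Classical in
/-- `n^{-1-s}` on integers free of the primes in `P` -/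
noncomputable def gP (s : ℝ) (P : Finset ℕ) (n : ℕ) : ℝ :=
  if ∀ p ∈ P, ¬ p ∣ n then (n : ℝ) ^ (-1 - s) else 0

theorem gP_nonneg (s : ℝ) (P : Finset ℕ) (n : ℕ) : 0 ≤ gP s P n := by
  unfold gP; split_ifs
  · positivity
  · exact le_rfl

theorem gP_summable {s : ℝ} (hs : 0 < s) (P : Finset ℕ) : Summable (gP s P) := by
  have h := (Real.summable_nat_rpow (p := -1 - s)).2 (by linarith)
  refine Summable.of_nonneg_of_le (gP_nonneg s P) (fun n => ?_) h
  unfold gP; split_ifs
  · exact le_rfl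
  · positivity

theorem gP_insert {s : ℝ} (hs : 0 < s) {P : Finset ℕ} {p : ℕ} (hp : p.Prime) (hP : ∀ q ∈ P, q.Prime)
    (hpP : p ∉ P) : ∑' n, gP s (insert p P) n = (1 - (p : ℝ) ^ (-1 - s)) * ∑' n, gP s P n := by
  classical
  have h1 : ∑' n, gP s P n - ∑' n, gP s (insert p P) n = ∑' m, gP s P (p * m) := by
    rw [← (gP_summable hs P).tsum_sub (gP_summable hs _)]
    have hinj : Function.Injective (fun m : ℕ => p * m) := fun a b hab =>
      Nat.eq_of_mul_eq_mul_left hp.pos hab
    have h2 : ∀ n, gP s P n - gP s (insert p P) n = if p ∣ n then gP s P n else 0 := by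
      intro n
      unfold gP
      simp only [mem_insert, forall_eq_or_imp]
      by_cases hd : p ∣ n <;> by_cases hq : ∀ q ∈ P, ¬ q ∣ n <;> simp [hd, hq]
    have h3 : (fun n => gP s P n - gP s (insert p P) n) = fun n => if p ∣ n then gP s P n else 0 :=
      funext h2
    rw [h3, ← hinj.tsum_eq]
    · apply tsum_congr; intro m
      rw [if_pos (dvd_mul_right p m)]
    · intro n hn
      rw [Function.mem_support] at hn
      by_contra hc
      apply hn
      rw [if_neg]
      rintro ⟨m, rfl⟩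
      exact hc ⟨m, rfl⟩
  have h4 : ∀ m, gP s P (p * m) = (p : ℝ) ^ (-1 - s) * gP s P m := by
    intro m
    unfold gP
    have h5 : (∀ q ∈ P, ¬ q ∣ p * m) ↔ (∀ q ∈ P, ¬ q ∣ m) := by
      constructor
      · intro h q hq hd; exact h q hq (hd.mul_left p)
      · intro h q hq hd
        rcases (hP q hq).dvd_mul.1 hd with h6 | h6
        · have := (Nat.prime_dvd_prime_iff_eq (hP q hq) hp).1 h6
          subst this; exact hpP hq
        · exact h q hq h6
    rw [if_congr h5 rfl rfl]
    split_ifs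
    · push_cast
      rw [Real.mul_rpow (by positivity) (by positivity)]
    · simp
  have h6 : ∑' m, gP s P (p * m) = (p : ℝ) ^ (-1 - s) * ∑' m, gP s P m := by
    rw [← tsum_mul_left]; exact tsum_congr h4
  rw [h6] at h1
  linarith

theorem gP_tsum {s : ℝ} (hs : 0 < s) (P : Finset ℕ) (hP : ∀ q ∈ P, q.Prime) :
    ∑' n, gP s P n = (∏ p ∈ P, (1 - (p : ℝ) ^ (-1 - s))) * ∑' n : ℕ, (n : ℝ) ^ (-1 - s) := by
  classical
  induction P using Finset.induction_on with
  | empty => simp [gP]
  | insert p P hp ih =>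
    rw [gP_insert hs (hP p (mem_insert_self _ _)) (fun q hq => hP q (mem_insert_of_mem hq)) hp,
      ih (fun q hq => hP q (mem_insert_of_mem hq)), prod_insert hp, mul_assoc]

theorem prod_bound : ∃ C : ℝ, 0 ≤ C ∧ ∀ (s : ℝ) (z : ℕ), 0 < s → 1 ≤ z →
    ∏ p ∈ Pz z, (1 - (p : ℝ) ^ (-1 - s)) ≤ V z * Real.exp (2 * s * (Real.log z + C)) := by
  obtain ⟨C, h⟩ := Helper923.HMertens.mertens_log
  have hC : 0 ≤ C := (abs_nonneg _).trans (h 1 le_rfl)
  refine ⟨C, hC, fun s z hs hz => ?_⟩
  have h1 := (abs_le.1 (h z hz)).2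
  have e0 : Icc 1 z = Ioc 0 z := by ext; simp [mem_Icc, mem_Ioc]; omega
  rw [e0] at h1
  calc ∏ p ∈ Pz z, (1 - (p : ℝ) ^ (-1 - s))
      ≤ ∏ p ∈ Pz z, ((1 - 1 / (p : ℝ)) * Real.exp (2 * s * (Real.log p / p))) := by
        apply prod_le_prod
        · intro p hp
          have hp2 : (1 : ℝ) ≤ p := by exact_mod_cast (mem_Pz.1 hp).1.one_lt.le
          have : (p : ℝ) ^ (-1 - s) ≤ 1 := Real.rpow_le_one_of_one_le_of_nonpos hp2 (by linarith)
          linarith
        · intro p hp
          have hpp := (mem_Pz.1 hp).1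
          have hp2 : (2 : ℝ) ≤ p := by exact_mod_cast hpp.two_le
          have hp0 : (0 : ℝ) < p := by linarith
          have e1 : (p : ℝ) ^ (-1 - s) = 1 / p * Real.exp (-(s * Real.log p)) := by
            rw [show -1 - s = (-1) + (-s) by ring, Real.rpow_add hp0, Real.rpow_neg_one, one_div]
            congr 1
            rw [Real.rpow_def_of_pos hp0]; ring_nf
          have h2 : 1 - s * Real.log p ≤ Real.exp (-(s * Real.log p)) := by
            have := Real.add_one_le_exp (-(s * Real.log p)); linarith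
          have h3 := Real.add_one_le_exp (2 * s * (Real.log p / p))
          have h4 : 0 < 1 - 1 / (p : ℝ) := one_sub_inv_pos hpp
          have hlp : 0 ≤ Real.log p := Real.log_nonneg (by linarith)
          have h5 : 1 / (p : ℝ) ≤ 1 / 2 := one_div_le_one_div_of_le (by norm_num) hp2
          calc 1 - (p : ℝ) ^ (-1 - s) ≤ 1 - 1 / p * (1 - s * Real.log p) := by
                rw [e1]; gcongr
            _ ≤ (1 - 1 / p) * (2 * s * (Real.log p / p) + 1) := by
                have h6 : 0 ≤ s * Real.log p / p := by positivity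
                have h7 : s * Real.log p / p ≤ (1 - 1 / p) * (2 * (s * Real.log p / p)) := by nlinarith
                have e2 : 1 - 1 / (p : ℝ) * (1 - s * Real.log p) = (1 - 1 / p) + s * Real.log p / p := by ring
                have e3 : (1 - 1 / (p : ℝ)) * (2 * s * (Real.log p / p) + 1) =
                    (1 - 1 / p) + (1 - 1 / p) * (2 * (s * Real.log p / p)) := by ring
                rw [e2, e3]; linarith
            _ ≤ _ := by gcongr
    _ = V z * Real.exp (2 * s * ∑ p ∈ Pz z, (Real.log p / p)) := by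
        rw [prod_mul_distrib, ← Real.exp_sum, ← mul_sum]; rfl
    _ ≤ _ := by
        have := V_pos z
        gcongr
        unfold Pz
        linarith

open Classical in
/-- the Rankin type bound for the weighted sum of rough numbers -/
theorem rankin : ∀ σ : ℝ, 0 < σ → ∀ η : ℝ, 0 < η → ∃ z₀ : ℕ, 2 ≤ z₀ ∧ ∀ z : ℕ, z₀ ≤ z → ∀ N : ℕ,
    ∑ m ∈ Ioc 0 N, fM z m * Real.exp (-(σ * (Real.log m / Real.log z))) ≤
      V z * Real.log z / σ * Real.exp (2 * σ) * (1 + η) := by
  intro σ hσ η hη
  obtain ⟨C, hC, hprod⟩ := prod_bound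
  have hz := tendsto_sub_mul_tsum_nat_rpow
  -- s = σ / log z
  have hlog : Filter.Tendsto (fun z : ℕ => Real.log z) Filter.atTop Filter.atTop :=
    Real.tendsto_log_atTop.comp tendsto_natCast_atTop_atTop
  have hs0 : Filter.Tendsto (fun z : ℕ => σ / Real.log z) Filter.atTop (nhds 0) :=
    hlog.const_div_atTop σ
  have hs1 : Filter.Tendsto (fun z : ℕ => 1 + σ / Real.log z) Filter.atTop (nhdsWithin 1 (Set.Ioi 1)) := by
    rw [tendsto_nhdsWithin_iff]
    constructor
    · simpa using hs0.const_add 1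
    · filter_upwards [hlog.eventually_gt_atTop 0] with z hz
      simp only [Set.mem_Ioi]
      have : 0 < σ / Real.log z := by positivity
      linarith
  have h1 := hz.comp hs1
  have h2 : Filter.Tendsto (fun z : ℕ => Real.exp (2 * (σ / Real.log z) * C)) Filter.atTop (nhds 1) := by
    have h3 : Filter.Tendsto (fun z : ℕ => 2 * (σ / Real.log z) * C) Filter.atTop (nhds 0) := by
      have := (hs0.const_mul 2).mul_const C
      simpa using this
    have := (Real.continuous_exp.tendsto 0).comp h3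
    simpa [Function.comp_def] using this
  have h3 := h1.mul h2
  rw [mul_one] at h3
  have h4 := h3.eventually (gt_mem_nhds (show (1 : ℝ) < 1 + η by linarith))
  obtain ⟨z₁, hz₁⟩ := Filter.eventually_atTop.1 (h4.and (hlog.eventually_gt_atTop 0))
  refine ⟨max z₁ 2, le_max_right _ _, fun z hz N => ?_⟩
  obtain ⟨h5, hlz⟩ := hz₁ z ((le_max_left _ _).trans hz)
  have hz2 : 2 ≤ z := (le_max_right _ _).trans hz
  simp only [Function.comp] at h5
  set s := σ / Real.log z with hs
  have hspos : 0 < s := by positivity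
  have h6 : ∑ m ∈ Ioc 0 N, fM z m * Real.exp (-(σ * (Real.log m / Real.log z))) ≤ ∑' n, gP s (Pz z) n := by
    refine le_trans (le_of_eq ?_) ((gP_summable hspos (Pz z)).sum_le_tsum (Ioc 0 N) fun n _ => gP_nonneg _ _ _)
    apply sum_congr rfl
    intro m hm
    rw [mem_Ioc] at hm
    have hm0 : (0 : ℝ) < m := by exact_mod_cast hm.1
    rw [fM_apply]
    unfold gP
    have e : Rgh z m ↔ ∀ p ∈ Pz z, ¬ p ∣ m := by
      constructor
      · intro h p hp; exact h p (mem_Pz.1 hp).1 (mem_Pz.1 hp).2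
      · intro h p hp hpz; exact h p (mem_Pz.2 ⟨hp, hpz⟩)
    rw [if_congr e rfl rfl]
    split_ifs
    · rw [show -1 - s = (-1) + (-s) by ring, Real.rpow_add hm0, Real.rpow_neg_one]
      congr 1
      rw [Real.rpow_def_of_pos hm0, hs]
      congr 1
      field_simp
    · simp
  refine h6.trans ?_
  rw [gP_tsum hspos (Pz z) (fun q hq => (mem_Pz.1 hq).1)]
  have h7 := hprod s z hspos (by omega)
  have h8 : ∑' n : ℕ, (n : ℝ) ^ (-1 - s) = ∑' n : ℕ, 1 / (n : ℝ) ^ (1 + s) := by
    apply tsum_congr; intro n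
    rw [show -1 - s = -(1 + s) by ring, Real.rpow_neg (by positivity), one_div]
  have h9 : 0 ≤ ∑' n : ℕ, 1 / (n : ℝ) ^ (1 + s) := tsum_nonneg fun n => by positivity
  rw [h8]
  have e1 : (1 + s - 1) = s := by ring
  rw [e1] at h5
  have e2 : Real.exp (2 * s * (Real.log z + C)) = Real.exp (2 * σ) * Real.exp (2 * s * C) := by
    rw [← Real.exp_add]; congr 1
    rw [hs]; field_simp
  calc (∏ p ∈ Pz z, (1 - (p : ℝ) ^ (-1 - s))) * ∑' n : ℕ, 1 / (n : ℝ) ^ (1 + s)
      ≤ V z * Real.exp (2 * s * (Real.log z + C)) * ∑' n : ℕ, 1 / (n : ℝ) ^ (1 + s) := by gcongr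
    _ = V z * Real.log z / σ * Real.exp (2 * σ) *
        (s * (∑' n : ℕ, 1 / (n : ℝ) ^ (1 + s)) * Real.exp (2 * s * C)) := by
        rw [e2]
        have : s * Real.log z = σ := by rw [hs]; field_simp
        field_simp
        rw [← this]; ring
    _ ≤ _ := by
        have := V_pos z
        gcongr

end Pool.Agent.H318R2.Cr
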