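import Mathlib
import Pool.Agent.Helper923.PPS.BT
import Pool.Agent.H318R2.Cr.Prod

set_option autoImplicit false

namespace Pool.Agent.H318R2.Cr

open Finset ArithmeticFunction BoundingSieve Pool.Agent.Helper923.PPS

/-- primes `≤ z` not dividing `q` -/
def PQ (q z : ℕ) : Finset ℕ := (Icc 1 z).filter (fun p => p.Prime ∧ ¬ p ∣ q)

theorem mem_PQ {q z p : ℕ} : p ∈ PQ q z ↔ p.Prime ∧ p ≤ z ∧ ¬ p ∣ q := by
  unfold PQ
  rw [mem_filter, mem_Icc]
  constructor
  · rintro ⟨⟨_, h⟩, hp, hq⟩; exact ⟨hp, h, hq⟩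
  · rintro ⟨hp, h, hq⟩; exact ⟨⟨hp.one_lt.le, h⟩, hp, hq⟩

theorem PP_eq (q z : ℕ) : PP q z = ∏ p ∈ PQ q z, p := rfl

/-- sieve product over the primes `≤ z` not dividing `q` -/
noncomputable def Vq (q z : ℕ) : ℝ := ∏ p ∈ PQ q z, (1 - 1 / (p : ℝ))

theorem Vq_pos (q z : ℕ) : 0 < Vq q z := prod_pos fun p hp => one_sub_inv_pos (mem_PQ.1 hp).1

theorem PP_primeFactors (q z : ℕ) : (PP q z).primeFactors = PQ q z := by
  rw [PP_eq]
  exact Nat.primeFactors_prod fun p hp => (mem_PQ.1 hp).1

theorem g_prime {a q N z p : ℕ} (hp : p.Prime) :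
    (apSieve a q N z).selbergTerms p = 1 / (p : ℝ) * (1 - 1 / (p : ℝ))⁻¹ := by
  rw [selbergTerms_apply, hp.primeFactors, prod_singleton]
  change (p : ℝ)⁻¹ * (1 - (p : ℝ)⁻¹)⁻¹ = _
  rw [one_div]

theorem total (a q N z : ℕ) :
    ∑ l ∈ (PP q z).divisors, (apSieve a q N z).selbergTerms l = (Vq q z)⁻¹ := by
  have h := selbergTerms_isMultiplicative (s := apSieve a q N z)
  rw [← h.prodPrimeFactors_one_add_of_squarefree (PP_squarefree q z), PP_primeFactors]
  unfold Vq
  rw [← prod_inv_distrib]
  apply prod_congr rfl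
  intro p hp
  rw [g_prime (mem_PQ.1 hp).1]
  have hpos := one_sub_inv_pos (mem_PQ.1 hp).1
  have hp0 : (0 : ℝ) < p := by exact_mod_cast (mem_PQ.1 hp).1.pos
  have : (0 : ℝ) < p - 1 := by
    have : (1 : ℝ) < p := by exact_mod_cast (mem_PQ.1 hp).1.one_lt
    linarith
  field_simp
  ring

theorem weighted (a q N z : ℕ) (s : ℝ) :
    ∑ l ∈ (PP q z).divisors, (apSieve a q N z).selbergTerms l * (l : ℝ) ^ s =
      ∏ p ∈ PQ q z, (1 + 1 / (p : ℝ) * (1 - 1 / (p : ℝ))⁻¹ * (p : ℝ) ^ s) := by
  have h := selbergTerms_isMultiplicative (s := apSieve a q N z)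
  let f : ArithmeticFunction ℝ := ⟨fun n => (apSieve a q N z).selbergTerms n * (n : ℝ) ^ s, by simp⟩
  have hf : f.IsMultiplicative := by
    refine ⟨?_, ?_⟩
    · change (apSieve a q N z).selbergTerms 1 * ((1 : ℕ) : ℝ) ^ s = 1
      rw [h.map_one]; simp
    · intro m n hmn
      change (apSieve a q N z).selbergTerms (m * n) * ((m * n : ℕ) : ℝ) ^ s =
        ((apSieve a q N z).selbergTerms m * (m : ℝ) ^ s) * ((apSieve a q N z).selbergTerms n * (n : ℝ) ^ s)
      rw [h.map_mul_of_coprime hmn]
      push_cast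
      rw [Real.mul_rpow (by positivity) (by positivity)]
      ring
  have h2 := hf.prodPrimeFactors_one_add_of_squarefree (PP_squarefree q z)
  rw [PP_primeFactors] at h2
  change _ = ∑ d ∈ (PP q z).divisors, (apSieve a q N z).selbergTerms d * (d : ℝ) ^ s at h2
  rw [← h2]
  apply prod_congr rfl
  intro p hp
  change 1 + (apSieve a q N z).selbergTerms p * (p : ℝ) ^ s = _
  rw [g_prime (mem_PQ.1 hp).1]

theorem sum_log_le : ∃ C : ℝ, 0 ≤ C ∧ ∀ z : ℕ, 1 ≤ z → ∑ p ∈ Pz z, Real.log p / p ≤ Real.log z + C := by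
  obtain ⟨C, h⟩ := Helper923.HMertens.mertens_log
  have hC : 0 ≤ C := (abs_nonneg _).trans (h 1 le_rfl)
  refine ⟨C, hC, fun z hz => ?_⟩
  have h1 := (abs_le.1 (h z hz)).2
  have e0 : Icc 1 z = Ioc 0 z := by ext; simp [mem_Icc, mem_Ioc]; omega
  rw [e0] at h1
  unfold Pz
  linarith

theorem PQ_subset (q z : ℕ) : PQ q z ⊆ Pz z := by
  intro p hp
  rw [mem_PQ] at hp
  exact mem_Pz.2 ⟨hp.1, hp.2.1⟩

theorem selS_lower : ∃ K : ℝ, 0 < K ∧ ∀ (a q N z : ℕ) (R : ℝ), 2 ≤ z → 1 ≤ R →
    (Vq q z)⁻¹ * (1 - K * Real.exp (-(Real.log R / Real.log z))) ≤ selS (apSieve a q N z) R := by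
  obtain ⟨C, hC, hlog⟩ := sum_log_le
  have hl2 : 0 < Real.log 2 := Real.log_pos (by norm_num)
  refine ⟨Real.exp (2 + 2 * C / Real.log 2), Real.exp_pos _, ?_⟩
  intro a q N z R hz hR
  have hz2 : (2 : ℝ) ≤ z := by exact_mod_cast hz
  have hlz : Real.log 2 ≤ Real.log z := Real.log_le_log (by norm_num) hz2
  have hlz0 : 0 < Real.log z := by linarith
  set s := 1 / Real.log z with hs
  have hs0 : 0 < s := by positivity
  have hR0 : 0 < R := by linarith
  have hV := Vq_pos q z
  -- split
  have hsplit : (Vq q z)⁻¹ = selS (apSieve a q N z) R +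
      ∑ l ∈ (PP q z).divisors.filter (fun l : ℕ => ¬ (l : ℝ) ≤ R), (apSieve a q N z).selbergTerms l := by
    rw [← total a q N z]
    exact (sum_filter_add_sum_filter_not _ _ _).symm
  have htail : ∑ l ∈ (PP q z).divisors.filter (fun l : ℕ => ¬ (l : ℝ) ≤ R),
      (apSieve a q N z).selbergTerms l ≤
      R ^ (-s) * ∑ l ∈ (PP q z).divisors, (apSieve a q N z).selbergTerms l * (l : ℝ) ^ s := by
    rw [mul_sum]
    calc ∑ l ∈ (PP q z).divisors.filter (fun l : ℕ => ¬ (l : ℝ) ≤ R), (apSieve a q N z).selbergTerms l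
        ≤ ∑ l ∈ (PP q z).divisors.filter (fun l : ℕ => ¬ (l : ℝ) ≤ R),
          R ^ (-s) * ((apSieve a q N z).selbergTerms l * (l : ℝ) ^ s) := by
          apply sum_le_sum
          intro l hl
          rw [mem_filter, Nat.mem_divisors] at hl
          have hg := (selbergTerms_pos (s := apSieve a q N z) hl.1.1).le
          have h1 : (1 : ℝ) ≤ R ^ (-s) * (l : ℝ) ^ s := by
            rw [Real.rpow_neg hR0.le, inv_mul_eq_div, one_le_div (by positivity)]
            exact Real.rpow_le_rpow hR0.le (not_le.1 hl.2).le hs0.le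
          nlinarith
      _ ≤ _ := by
          apply sum_le_sum_of_subset_of_nonneg (filter_subset _ _)
          intro l hl _
          rw [Nat.mem_divisors] at hl
          have hg := (selbergTerms_pos (s := apSieve a q N z) hl.1).le
          positivity
  have hprod : ∏ p ∈ PQ q z, (1 + 1 / (p : ℝ) * (1 - 1 / (p : ℝ))⁻¹ * (p : ℝ) ^ s) ≤
      (Vq q z)⁻¹ * Real.exp (2 + 2 * C / Real.log 2) := by
    calc ∏ p ∈ PQ q z, (1 + 1 / (p : ℝ) * (1 - 1 / (p : ℝ))⁻¹ * (p : ℝ) ^ s)
        ≤ ∏ p ∈ PQ q z, ((1 - 1 / (p : ℝ))⁻¹ * Real.exp (2 / Real.log z * (Real.log p / p))) := by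
          apply prod_le_prod
          · intro p hp
            have := one_sub_inv_pos (mem_PQ.1 hp).1
            positivity
          · intro p hp
            obtain ⟨hpp, hpz, _⟩ := mem_PQ.1 hp
            have h1 := one_sub_inv_pos hpp
            have hp2 : (2 : ℝ) ≤ p := by exact_mod_cast hpp.two_le
            have hp0 : (0 : ℝ) < p := by linarith
            have hlp : 0 ≤ Real.log p := Real.log_nonneg (by linarith)
            have hlpz : Real.log p ≤ Real.log z := Real.log_le_log hp0 (by exact_mod_cast hpz)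
            set t := Real.log p / Real.log z with ht
            have ht0 : 0 ≤ t := by positivity
            have ht1 : t ≤ 1 := by rw [ht, div_le_one hlz0]; exact hlpz
            have e1 : (p : ℝ) ^ s = Real.exp t := by
              rw [Real.rpow_def_of_pos hp0, ht, hs]; congr 1; field_simp
            have h2 : Real.exp t - 1 ≤ 2 * t := by
              have := Real.abs_exp_sub_one_sub_id_le (x := t) (by rw [abs_of_nonneg ht0]; exact ht1)
              have := (abs_le.1 this).2
              nlinarith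
            have h3 : 1 + (Real.exp t - 1) / p ≤ Real.exp (2 / Real.log z * (Real.log p / p)) := by
              have h4 := Real.add_one_le_exp (2 / Real.log z * (Real.log p / p))
              have h5 : (Real.exp t - 1) / p ≤ 2 * t / p := div_le_div_of_nonneg_right h2 hp0.le
              have h6 : 2 * t / p = 2 / Real.log z * (Real.log p / p) := by
                rw [ht]; field_simp
              linarith
            rw [e1]
            have e2 : 1 + 1 / (p : ℝ) * (1 - 1 / (p : ℝ))⁻¹ * Real.exp t =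
              (1 - 1 / (p : ℝ))⁻¹ * (1 + (Real.exp t - 1) / p) := by
              have : (p : ℝ) - 1 ≠ 0 := by linarith
              field_simp
              ring
            rw [e2]
            exact mul_le_mul_of_nonneg_left h3 (by positivity)
      _ = (Vq q z)⁻¹ * Real.exp (2 / Real.log z * ∑ p ∈ PQ q z, (Real.log p / p)) := by
          rw [prod_mul_distrib, ← Real.exp_sum, ← mul_sum, Vq, prod_inv_distrib]
      _ ≤ _ := by
          apply mul_le_mul_of_nonneg_left _ (by positivity)
          apply Real.exp_le_exp.2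
          have h1 : ∑ p ∈ PQ q z, (Real.log p / p) ≤ Real.log z + C := by
            refine le_trans (sum_le_sum_of_subset_of_nonneg (PQ_subset q z) ?_) (hlog z (by omega))
            intro p hp _
            have := (mem_Pz.1 hp).1
            have h1 : (1 : ℝ) ≤ p := by exact_mod_cast this.one_lt.le
            have := Real.log_nonneg h1
            positivity
          calc 2 / Real.log z * ∑ p ∈ PQ q z, (Real.log p / p) ≤ 2 / Real.log z * (Real.log z + C) :=
                mul_le_mul_of_nonneg_left h1 (by positivity)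
            _ = 2 + 2 * C / Real.log z := by field_simp
            _ ≤ 2 + 2 * C / Real.log 2 := by
                have : 2 * C / Real.log z ≤ 2 * C / Real.log 2 :=
                  div_le_div_of_nonneg_left (by positivity) hl2 hlz
                linarith
  have hRs : R ^ (-s) = Real.exp (-(Real.log R / Real.log z)) := by
    rw [Real.rpow_def_of_pos hR0, hs]; congr 1; field_simp
  rw [weighted a q N z s, hRs] at htail
  have h7 := mul_le_mul_of_nonneg_left hprod (Real.exp_pos (-(Real.log R / Real.log z))).le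
  have h8 : (Vq q z)⁻¹ * (1 - Real.exp (2 + 2 * C / Real.log 2) * Real.exp (-(Real.log R / Real.log z))) =
    (Vq q z)⁻¹ - Real.exp (-(Real.log R / Real.log z)) * ((Vq q z)⁻¹ * Real.exp (2 + 2 * C / Real.log 2)) := by
    ring
  rw [h8]
  linarith

end Pool.Agent.H318R2.Cr
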