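import Mathlib
import Pool.Agent.H318R2.Cr.FL

set_option autoImplicit false

namespace Pool.Agent.H318R2.Cr

open Finset ArithmeticFunction BoundingSieve Pool.Agent.Helper923.PPS

theorem V_le_Vq (q z : ℕ) : V z ≤ Vq q z := by
  unfold V Vq
  rw [← prod_sdiff (PQ_subset q z)]
  apply mul_le_of_le_one_left (Vq_pos q z).le
  apply prod_le_one
  · intro p hp
    rw [mem_sdiff, mem_Pz] at hp
    exact (one_sub_inv_pos hp.1.1).le
  · intro p _
    have : (0 : ℝ) ≤ 1 / p := by positivity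
    linarith

theorem err_sum {a q N z : ℕ} {R : ℝ} (hR : 1 ≤ R) :
    (∑ d ∈ (Nat.divisors (apSieve a q N z).prodPrimes).filter (fun d : ℕ => (d : ℝ) ≤ R),
      ((apSieve a q N z).nu d)⁻¹) ^ 2 ≤ R ^ 4 := by
  have h6 : (Nat.divisors (apSieve a q N z).prodPrimes).filter (fun d : ℕ => (d : ℝ) ≤ R) ⊆
      Icc 1 ⌊R⌋₊ := by
    intro d hd
    rw [mem_filter, Nat.mem_divisors] at hd
    rw [mem_Icc]
    exact ⟨Nat.pos_of_ne_zero (ne_zero_of_dvd_ne_zero hd.1.2 hd.1.1), Nat.le_floor hd.2⟩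
  have h5 : (∑ d ∈ (Nat.divisors (apSieve a q N z).prodPrimes).filter (fun d : ℕ => (d : ℝ) ≤ R),
      ((apSieve a q N z).nu d)⁻¹) ≤ R ^ 2 := by
    calc (∑ d ∈ (Nat.divisors (apSieve a q N z).prodPrimes).filter (fun d : ℕ => (d : ℝ) ≤ R),
          ((apSieve a q N z).nu d)⁻¹)
        = ∑ d ∈ (Nat.divisors (apSieve a q N z).prodPrimes).filter (fun d : ℕ => (d : ℝ) ≤ R),
          (d : ℝ) := by
          apply sum_congr rfl
          intro d _
          change ((d : ℝ)⁻¹)⁻¹ = d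
          rw [inv_inv]
      _ ≤ ∑ d ∈ Icc 1 ⌊R⌋₊, (d : ℝ) :=
          sum_le_sum_of_subset_of_nonneg h6 (fun _ _ _ => by positivity)
      _ ≤ ∑ d ∈ Icc 1 ⌊R⌋₊, R := by
          apply sum_le_sum
          intro d hd
          have := (mem_Icc.mp hd).2
          exact (Nat.le_floor_iff (by linarith)).1 this
      _ = ⌊R⌋₊ * R := by simp
      _ ≤ R ^ 2 := by
          have := Nat.floor_le (by linarith : 0 ≤ R)
          nlinarith
  have h7 : 0 ≤ (∑ d ∈ (Nat.divisors (apSieve a q N z).prodPrimes).filter (fun d : ℕ => (d : ℝ) ≤ R),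
      ((apSieve a q N z).nu d)⁻¹) := by
    apply sum_nonneg
    intro d _
    change 0 ≤ ((d : ℝ)⁻¹)⁻¹
    positivity
  calc _ ≤ (R ^ 2) ^ 2 := by gcongr
    _ = R ^ 4 := by ring

theorem FL_upper : ∃ C U : ℝ, 0 ≤ C ∧ 1 ≤ U ∧ ∀ a q N z : ℕ, 0 < q → 2 ≤ z → 1 ≤ N →
    U * Real.log z ≤ Real.log N →
    (apSieve a q N z).siftedSum ≤ N * Vq q z * (1 + C * (Real.log z / Real.log N) ^ 2) := by
  obtain ⟨K, hK, hsel⟩ := selS_lower
  obtain ⟨c₁, c₂, hc1, hc12, hcz⟩ := cz_bounds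
  have hl2 : 0 < Real.log 2 := Real.log_pos (by norm_num)
  refine ⟨256 * K + 16 / (c₁ * Real.log 2), max 1 (8 * Real.log (2 * K)), by positivity,
    le_max_left _ _, ?_⟩
  intro a q N z hq hz hN hU
  have hz2 : (2 : ℝ) ≤ z := by exact_mod_cast hz
  have hlz : Real.log 2 ≤ Real.log z := Real.log_le_log (by norm_num) hz2
  have hlz0 : 0 < Real.log z := by linarith
  have hN1 : (1 : ℝ) ≤ N := by exact_mod_cast hN
  have hN0 : (0 : ℝ) < N := by linarith
  have hUz : Real.log z ≤ Real.log N := by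
    have h1 : 1 * Real.log z ≤ max 1 (8 * Real.log (2 * K)) * Real.log z :=
      mul_le_mul_of_nonneg_right (le_max_left _ _) hlz0.le
    linarith
  have hlN : 0 < Real.log N := by linarith
  set R : ℝ := (N : ℝ) ^ ((1 : ℝ) / 8) with hR
  have hR1 : 1 ≤ R := Real.one_le_rpow hN1 (by norm_num)
  have hlogR : Real.log R = Real.log N / 8 := by
    rw [hR, Real.log_rpow hN0]; ring
  have hV := Vq_pos q z
  have hsieve := siftedSum_le_selberg (apSieve a q N z) R hR1 1 zero_le_one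
    (fun d hd => apSieve_rem hq hd)
  have herr := err_sum (a := a) (q := q) (N := N) (z := z) hR1
  have hR4 : R ^ 4 = (N : ℝ) ^ ((1 : ℝ) / 2) := by
    rw [hR, ← Real.rpow_natCast, ← Real.rpow_mul hN0.le]; norm_num
  have hS := hsel a q N z R hz hR1
  set y := Real.log R / Real.log z with hy
  have hy0 : 0 < y := by
    rw [hy, hlogR]; positivity
  set x := K * Real.exp (-y) with hx
  have hx0 : 0 < x := by positivity
  have hyU : Real.log (2 * K) ≤ y := by
    rw [hy, hlogR, le_div_iff₀ hlz0]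
    have h1 : 8 * Real.log (2 * K) * Real.log z ≤ max 1 (8 * Real.log (2 * K)) * Real.log z :=
      mul_le_mul_of_nonneg_right (le_max_right _ _) hlz0.le
    linarith
  have hx12 : x ≤ 1 / 2 := by
    have h1 : Real.exp (-y) ≤ Real.exp (-(Real.log (2 * K))) := Real.exp_le_exp.2 (by linarith)
    rw [Real.exp_neg (Real.log (2 * K)), Real.exp_log (by positivity)] at h1
    calc x ≤ K * (2 * K)⁻¹ := mul_le_mul_of_nonneg_left h1 hK.le
      _ = 1 / 2 := by field_simp
  have hxy : x ≤ K * (128 * (Real.log z / Real.log N) ^ 2) := by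
    apply mul_le_mul_of_nonneg_left _ hK.le
    have h1 := Real.quadratic_le_exp_of_nonneg hy0.le
    have h2 : y ^ 2 / 2 ≤ Real.exp y := by linarith
    rw [Real.exp_neg]
    have h3 : (Real.exp y)⁻¹ ≤ (y ^ 2 / 2)⁻¹ := inv_anti₀ (by positivity) h2
    refine h3.trans (le_of_eq ?_)
    rw [hy, hlogR]
    field_simp
    norm_num
  have hSpos : 0 < (Vq q z)⁻¹ * (1 - x) := by
    have : 0 < 1 - x := by linarith
    positivity
  have h1 : (apSieve a q N z).totalMass / selS (apSieve a q N z) R ≤ N * Vq q z * (1 + 2 * x) := by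
    change (N : ℝ) / _ ≤ _
    calc (N : ℝ) / selS (apSieve a q N z) R ≤ N / ((Vq q z)⁻¹ * (1 - x)) :=
          div_le_div_of_nonneg_left hN0.le hSpos hS
      _ = N * Vq q z * (1 / (1 - x)) := by
          have : 1 - x ≠ 0 := by linarith
          field_simp
      _ ≤ N * Vq q z * (1 + 2 * x) := by
          apply mul_le_mul_of_nonneg_left _ (by positivity)
          rw [div_le_iff₀ (by linarith)]
          nlinarith
  have h2 : (N : ℝ) ^ ((1 : ℝ) / 2) ≤ N * Vq q z * (16 / (c₁ * Real.log 2) * (Real.log z / Real.log N) ^ 2) := by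
    have h3 : c₁ / Real.log z ≤ Vq q z := by
      refine le_trans ?_ (V_le_Vq q z)
      rw [div_le_iff₀ hlz0]
      exact (hcz z hz).1
    have h4 : Real.log N ≤ 4 * (N : ℝ) ^ ((1 : ℝ) / 4) := by
      have := Real.log_le_rpow_div hN0.le (show (0 : ℝ) < 1 / 4 by norm_num)
      linarith
    have h5 : Real.log N ^ 2 ≤ 16 * (N : ℝ) ^ ((1 : ℝ) / 2) := by
      calc Real.log N ^ 2 ≤ (4 * (N : ℝ) ^ ((1 : ℝ) / 4)) ^ 2 := pow_le_pow_left₀ hlN.le h4 2
        _ = 16 * (N : ℝ) ^ ((1 : ℝ) / 2) := by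
            rw [mul_pow, ← Real.rpow_natCast ((N : ℝ) ^ ((1 : ℝ) / 4)), ← Real.rpow_mul hN0.le]
            norm_num
    have h6 : (N : ℝ) ^ ((1 : ℝ) / 2) * (N : ℝ) ^ ((1 : ℝ) / 2) = N := by
      rw [← Real.rpow_add hN0]; norm_num
    have h7 : 0 < (N : ℝ) ^ ((1 : ℝ) / 2) := by positivity
    calc (N : ℝ) ^ ((1 : ℝ) / 2) ≤ N * (c₁ / Real.log z) * (16 / (c₁ * Real.log 2) * (Real.log z / Real.log N) ^ 2) := by
          have e : (N : ℝ) * (c₁ / Real.log z) * (16 / (c₁ * Real.log 2) * (Real.log z / Real.log N) ^ 2)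
            = N * 16 * (Real.log z / Real.log 2) / Real.log N ^ 2 := by
            field_simp
          rw [e, le_div_iff₀ (by positivity)]
          have h8 : 1 ≤ Real.log z / Real.log 2 := by rw [one_le_div hl2]; exact hlz
          calc (N : ℝ) ^ ((1 : ℝ) / 2) * Real.log N ^ 2 ≤ (N : ℝ) ^ ((1 : ℝ) / 2) * (16 * (N : ℝ) ^ ((1 : ℝ) / 2)) :=
                mul_le_mul_of_nonneg_left h5 h7.le
            _ = N * 16 * 1 := by linear_combination 16 * h6
            _ ≤ N * 16 * (Real.log z / Real.log 2) := mul_le_mul_of_nonneg_left h8 (by positivity)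
      _ ≤ _ := by
          apply mul_le_mul_of_nonneg_right _ (by positivity)
          exact mul_le_mul_of_nonneg_left h3 hN0.le
  have h9 : N * Vq q z * (1 + 2 * x) ≤ N * Vq q z * (1 + 256 * K * (Real.log z / Real.log N) ^ 2) := by
    apply mul_le_mul_of_nonneg_left _ (by positivity)
    linarith
  rw [hR4] at herr
  have e : N * Vq q z * (1 + (256 * K + 16 / (c₁ * Real.log 2)) * (Real.log z / Real.log N) ^ 2) =
    N * Vq q z * (1 + 256 * K * (Real.log z / Real.log N) ^ 2) +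
      N * Vq q z * (16 / (c₁ * Real.log 2) * (Real.log z / Real.log N) ^ 2) := by ring
  rw [e]
  linarith

end Pool.Agent.H318R2.Cr
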