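import Mathlib

set_option autoImplicit false

namespace Pool.Agent.H318R2.Cr

open Filter Topology Finset

section
variable {M J : ℝ → ℝ}

/-- the discrete weights -/
theorem geo_lower {c ε C₀ σ : ℝ} {N : ℕ} (hσ : 0 < σ) (hσ1 : σ < 1) (hc : 0 ≤ c) (hε : 0 ≤ ε)
    (hN : (N : ℝ) ≤ 1 / σ + 1) (hN2 : 1 / σ ≤ N + 1) (R : ℝ)
    (h : ∀ n : ℕ, ∑ i ∈ range n, (c * i + (if N ≤ i then ε * Real.log (N + 1) else 0) - C₀) *
      (Real.exp (-(σ * i)) - Real.exp (-(σ * (i + 1)))) ≤ R) :
    c * (1 / σ - 1) + ε * Real.log (1 / σ) * Real.exp (-2) - C₀ ≤ R := by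
  set q := Real.exp (-σ) with hq
  have hq0 : 0 < q := Real.exp_pos _
  have hq1 : q < 1 := by rw [hq, ← Real.exp_zero]; exact Real.exp_lt_exp.2 (by linarith)
  have hqn : ‖q‖ < 1 := by rw [Real.norm_of_nonneg hq0.le]; exact hq1
  have hpow : ∀ i : ℕ, Real.exp (-(σ * i)) = q ^ i := by
    intro i; rw [hq, ← Real.exp_nat_mul]; ring_nf
  have hpow1 : ∀ i : ℕ, Real.exp (-(σ * (i + 1))) = q ^ (i + 1) := by
    intro i; rw [hq, ← Real.exp_nat_mul]; push_cast; ring_nf
  have hw : ∀ i : ℕ, Real.exp (-(σ * i)) - Real.exp (-(σ * (i + 1))) = q ^ i * (1 - q) := by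
    intro i; rw [hpow, hpow1]; ring
  have s1 : HasSum (fun i : ℕ => (i : ℝ) * q ^ i) (q / (1 - q) ^ 2) :=
    hasSum_coe_mul_geometric_of_norm_lt_one hqn
  have s2 : HasSum (fun i : ℕ => q ^ i) (1 - q)⁻¹ := hasSum_geometric_of_lt_one hq0.le hq1
  have s3 : HasSum (fun i : ℕ => if N ≤ i then q ^ i else 0) (q ^ N * (1 - q)⁻¹) := by
    have h1 : HasSum (fun i : ℕ => q ^ N * q ^ i) (q ^ N * (1 - q)⁻¹) := s2.mul_left _
    rw [← hasSum_nat_add_iff' N]
    have h2 : ∑ i ∈ range N, (if N ≤ i then q ^ i else (0 : ℝ)) = 0 := by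
      apply sum_eq_zero; intro i hi; rw [mem_range] at hi; rw [if_neg (by omega)]
    rw [h2, sub_zero]
    have hfun : (fun i : ℕ => if N ≤ i + N then q ^ (i + N) else (0 : ℝ)) = fun i => q ^ N * q ^ i := by
      funext i
      rw [if_pos (by omega), pow_add, mul_comm]
    show HasSum (fun i : ℕ => if N ≤ i + N then q ^ (i + N) else (0 : ℝ)) _
    rw [hfun]
    exact h1
  have s4 : HasSum (fun i : ℕ => (c * i + (if N ≤ i then ε * Real.log (N + 1) else 0) - C₀) *
      (Real.exp (-(σ * i)) - Real.exp (-(σ * (i + 1)))))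
      ((c * (q / (1 - q) ^ 2) + ε * Real.log (N + 1) * (q ^ N * (1 - q)⁻¹) - C₀ * (1 - q)⁻¹) * (1 - q)) := by
    have := (((s1.mul_left c).add (s3.mul_left (ε * Real.log (N + 1)))).sub (s2.mul_left C₀)).mul_right (1 - q)
    have hfun : (fun i : ℕ => (c * i + (if N ≤ i then ε * Real.log (N + 1) else 0) - C₀) *
        (Real.exp (-(σ * i)) - Real.exp (-(σ * (i + 1))))) = fun i : ℕ =>
        (c * (i * q ^ i) + ε * Real.log (N + 1) * (if N ≤ i then q ^ i else 0) - C₀ * q ^ i) * (1 - q) := by
      funext i
      rw [hw]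
      split_ifs <;> ring
    rw [hfun]
    exact this
  have h1 : (c * (q / (1 - q) ^ 2) + ε * Real.log (N + 1) * (q ^ N * (1 - q)⁻¹) - C₀ * (1 - q)⁻¹) * (1 - q) ≤ R :=
    le_of_tendsto' s4.tendsto_sum_nat h
  have hq1' : 0 < 1 - q := by linarith
  have e1 : (c * (q / (1 - q) ^ 2) + ε * Real.log (N + 1) * (q ^ N * (1 - q)⁻¹) - C₀ * (1 - q)⁻¹) * (1 - q) =
      c * (q / (1 - q)) + ε * Real.log (N + 1) * q ^ N - C₀ := by
    field_simp
  rw [e1] at h1
  have h2 : 1 / σ - 1 ≤ q / (1 - q) := by
    have h3 : 1 - σ ≤ q := by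
      have := Real.add_one_le_exp (-σ); rw [← hq] at this; linarith
    rw [le_div_iff₀ hq1']
    have : (1 / σ - 1) * (1 - q) ≤ (1 / σ - 1) * σ := by
      apply mul_le_mul_of_nonneg_left (by linarith)
      have : 1 ≤ 1 / σ := by rw [le_div_iff₀ hσ]; linarith
      linarith
    have e2 : (1 / σ - 1) * σ = 1 - σ := by field_simp
    linarith
  have h3 : Real.log (1 / σ) ≤ Real.log (N + 1) :=
    Real.log_le_log (by positivity) hN2
  have h3' : 0 ≤ Real.log (1 / σ) := Real.log_nonneg (by rw [le_div_iff₀ hσ]; linarith)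
  have h4 : Real.exp (-2) ≤ q ^ N := by
    rw [← hpow]
    apply Real.exp_le_exp.2
    have : σ * N ≤ σ * (1 / σ + 1) := mul_le_mul_of_nonneg_left hN hσ.le
    have e3 : σ * (1 / σ + 1) = 1 + σ := by field_simp
    linarith
  have h3'' : 0 ≤ Real.log (N + 1 : ℝ) := h3'.trans h3
  have h5 : ε * Real.log (1 / σ) * Real.exp (-2) ≤ ε * Real.log (N + 1) * q ^ N := by
    gcongr
  have h6 := mul_le_mul_of_nonneg_left h2 hc
  linarith

theorem no_such (hJ0 : J 0 = 0)
    (h1 : ∀ v, 0 ≤ v → v < 1 → M v = 1)
    (h2 : ∀ v w, 0 ≤ v → v ≤ w → (w - v) * M v ≤ J w - J v ∧ J w - J v ≤ (w - v) * M w)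
    (h3 : ∀ v, 1 ≤ v → v * M v = J v + J (v - 1))
    {c U : ℝ} (hc : 0 < c)
    (h4 : ∀ v w, U ≤ v → v ≤ w → c * (w - v) ≤ M w - M v)
    (h5 : ∀ σ : ℝ, 0 < σ → σ < 1 → ∀ n : ℕ, ∑ i ∈ range n, M i * (Real.exp (-(σ * i)) - Real.exp (-(σ * (i + 1)))) ≤
      c / σ * Real.exp (2 * σ)) : False := by
  -- monotonicity
  have hmono : ∀ v w, 0 ≤ v → v ≤ w → M v ≤ M w := by
    intro v w hv hvw
    rcases hvw.eq_or_lt with rfl | hlt
    · exact le_rfl
    · have := h2 v w hv hvw
      have h6 : (w - v) * M v ≤ (w - v) * M w := this.1.trans this.2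
      exact le_of_mul_le_mul_left h6 (by linarith)
  have hM1 : ∀ v, 0 ≤ v → 1 ≤ M v := by
    intro v hv
    have := hmono 0 v le_rfl hv
    rwa [h1 0 le_rfl one_pos] at this
  -- J on [0,1]
  have hJlip : ∀ v w, 0 ≤ v → v ≤ w → |J w - J v| ≤ (w - v) * M w := by
    intro v w hv hvw
    have := h2 v w hv hvw
    rw [abs_le]
    have h6 : 0 ≤ (w - v) * M v := mul_nonneg (by linarith) (by linarith [hM1 v hv])
    constructor <;> linarith [this.1, this.2]
  have hJcont : ∀ v, 0 < v → ContinuousAt J v := by
    intro v hv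
    rw [Metric.continuousAt_iff]
    intro ε hε
    have hMp : 0 < M (2 * v) := by linarith [hM1 (2 * v) (by linarith)]
    refine ⟨min v (ε / (M (2 * v))), by positivity, fun w hw => ?_⟩
    rw [Real.dist_eq] at hw ⊢
    have hw1 := lt_of_lt_of_le hw (min_le_left _ _)
    have hw2 := lt_of_lt_of_le hw (min_le_right _ _)
    rw [abs_lt] at hw1
    rcases le_total v w with h | h
    · have := hJlip v w hv.le h
      have h6 : M w ≤ M (2 * v) := hmono w (2 * v) (by linarith) (by linarith)
      rw [abs_of_nonneg (by linarith), lt_div_iff₀ hMp] at hw2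
      calc |J w - J v| ≤ (w - v) * M w := this
        _ ≤ (w - v) * M (2 * v) := mul_le_mul_of_nonneg_left h6 (by linarith)
        _ < ε := hw2
    · have hw0 : 0 ≤ w := by linarith
      have := hJlip w v hw0 h
      have h6 : M v ≤ M (2 * v) := hmono v (2 * v) (by linarith) (by linarith)
      rw [abs_of_nonpos (by linarith), lt_div_iff₀ hMp] at hw2
      rw [abs_sub_comm]
      calc |J v - J w| ≤ (v - w) * M v := this
        _ ≤ (v - w) * M (2 * v) := mul_le_mul_of_nonneg_left h6 (by linarith)
        _ < ε := by linarith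
  have hJlin : ∀ v, 0 ≤ v → v < 1 → J v = v := by
    intro v hv hv1
    have := h2 0 v le_rfl hv
    rw [h1 0 le_rfl one_pos, h1 v hv hv1, hJ0] at this
    linarith [this.1, this.2]
  have hJ1 : J 1 = 1 := by
    have hca := hJcont 1 one_pos
    have t1 : Tendsto J (𝓝[<] 1) (𝓝 (J 1)) := hca.tendsto.mono_left nhdsWithin_le_nhds
    have t2 : Tendsto J (𝓝[<] 1) (𝓝 1) := by
      have t3 : Tendsto (fun v : ℝ => v) (𝓝[<] 1) (𝓝 1) := tendsto_id.mono_left nhdsWithin_le_nhds
      refine t3.congr' ?_
      have : Set.Ioo (0 : ℝ) 1 ∈ 𝓝[<] (1 : ℝ) := Ioo_mem_nhdsLT one_pos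
      filter_upwards [this] with v hv
      exact (hJlin v hv.1.le hv.2).symm
    exact tendsto_nhds_unique t1 t2
  -- M is continuous on (0, ∞)
  have hMc1 : M 1 = 1 := by
    have := h3 1 le_rfl
    simp only [sub_self, hJ0, hJ1] at this
    linarith
  have hJcont0 : ContinuousWithinAt J (Set.Ici 0) 0 := by
    rw [Metric.continuousWithinAt_iff]
    intro ε hε
    refine ⟨min (1 / 2) ε, by positivity, fun w hw hwd => ?_⟩
    rw [Real.dist_eq, sub_zero] at hwd
    rw [Real.dist_eq, hJ0, sub_zero]
    have hw1 := lt_of_lt_of_le hwd (min_le_left _ _)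
    have hw2 := lt_of_lt_of_le hwd (min_le_right _ _)
    have hw0 : (0 : ℝ) ≤ w := hw
    rw [abs_of_nonneg hw0] at hw1
    rw [hJlin w hw0 (by linarith)]
    exact hw2
  have hMcont : ∀ v, 0 < v → ContinuousAt M v := by
    intro v hv
    rcases lt_trichotomy v 1 with hv1 | hv1 | hv1
    · have : M =ᶠ[𝓝 v] fun _ => (1 : ℝ) := by
        filter_upwards [Ioo_mem_nhds hv hv1] with w hw
        exact h1 w hw.1.le hw.2
      exact continuousAt_const.congr this.symm
    · subst hv1
      rw [continuousAt_iff_continuous_left'_right']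
      constructor
      · have : M =ᶠ[𝓝[<] 1] fun _ => (1 : ℝ) := by
          have : Set.Ioo (0 : ℝ) 1 ∈ 𝓝[<] (1 : ℝ) := Ioo_mem_nhdsLT one_pos
          filter_upwards [this] with w hw
          exact h1 w hw.1.le hw.2
        exact continuousWithinAt_const.congr_of_eventuallyEq this hMc1
      · have hg : ContinuousWithinAt (fun v => (J v + J (v - 1)) / v) (Set.Ioi 1) 1 := by
          refine ContinuousWithinAt.div ?_ continuousWithinAt_id one_ne_zero
          refine ContinuousWithinAt.add (hJcont 1 one_pos).continuousWithinAt ?_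
          have hcomp : ContinuousWithinAt (fun v : ℝ => v - 1) (Set.Ioi 1) 1 := by fun_prop
          have := ContinuousWithinAt.comp (f := fun v : ℝ => v - 1) (g := J) (s := Set.Ioi 1) (t := Set.Ici 0) (x := 1)
            (by simpa using hJcont0) hcomp (by
              intro w hw; simp only [Set.mem_Ioi, Set.mem_Ici] at hw ⊢; linarith)
          exact this
        refine hg.congr ?_ ?_
        · intro w hw
          have hw' : (1 : ℝ) < w := hw
          have := h3 w hw'.le
          field_simp
          linarith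
        · rw [hMc1]; simp [hJ1, hJ0]
    · have hg : ContinuousAt (fun v => (J v + J (v - 1)) / v) v := by
        refine ContinuousAt.div ?_ continuousAt_id hv.ne'
        refine ContinuousAt.add (hJcont v hv) ?_
        have h6 : ContinuousAt J (v - 1) := hJcont (v - 1) (by linarith)
        exact ContinuousAt.comp (f := fun v : ℝ => v - 1) (g := J) h6 (by fun_prop)
      refine hg.congr ?_
      filter_upwards [Ioi_mem_nhds hv1] with w hw
      have hw' : (1 : ℝ) < w := hw
      have := h3 w hw'.le
      field_simp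
      linarith
  -- derivatives
  have hJder : ∀ v, 0 < v → HasDerivAt J (M v) v := by
    intro v hv
    rw [hasDerivAt_iff_tendsto_slope]
    have hMc := hMcont v hv
    have t0 : Tendsto M (𝓝[≠] v) (𝓝 (M v)) := hMc.tendsto.mono_left nhdsWithin_le_nhds
    have tmin : Tendsto (fun w => min (M v) (M w)) (𝓝[≠] v) (𝓝 (M v)) := by
      have := (tendsto_const_nhds (x := M v)).min t0
      simpa using this
    have tmax : Tendsto (fun w => max (M v) (M w)) (𝓝[≠] v) (𝓝 (M v)) := by
      have := (tendsto_const_nhds (x := M v)).max t0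
      simpa using this
    have hev : ∀ᶠ w in 𝓝[≠] v, w ≠ v ∧ 0 < w := by
      refine (eventually_mem_nhdsWithin).and ?_
      exact nhdsWithin_le_nhds (Ioi_mem_nhds hv)
    have key : ∀ w, w ≠ v → 0 < w → min (M v) (M w) ≤ slope J v w ∧ slope J v w ≤ max (M v) (M w) := by
      intro w hwv hw0
      rw [slope_def_field]
      rcases lt_or_gt_of_ne hwv with h | h
      · have h6 := h2 w v hw0.le h.le
        have h7 : 0 < v - w := by linarith
        have e : (J w - J v) / (w - v) = (J v - J w) / (v - w) := by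
          rw [← neg_sub (J v) (J w), ← neg_sub v w, neg_div_neg_eq]
        rw [e]
        constructor
        · refine (min_le_right _ _).trans ?_
          rw [le_div_iff₀ h7]; linarith [h6.1]
        · refine le_trans ?_ (le_max_left _ _)
          rw [div_le_iff₀ h7]; linarith [h6.2]
      · have h6 := h2 v w hv.le h.le
        have h7 : 0 < w - v := by linarith
        constructor
        · refine (min_le_left _ _).trans ?_
          rw [le_div_iff₀ h7]; linarith [h6.1]
        · refine le_trans ?_ (le_max_right _ _)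
          rw [div_le_iff₀ h7]; linarith [h6.2]
    exact tendsto_of_tendsto_of_tendsto_of_le_of_le' tmin tmax
      (hev.mono fun w hw => (key w hw.1 hw.2).1) (hev.mono fun w hw => (key w hw.1 hw.2).2)
  have hMder : ∀ v, 1 < v → HasDerivAt M (M (v - 1) / v) v := by
    intro v hv
    have hv0 : v ≠ 0 := by linarith
    have d1 := hJder v (by linarith)
    have d2 : HasDerivAt (fun w => J (w - 1)) (M (v - 1)) v := by
      have := (hJder (v - 1) (by linarith)).comp v ((hasDerivAt_id v).sub_const 1)
      simpa [Function.comp_def] using this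
    have d3 := (d1.add d2).div (hasDerivAt_id v) hv0
    have e : ((M v + M (v - 1)) * id v - (J + fun w => J (w - 1)) v * 1) / id v ^ 2 = M (v - 1) / v := by
      simp only [id, Pi.add_apply, mul_one]
      have := h3 v hv.le
      field_simp
      linarith
    rw [e] at d3
    refine d3.congr_of_eventuallyEq ?_
    filter_upwards [Ioi_mem_nhds hv] with w hw
    have hw' : (1 : ℝ) < w := hw
    have := h3 w hw'.le
    simp only [Pi.div_apply, Pi.add_apply, id]
    field_simp
    linarith
  -- step A
  set U' := max U 2 with hU'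
  have hU'1 : U ≤ U' := le_max_left _ _
  have hU'2 : 2 ≤ U' := le_max_right _ _
  have stepA : ∀ v, U' < v → c * v ≤ M (v - 1) := by
    intro v hv
    have hv0 : 0 < v := by linarith
    have d := hMder v (by linarith)
    have hs := hasDerivAt_iff_tendsto_slope.1 d
    have h6 : c ≤ M (v - 1) / v := by
      refine ge_of_tendsto hs ?_
      have hev : ∀ᶠ w in 𝓝[≠] v, w ≠ v ∧ U' < w := by
        refine (eventually_mem_nhdsWithin).and ?_
        exact nhdsWithin_le_nhds (Ioi_mem_nhds hv)
      refine hev.mono fun w hw => ?_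
      rw [slope_def_field]
      rcases lt_or_gt_of_ne hw.1 with h | h
      · have h7 := h4 w v (by linarith [hw.2]) h.le
        have e : (M w - M v) / (w - v) = (M v - M w) / (v - w) := by
          rw [← neg_sub (M v) (M w), ← neg_sub v w, neg_div_neg_eq]
        rw [e, le_div_iff₀ (by linarith)]
        exact h7
      · have h7 := h4 v w (by linarith) h.le
        rw [le_div_iff₀ (by linarith)]
        exact h7
    rw [le_div_iff₀ hv0] at h6
    exact h6
  -- step B
  have stepB : ∀ v₀, U' ≤ v₀ → M v₀ ≤ c * v₀ + c := by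
    intro v₀ hv₀
    by_contra hcon
    push Not at hcon
    set ε := M v₀ - (c * v₀ + c) with hε
    have hεpos : 0 < ε := by linarith
    -- monotone function M v - c v - ε log v on [v₀ + 1, ∞)
    have hmon : MonotoneOn (fun v => M v - c * v - ε * Real.log v) (Set.Ici (v₀ + 1)) := by
      apply monotoneOn_of_deriv_nonneg (convex_Ici _)
      · intro v hv
        have hv' : v₀ + 1 ≤ v := hv
        have : ContinuousAt (fun v => M v - c * v - ε * Real.log v) v := by
          refine ((hMcont v (by linarith)).sub (by fun_prop)).sub ?_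
          exact (Real.continuousAt_log (by linarith)).const_mul ε
        exact this.continuousWithinAt
      · intro v hv
        rw [interior_Ici] at hv
        have hv' : v₀ + 1 < v := hv
        have d : HasDerivAt (fun v => M v - c * v - ε * Real.log v) (M (v - 1) / v - c * 1 - ε * v⁻¹) v :=
          ((hMder v (by linarith)).sub ((hasDerivAt_id v).const_mul c)).sub
            ((Real.hasDerivAt_log (by linarith)).const_mul ε)
        exact d.differentiableAt.differentiableWithinAt
      · intro v hv
        rw [interior_Ici] at hv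
        have hv' : v₀ + 1 < v := hv
        have hv0 : 0 < v := by linarith
        have d : HasDerivAt (fun v => M v - c * v - ε * Real.log v) (M (v - 1) / v - c * 1 - ε * v⁻¹) v :=
          ((hMder v (by linarith)).sub ((hasDerivAt_id v).const_mul c)).sub
            ((Real.hasDerivAt_log (by linarith)).const_mul ε)
        rw [d.deriv]
        have h7 := h4 v₀ (v - 1) (by linarith) (by linarith)
        have h8 : c * v + ε ≤ M (v - 1) := by
          rw [hε]; linarith
        have h9 : M (v - 1) / v - c * 1 - ε * v⁻¹ = (M (v - 1) - (c * v + ε)) / v := by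
          field_simp
          ring
        rw [h9]
        exact div_nonneg (by linarith) hv0.le
    set K := M (v₀ + 1) - c * (v₀ + 1) - ε * Real.log (v₀ + 1) with hK
    have hlow : ∀ v, v₀ + 1 ≤ v → c * v + ε * Real.log v + K ≤ M v := by
      intro v hv
      have := hmon (Set.self_mem_Ici) (show v ∈ Set.Ici (v₀ + 1) from hv) hv
      simp only at this
      rw [← hK] at this
      linarith
    -- bound at integers
    set C₀ := |K| + c * (v₀ + 1) + ε * Real.log (v₀ + 2) + ε with hC₀
    have hint : ∀ (N i : ℕ), c * i + (if N ≤ i then ε * Real.log (N + 1) else 0) - C₀ ≤ M i := by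
      intro N i
      have hi0 : (0 : ℝ) ≤ i := by positivity
      have hlogle : (if N ≤ i then ε * Real.log (N + 1) else 0) ≤ ε * Real.log (i + 1) := by
        split_ifs with h
        · have : (N : ℝ) ≤ i := by exact_mod_cast h
          gcongr
        · have : 0 ≤ Real.log ((i : ℝ) + 1) := Real.log_nonneg (by linarith)
          positivity
      by_cases hiv : v₀ + 1 ≤ i
      · have h7 := hlow i hiv
        have hi1 : (1 : ℝ) ≤ i := by linarith
        have h8 : Real.log ((i : ℝ) + 1) ≤ Real.log i + 1 := by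
          have h9 : Real.log ((i : ℝ) + 1) ≤ Real.log (2 * i) := Real.log_le_log (by linarith) (by linarith)
          rw [Real.log_mul (by norm_num) (by linarith)] at h9
          have := Real.log_two_lt_d9
          linarith
        have h10 : -|K| ≤ K := neg_abs_le K
        have h11 : 0 ≤ c * (v₀ + 1) := by
          apply mul_nonneg hc.le; linarith
        have h12 : 0 ≤ ε * Real.log (v₀ + 2) := mul_nonneg hεpos.le (Real.log_nonneg (by linarith))
        have h13 : ε * Real.log ((i : ℝ) + 1) ≤ ε * (Real.log i + 1) := mul_le_mul_of_nonneg_left h8 hεpos.le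
        rw [hC₀]; linarith
      · push Not at hiv
        have h7 := hM1 i hi0
        have h8 : ε * Real.log ((i : ℝ) + 1) ≤ ε * Real.log (v₀ + 2) := by
          apply mul_le_mul_of_nonneg_left _ hεpos.le
          exact Real.log_le_log (by linarith) (by linarith)
        have h9 : c * i ≤ c * (v₀ + 1) := mul_le_mul_of_nonneg_left hiv.le hc.le
        have h10 : 0 ≤ |K| := abs_nonneg K
        rw [hC₀]; linarith
    have hfin : ∀ σ : ℝ, 0 < σ → σ < 1 →
        c * (1 / σ - 1) + ε * Real.log (1 / σ) * Real.exp (-2) - C₀ ≤ c / σ * Real.exp (2 * σ) := by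
      intro σ hσ hσ1
      have hN1 := Nat.floor_le (a := 1 / σ) (by positivity)
      have hN2 := Nat.lt_floor_add_one (1 / σ)
      apply geo_lower (N := ⌊1 / σ⌋₊) hσ hσ1 hc.le hεpos.le (by linarith) hN2.le
      intro n
      refine le_trans (sum_le_sum fun i _ => ?_) (h5 σ hσ hσ1 n)
      apply mul_le_mul_of_nonneg_right (hint _ i)
      have : Real.exp (-(σ * (i + 1))) ≤ Real.exp (-(σ * i)) := by
        apply Real.exp_le_exp.2; nlinarith
      linarith
    -- choose σ small
    have hfin2 : ∀ σ : ℝ, 0 < σ → σ < 1 →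
        ε * Real.log (1 / σ) * Real.exp (-2) ≤ C₀ + c + 2 * c * Real.exp 2 := by
      intro σ hσ hσ1
      have h7 := hfin σ hσ hσ1
      have h8 : Real.exp (2 * σ) ≤ 1 + 2 * σ * Real.exp 2 := by
        have h9 : Real.exp (2 * σ) - 1 ≤ 2 * σ * Real.exp (2 * σ) := by
          have := Real.add_one_le_exp (-(2 * σ))
          have h10 : Real.exp (2 * σ) * Real.exp (-(2 * σ)) = 1 := by
            rw [← Real.exp_add]; simp
          have h11 : (-(2 * σ) + 1) * Real.exp (2 * σ) ≤ 1 := by
            calc (-(2 * σ) + 1) * Real.exp (2 * σ) ≤ Real.exp (-(2 * σ)) * Real.exp (2 * σ) := by gcongr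
              _ = 1 := by rw [mul_comm]; exact h10
          linarith
        have h12 : Real.exp (2 * σ) ≤ Real.exp 2 := Real.exp_le_exp.2 (by linarith)
        have : 2 * σ * Real.exp (2 * σ) ≤ 2 * σ * Real.exp 2 := by gcongr
        linarith
      have h9 : c / σ * Real.exp (2 * σ) ≤ c / σ + 2 * c * Real.exp 2 := by
        calc c / σ * Real.exp (2 * σ) ≤ c / σ * (1 + 2 * σ * Real.exp 2) := by gcongr
          _ = c / σ + 2 * c * Real.exp 2 := by field_simp
      have e : c * (1 / σ - 1) = c / σ - c := by ring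
      rw [e] at h7
      linarith
    set X := (C₀ + c + 2 * c * Real.exp 2 + 1) / (ε * Real.exp (-2)) with hX
    have hXpos : 0 < X := by
      have : 0 ≤ C₀ := by
        rw [hC₀]
        have h10 : 0 ≤ |K| := abs_nonneg K
        have h11 : 0 ≤ c * (v₀ + 1) := by
          apply mul_nonneg hc.le; linarith
        have h12 : 0 ≤ ε * Real.log (v₀ + 2) := mul_nonneg hεpos.le (Real.log_nonneg (by linarith))
        linarith
      positivity
    have h10 := hfin2 (Real.exp (-X)) (Real.exp_pos _) (by rw [← Real.exp_zero]; exact Real.exp_lt_exp.2 (by linarith))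
    rw [one_div, ← Real.exp_neg, neg_neg, Real.log_exp] at h10
    have h11 : ε * X * Real.exp (-2) = C₀ + c + 2 * c * Real.exp 2 + 1 := by
      rw [hX]; field_simp
    linarith
  -- step C
  have stepC : ∀ k : ℕ, ∀ v, max (U' + 1 - k) 0 < v → M v = c * v + c := by
    intro k
    induction k with
    | zero =>
      intro v hv
      have hv' : U' + 1 < v := by
        have := lt_of_le_of_lt (le_max_left _ _) hv
        simpa using this
      have h6 := stepB v (by linarith)
      have h7 := stepA (v + 1) (by linarith)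
      rw [add_sub_cancel_right] at h7
      linarith
    | succ k ih =>
      intro v hv
      have hv0 : 0 < v := lt_of_le_of_lt (le_max_right _ _) hv
      have hv1 : U' + 1 - ((k + 1 : ℕ) : ℝ) < v := lt_of_le_of_lt (le_max_left _ _) hv
      push_cast at hv1
      have hw : max (U' + 1 - k) 0 < v + 1 := max_lt (by linarith) (by linarith)
      have d := hMder (v + 1) (by linarith)
      rw [add_sub_cancel_right] at d
      have d2 : HasDerivAt M c (v + 1) := by
        have d3 : HasDerivAt (fun w => c * w + c) (c * 1) (v + 1) :=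
          ((hasDerivAt_id (v + 1)).const_mul c).add_const c
        rw [mul_one] at d3
        refine d3.congr_of_eventuallyEq ?_
        filter_upwards [Ioi_mem_nhds hw] with w hw'
        exact ih w hw'
      have h6 := d.unique d2
      rw [div_eq_iff (by linarith)] at h6
      linarith
  obtain ⟨k, hk⟩ := exists_nat_gt (U' + 1)
  have h6 := stepC k (1 / 2) (max_lt (by linarith) (by norm_num))
  have h7 := stepC k (1 / 4) (max_lt (by linarith) (by norm_num))
  rw [h1 _ (by norm_num) (by norm_num)] at h6 h7
  linarith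

end

end Pool.Agent.H318R2.Cr
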