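import Mathlib
import Pool.Agent.H318R2.Cr.Rough
import Pool.Agent.H318R2.Cr.Prod
import Pool.Agent.H318R2.Cr.NoSuch

set_option autoImplicit false

namespace Pool.Agent.H318R2.Cr

open Filter Topology Finset

theorem exists_ulim (U : Ultrafilter ℕ) (f : ℕ → ℝ) (B : ℝ)
    (h : ∀ᶠ j in (U : Filter ℕ), |f j| ≤ B) : ∃ L, Tendsto f U (𝓝 L) := by
  have hc : IsCompact (Set.Icc (-B) B) := isCompact_Icc
  rw [isCompact_iff_ultrafilter_le_nhds] at hc
  obtain ⟨L, _, hL⟩ := hc (U.map f) (by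
    rw [le_principal_iff]
    have h' : ∀ᶠ j in (U : Filter ℕ), f j ∈ Set.Icc (-B) B := h.mono fun j hj => abs_le.1 hj
    exact h')
  exact ⟨L, hL⟩

/-- Abel summation at the powers of `z` -/
theorem abel_pow {σ : ℝ} (hσ : 0 < σ) {z : ℕ} (hz : 2 ≤ z) (n : ℕ) :
    ∑ i ∈ range n, MM z ((z : ℝ) ^ (i : ℝ)) * (Real.exp (-(σ * i)) - Real.exp (-(σ * (i + 1)))) ≤
      ∑ m ∈ Ioc 0 (z ^ n), fM z m * Real.exp (-(σ * (Real.log m / Real.log z))) := by
  have hz0 : (0 : ℝ) < z := by positivity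
  have hlz : 0 < Real.log z := Real.log_pos (by exact_mod_cast (by omega : 1 < z))
  have hMM : ∀ i : ℕ, MM z ((z : ℝ) ^ (i : ℝ)) = ∑ m ∈ Ioc 0 (z ^ i), fM z m := by
    intro i
    unfold MM
    rw [Real.rpow_natCast]
    congr 2
    exact_mod_cast Nat.floor_natCast (R := ℝ) (z ^ i)
  have key : ∀ n : ℕ, ∑ i ∈ range n, MM z ((z : ℝ) ^ (i : ℝ)) * (Real.exp (-(σ * i)) - Real.exp (-(σ * (i + 1))))
      + MM z ((z : ℝ) ^ (n : ℝ)) * Real.exp (-(σ * n)) ≤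
      ∑ m ∈ Ioc 0 (z ^ n), fM z m * Real.exp (-(σ * (Real.log m / Real.log z))) := by
    intro n
    induction n with
    | zero =>
      rw [hMM]
      have e1 : Ioc 0 (z ^ 0) = {1} := by ext; simp [mem_Ioc]; omega
      rw [e1]
      simp
    | succ n ih =>
      rw [sum_range_succ]
      have hsub : Ioc 0 (z ^ n) ⊆ Ioc 0 (z ^ (n + 1)) :=
        Ioc_subset_Ioc le_rfl (Nat.pow_le_pow_right (by omega) (by omega))
      have h1 : ∑ m ∈ Ioc 0 (z ^ (n + 1)), fM z m * Real.exp (-(σ * (Real.log m / Real.log z))) =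
          ∑ m ∈ Ioc 0 (z ^ (n + 1)) \ Ioc 0 (z ^ n), fM z m * Real.exp (-(σ * (Real.log m / Real.log z))) +
          ∑ m ∈ Ioc 0 (z ^ n), fM z m * Real.exp (-(σ * (Real.log m / Real.log z))) :=
        (sum_sdiff hsub).symm
      have h2 : MM z ((z : ℝ) ^ ((n + 1 : ℕ) : ℝ)) = ∑ m ∈ Ioc 0 (z ^ (n + 1)) \ Ioc 0 (z ^ n), fM z m +
          MM z ((z : ℝ) ^ (n : ℝ)) := by
        rw [hMM, hMM]; exact (sum_sdiff hsub).symm
      have h3 : (∑ m ∈ Ioc 0 (z ^ (n + 1)) \ Ioc 0 (z ^ n), fM z m) * Real.exp (-(σ * (n + 1))) ≤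
          ∑ m ∈ Ioc 0 (z ^ (n + 1)) \ Ioc 0 (z ^ n), fM z m * Real.exp (-(σ * (Real.log m / Real.log z))) := by
        rw [sum_mul]
        apply sum_le_sum
        intro m hm
        rw [Finset.mem_sdiff, mem_Ioc, mem_Ioc] at hm
        apply mul_le_mul_of_nonneg_left _ (fM_nonneg z m)
        apply Real.exp_le_exp.2
        have hm0 : (0 : ℝ) < m := by exact_mod_cast hm.1.1
        have h4 : Real.log m ≤ (n + 1) * Real.log z := by
          have h5 : (m : ℝ) ≤ (z : ℝ) ^ (n + 1) := by exact_mod_cast hm.1.2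
          calc Real.log m ≤ Real.log ((z : ℝ) ^ (n + 1)) := Real.log_le_log hm0 h5
            _ = (n + 1) * Real.log z := by rw [Real.log_pow]; push_cast; ring
        have h5 : Real.log m / Real.log z ≤ n + 1 := by
          rw [div_le_iff₀ hlz]; exact h4
        have := mul_le_mul_of_nonneg_left h5 hσ.le
        linarith
      rw [h1, h2]
      push_cast
      have e : (∑ m ∈ Ioc 0 (z ^ (n + 1)) \ Ioc 0 (z ^ n), fM z m + MM z ((z : ℝ) ^ (n : ℝ))) *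
          Real.exp (-(σ * (n + 1))) = (∑ m ∈ Ioc 0 (z ^ (n + 1)) \ Ioc 0 (z ^ n), fM z m) *
          Real.exp (-(σ * (n + 1))) + MM z ((z : ℝ) ^ (n : ℝ)) * Real.exp (-(σ * (n + 1))) := by ring
      rw [e]
      linarith
  have h1 := key n
  have h2 : 0 ≤ MM z ((z : ℝ) ^ (n : ℝ)) * Real.exp (-(σ * n)) :=
    mul_nonneg (MM_nonneg _ _) (Real.exp_pos _).le
  linarith

/-- a priori bound -/
theorem MM_bound : ∃ (B : ℝ) (z₀ : ℕ), 0 < B ∧ 2 ≤ z₀ ∧ ∀ z : ℕ, z₀ ≤ z → ∀ v : ℝ, 0 ≤ v →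
    MM z ((z : ℝ) ^ v) ≤ B * Real.exp v := by
  obtain ⟨c₁, c₂, hc₁, hc₁₂, hcz⟩ := cz_bounds
  obtain ⟨z₀, hz₀, h⟩ := rankin 1 one_pos 1 one_pos
  have hc₂ : 0 < c₂ := lt_of_lt_of_le hc₁ hc₁₂
  refine ⟨c₂ * Real.exp 2 * 2, z₀, by positivity, hz₀, fun z hz v hv => ?_⟩
  have hz2 : 2 ≤ z := hz₀.trans hz
  have hz0 : (0 : ℝ) < z := by positivity
  have hlz : 0 < Real.log z := Real.log_pos (by exact_mod_cast (by omega : 1 < z))
  have h1 := h z hz ⌊(z : ℝ) ^ v⌋₊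
  have h2 : MM z ((z : ℝ) ^ v) * Real.exp (-v) ≤ ∑ m ∈ Ioc 0 ⌊(z : ℝ) ^ v⌋₊, fM z m * Real.exp (-(1 * (Real.log m / Real.log z))) := by
    unfold MM
    rw [sum_mul]
    apply sum_le_sum
    intro m hm
    rw [mem_Ioc] at hm
    apply mul_le_mul_of_nonneg_left _ (fM_nonneg z m)
    apply Real.exp_le_exp.2
    have hm0 : (0 : ℝ) < m := by exact_mod_cast hm.1
    have h3 : (m : ℝ) ≤ (z : ℝ) ^ v := by
      have := Nat.floor_le (a := (z : ℝ) ^ v) (by positivity)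
      have h4 : (m : ℝ) ≤ ⌊(z : ℝ) ^ v⌋₊ := by exact_mod_cast hm.2
      linarith
    have h4 : Real.log m ≤ v * Real.log z := by
      rw [← Real.log_rpow hz0]; exact Real.log_le_log hm0 h3
    have h5 : Real.log m / Real.log z ≤ v := by
      rw [div_le_iff₀ hlz]; exact h4
    linarith
  have h3 : MM z ((z : ℝ) ^ v) * Real.exp (-v) ≤ c₂ * Real.exp 2 * 2 := by
    refine h2.trans (h1.trans ?_)
    have := (hcz z hz2).2
    have h6 : V z * Real.log z / 1 * Real.exp (2 * 1) * (1 + 1) = V z * Real.log z * Real.exp 2 * 2 := by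
      norm_num
    rw [h6]
    gcongr
  have h4 : MM z ((z : ℝ) ^ v) = MM z ((z : ℝ) ^ v) * Real.exp (-v) * Real.exp v := by
    rw [mul_assoc, ← Real.exp_add]; simp
  rw [h4]
  gcongr

theorem NT1 (U₀ : ℝ) : ∃ δ : ℝ, 0 < δ ∧ ∃ (K : ℝ) (z₀ : ℕ), ∀ z : ℕ, z₀ ≤ z → ∃ v₁ v₂ : ℝ,
    U₀ ≤ v₁ ∧ v₁ + δ ≤ v₂ ∧ v₂ ≤ K ∧
    MM z ((z : ℝ) ^ v₂) - MM z ((z : ℝ) ^ v₁) ≤ (1 - δ) * (V z * Real.log z) * (v₂ - v₁) := by
  -- reduce to U₀ ≥ 0
  suffices H : ∀ U₀ : ℝ, 0 ≤ U₀ → ∃ δ : ℝ, 0 < δ ∧ ∃ (K : ℝ) (z₀ : ℕ), ∀ z : ℕ, z₀ ≤ z → ∃ v₁ v₂ : ℝ,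
      U₀ ≤ v₁ ∧ v₁ + δ ≤ v₂ ∧ v₂ ≤ K ∧
      MM z ((z : ℝ) ^ v₂) - MM z ((z : ℝ) ^ v₁) ≤ (1 - δ) * (V z * Real.log z) * (v₂ - v₁) by
    obtain ⟨δ, hδ, K, z₀, h⟩ := H (max U₀ 0) (le_max_right _ _)
    refine ⟨δ, hδ, K, z₀, fun z hz => ?_⟩
    obtain ⟨v₁, v₂, h1, h2⟩ := h z hz
    exact ⟨v₁, v₂, (le_max_left _ _).trans h1, h2⟩
  clear U₀
  intro U₀ hU₀
  by_contra hcon
  push Not at hcon
  have hcon' : ∀ j : ℕ, ∃ z : ℕ, j + 2 ≤ z ∧ ∀ v₁ v₂ : ℝ, U₀ ≤ v₁ → v₁ + 1 / ((j : ℝ) + 1) ≤ v₂ → v₂ ≤ j →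
      (1 - 1 / ((j : ℝ) + 1)) * (V z * Real.log z) * (v₂ - v₁) < MM z ((z : ℝ) ^ v₂) - MM z ((z : ℝ) ^ v₁) := by
    intro j
    obtain ⟨z, hz, h⟩ := hcon (1 / ((j : ℝ) + 1)) (by positivity) j (j + 2)
    exact ⟨z, hz, fun v₁ v₂ h1 h2 h3 => h v₁ v₂ h1 h2 h3⟩
  choose zs hzs hzs2 using hcon'
  set U : Ultrafilter ℕ := hyperfilter ℕ with hU
  have hUle : (U : Filter ℕ) ≤ atTop := by
    rw [hU, ← Nat.cofinite_eq_atTop]; exact hyperfilter_le_cofinite
  have hzT : Tendsto zs U atTop := by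
    have : Tendsto zs atTop atTop := tendsto_atTop_mono (fun j => (show j ≤ zs j by have := hzs j; omega)) tendsto_id
    exact this.mono_left hUle
  have hlT : Tendsto (fun j => Real.log (zs j)) U atTop :=
    Real.tendsto_log_atTop.comp (tendsto_natCast_atTop_atTop.comp hzT)
  have hz2 : ∀ j, 2 ≤ zs j := fun j => by have := hzs j; omega
  have hz0 : ∀ j, (0 : ℝ) < zs j := fun j => by exact_mod_cast (by have := hz2 j; omega : 0 < zs j)
  have hz1 : ∀ j, (1 : ℝ) ≤ zs j := fun j => by exact_mod_cast (by have := hz2 j; omega : 1 ≤ zs j)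
  have hlz : ∀ j, 0 < Real.log (zs j) := fun j => Real.log_pos (by exact_mod_cast (by have := hz2 j; omega : 1 < zs j))
  obtain ⟨B, z₀, hB, hz₀, hMB⟩ := MM_bound
  have hevB : ∀ᶠ j in (U : Filter ℕ), z₀ ≤ zs j := hzT.eventually_ge_atTop z₀
  -- the limits
  have hMex : ∀ v : ℝ, ∃ L : ℝ, 0 ≤ v → Tendsto (fun j => MM (zs j) ((zs j : ℝ) ^ v)) U (𝓝 L) := by
    intro v
    by_cases hv : 0 ≤ v
    · obtain ⟨L, hL⟩ := exists_ulim U (fun j => MM (zs j) ((zs j : ℝ) ^ v)) (B * Real.exp v) (by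
        filter_upwards [hevB] with j hj
        rw [abs_of_nonneg (MM_nonneg _ _)]
        exact hMB (zs j) hj v hv)
      exact ⟨L, fun _ => hL⟩
    · exact ⟨0, fun h => absurd h hv⟩
  choose M hM using hMex
  have hIlow : ∀ j, ∀ v : ℝ, 0 ≤ v → 0 ≤ II (zs j) ((zs j : ℝ) ^ v) ∧
      II (zs j) ((zs j : ℝ) ^ v) ≤ MM (zs j) ((zs j : ℝ) ^ v) * (v * Real.log (zs j)) := by
    intro j v hv
    have h1 : (1 : ℝ) ≤ (zs j : ℝ) ^ v := Real.one_le_rpow (hz1 j) hv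
    have h2 := II_diff (z := zs j) one_pos h1
    have h3 : II (zs j) 1 = 0 := by
      rw [II_small le_rfl (by linarith [hz0 j]), Real.log_one]
    rw [h3, div_one, Real.log_rpow (hz0 j), sub_zero] at h2
    refine ⟨?_, h2.2⟩
    refine le_trans ?_ h2.1
    exact mul_nonneg (MM_nonneg _ _) (mul_nonneg hv (hlz j).le)
  have hJex : ∀ v : ℝ, ∃ L : ℝ, 0 ≤ v → Tendsto (fun j => II (zs j) ((zs j : ℝ) ^ v) / Real.log (zs j)) U (𝓝 L) := by
    intro v
    by_cases hv : 0 ≤ v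
    · obtain ⟨L, hL⟩ := exists_ulim U (fun j => II (zs j) ((zs j : ℝ) ^ v) / Real.log (zs j)) (B * Real.exp v * v) (by
        filter_upwards [hevB] with j hj
        have h1 := hIlow j v hv
        rw [abs_of_nonneg (div_nonneg h1.1 (hlz j).le), div_le_iff₀ (hlz j)]
        refine h1.2.trans ?_
        have h2 := hMB (zs j) hj v hv
        calc MM (zs j) ((zs j : ℝ) ^ v) * (v * Real.log (zs j)) ≤ (B * Real.exp v) * (v * Real.log (zs j)) :=
              mul_le_mul_of_nonneg_right h2 (mul_nonneg hv (hlz j).le)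
          _ = B * Real.exp v * v * Real.log (zs j) := by ring)
      exact ⟨L, fun _ => hL⟩
    · exact ⟨0, fun h => absurd h hv⟩
  choose J hJ using hJex
  obtain ⟨c₁, c₂, hc₁, hc₁₂, hcz⟩ := cz_bounds
  obtain ⟨c, hc⟩ := exists_ulim U (fun j => V (zs j) * Real.log (zs j)) c₂ (by
    refine Eventually.of_forall fun j => ?_
    have := hcz (zs j) (hz2 j)
    rw [abs_of_nonneg (by linarith)]
    exact this.2)
  have hcpos : 0 < c := lt_of_lt_of_le hc₁ (ge_of_tendsto' hc fun j => (hcz (zs j) (hz2 j)).1)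
  apply no_such (M := M) (J := J) (c := c) (U := U₀)
  · -- J 0 = 0
    have h1 := hJ 0 le_rfl
    have h2 : (fun j => II (zs j) ((zs j : ℝ) ^ (0 : ℝ)) / Real.log (zs j)) = fun _ => (0 : ℝ) := by
      funext j
      rw [Real.rpow_zero, II_small le_rfl (by linarith [hz0 j]), Real.log_one, zero_div]
    rw [h2] at h1
    exact tendsto_nhds_unique h1 tendsto_const_nhds
  · intro v hv hv1
    have h1 := hM v hv
    have h2 : (fun j => MM (zs j) ((zs j : ℝ) ^ v)) = fun _ => (1 : ℝ) := by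
      funext j
      apply MM_small (Real.one_le_rpow (hz1 j) hv)
      calc (zs j : ℝ) ^ v ≤ (zs j : ℝ) ^ (1 : ℝ) := Real.rpow_le_rpow_of_exponent_le (hz1 j) hv1.le
        _ = zs j := Real.rpow_one _
        _ < zs j + 1 := by linarith
    rw [h2] at h1
    exact tendsto_nhds_unique h1 tendsto_const_nhds
  · intro v w hv hvw
    have hw : 0 ≤ w := hv.trans hvw
    have key : ∀ j, (w - v) * MM (zs j) ((zs j : ℝ) ^ v) ≤
        II (zs j) ((zs j : ℝ) ^ w) / Real.log (zs j) - II (zs j) ((zs j : ℝ) ^ v) / Real.log (zs j) ∧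
        II (zs j) ((zs j : ℝ) ^ w) / Real.log (zs j) - II (zs j) ((zs j : ℝ) ^ v) / Real.log (zs j) ≤
        (w - v) * MM (zs j) ((zs j : ℝ) ^ w) := by
      intro j
      have h0 : (0 : ℝ) < (zs j : ℝ) ^ v := Real.rpow_pos_of_pos (hz0 j) v
      have h1 : (zs j : ℝ) ^ v ≤ (zs j : ℝ) ^ w := Real.rpow_le_rpow_of_exponent_le (hz1 j) hvw
      have h2 := II_diff (z := zs j) h0 h1
      have h3 : Real.log ((zs j : ℝ) ^ w / (zs j : ℝ) ^ v) = (w - v) * Real.log (zs j) := by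
        rw [← Real.rpow_sub (hz0 j), Real.log_rpow (hz0 j)]
      rw [h3] at h2
      rw [← sub_div]
      constructor
      · rw [le_div_iff₀ (hlz j)]; linarith [h2.1]
      · rw [div_le_iff₀ (hlz j)]; linarith [h2.2]
    exact ⟨le_of_tendsto_of_tendsto' ((hM v hv).const_mul (w - v)) ((hJ w hw).sub (hJ v hv)) fun j => (key j).1,
      le_of_tendsto_of_tendsto' ((hJ w hw).sub (hJ v hv)) ((hM w hw).const_mul (w - v)) fun j => (key j).2⟩
  · intro v hv
    obtain ⟨C, hC, hmain⟩ := main_eq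
    have hv0 : 0 ≤ v := by linarith
    have h1 : Tendsto (fun j => v * MM (zs j) ((zs j : ℝ) ^ v) - II (zs j) ((zs j : ℝ) ^ v) / Real.log (zs j) -
        II (zs j) ((zs j : ℝ) ^ (v - 1)) / Real.log (zs j)) U (𝓝 (v * M v - J v - J (v - 1))) :=
      (((hM v hv0).const_mul v).sub (hJ v hv0)).sub (hJ (v - 1) (by linarith))
    have h2 : Tendsto (fun j => v * MM (zs j) ((zs j : ℝ) ^ v) - II (zs j) ((zs j : ℝ) ^ v) / Real.log (zs j) -
        II (zs j) ((zs j : ℝ) ^ (v - 1)) / Real.log (zs j)) U (𝓝 0) := by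
      rw [tendsto_zero_iff_abs_tendsto_zero]
      have h3 : Tendsto (fun j => C * MM (zs j) ((zs j : ℝ) ^ v) / Real.log (zs j)) U (𝓝 0) :=
        ((hM v hv0).const_mul C).div_atTop hlT
      refine squeeze_zero (fun j => abs_nonneg _) (fun j => ?_) h3
      have h4 := hmain (zs j) ((zs j : ℝ) ^ v) (by have := hz2 j; omega) (Real.one_le_rpow (hz1 j) hv0)
      have h5 : (zs j : ℝ) ^ v / zs j = (zs j : ℝ) ^ (v - 1) := by
        rw [Real.rpow_sub (hz0 j), Real.rpow_one]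
      rw [h5, Real.log_rpow (hz0 j)] at h4
      simp only [Function.comp]
      have h6 : v * MM (zs j) ((zs j : ℝ) ^ v) - II (zs j) ((zs j : ℝ) ^ v) / Real.log (zs j) -
        II (zs j) ((zs j : ℝ) ^ (v - 1)) / Real.log (zs j) =
        (v * Real.log (zs j) * MM (zs j) ((zs j : ℝ) ^ v) - II (zs j) ((zs j : ℝ) ^ v) -
        II (zs j) ((zs j : ℝ) ^ (v - 1))) / Real.log (zs j) := by
        have := (hlz j).ne'
        field_simp
      rw [h6, abs_div, abs_of_pos (hlz j)]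
      exact div_le_div_of_nonneg_right h4 (hlz j).le
    have := tendsto_nhds_unique h1 h2
    linarith
  · exact hcpos
  · intro v w hv hvw
    rcases hvw.eq_or_lt with rfl | hlt
    · simp
    have hv0 : 0 ≤ v := hU₀.trans hv
    have hw0 : 0 ≤ w := hv0.trans hvw
    have h1 : Tendsto (fun j : ℕ => (1 - 1 / ((j : ℝ) + 1)) * (V (zs j) * Real.log (zs j)) * (w - v)) U
        (𝓝 ((1 - 0) * c * (w - v))) := by
      refine ((tendsto_const_nhds.sub ?_).mul hc).mul_const _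
      exact tendsto_one_div_add_atTop_nhds_zero_nat.mono_left hUle
    rw [sub_zero, one_mul] at h1
    refine le_of_tendsto_of_tendsto h1 ((hM w hw0).sub (hM v hv0)) ?_
    have e1 : ∀ᶠ j : ℕ in atTop, w ≤ j := (tendsto_natCast_atTop_atTop).eventually_ge_atTop w
    have e2 : ∀ᶠ j : ℕ in atTop, 1 / ((j : ℝ) + 1) < w - v :=
      tendsto_one_div_add_atTop_nhds_zero_nat.eventually (gt_mem_nhds (by linarith))
    filter_upwards [hUle e1, hUle e2] with j h3 h4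
    exact (hzs2 j v w hv (by linarith) h3).le
  · intro σ hσ hσ1 n
    -- for every η
    have key : ∀ η : ℝ, 0 < η → ∑ i ∈ range n, M i * (Real.exp (-(σ * i)) - Real.exp (-(σ * (i + 1)))) ≤
        c / σ * Real.exp (2 * σ) * (1 + η) := by
      intro η hη
      obtain ⟨z₁, hz₁, hR⟩ := rankin σ hσ η hη
      have h1 : Tendsto (fun j => ∑ i ∈ range n, MM (zs j) ((zs j : ℝ) ^ (i : ℝ)) *
          (Real.exp (-(σ * i)) - Real.exp (-(σ * (i + 1))))) U
          (𝓝 (∑ i ∈ range n, M i * (Real.exp (-(σ * i)) - Real.exp (-(σ * (i + 1)))))) := by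
        apply tendsto_finsetSum
        intro i _
        exact (hM i (by positivity)).mul_const _
      have h2 : Tendsto (fun j => V (zs j) * Real.log (zs j) / σ * Real.exp (2 * σ) * (1 + η)) U
          (𝓝 (c / σ * Real.exp (2 * σ) * (1 + η))) :=
        ((hc.div_const σ).mul_const _).mul_const _
      refine le_of_tendsto_of_tendsto h1 h2 ?_
      filter_upwards [hzT.eventually_ge_atTop z₁] with j hj
      exact (abel_pow hσ (hz2 j) n).trans (hR (zs j) hj _)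
    have h3 : Tendsto (fun η : ℝ => c / σ * Real.exp (2 * σ) * (1 + η)) (𝓝[>] 0)
        (𝓝 (c / σ * Real.exp (2 * σ) * (1 + 0))) := by
      have : Tendsto (fun η : ℝ => c / σ * Real.exp (2 * σ) * (1 + η)) (𝓝 0)
        (𝓝 (c / σ * Real.exp (2 * σ) * (1 + 0))) := by
        apply Continuous.tendsto; fun_prop
      exact this.mono_left nhdsWithin_le_nhds
    rw [add_zero, mul_one] at h3
    refine ge_of_tendsto h3 ?_
    filter_upwards [self_mem_nhdsWithin] with η hη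
    exact key η hη

end Pool.Agent.H318R2.Cr
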