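import Mathlib
import Pool.Agent.H318R2.Cr.Ultra

set_option autoImplicit false

namespace Pool.Agent.H318R2.Cr

open Filter Topology Finset

open Classical in
/-- number of integers in `(a, a+h]` without prime factor `≤ z` -/
noncomputable def cnt (z a h : ℕ) : ℕ := ((Ioc a (a + h)).filter (Rgh z)).card

theorem sum_fM_ge (z a h : ℕ) : (cnt z a h : ℝ) / (a + h : ℕ) ≤ ∑ m ∈ Ioc a (a + h), fM z m := by
  classical
  unfold cnt
  rcases Nat.eq_zero_or_pos (a + h) with h0 | hpos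
  · have : h = 0 := by omega
    subst this
    simp
  have hp : (0 : ℝ) < (a + h : ℕ) := by exact_mod_cast hpos
  calc (((Ioc a (a + h)).filter (Rgh z)).card : ℝ) / (a + h : ℕ)
      = ∑ _m ∈ (Ioc a (a + h)).filter (Rgh z), ((a + h : ℕ) : ℝ)⁻¹ := by
        rw [sum_const, nsmul_eq_mul, div_eq_mul_inv]
    _ ≤ ∑ m ∈ (Ioc a (a + h)).filter (Rgh z), (m : ℝ)⁻¹ := by
        apply sum_le_sum
        intro m hm
        rw [mem_filter, mem_Ioc] at hm
        have : (0 : ℝ) < m := by exact_mod_cast (by omega : 0 < m)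
        exact inv_anti₀ this (by exact_mod_cast hm.1.2)
    _ = ∑ m ∈ Ioc a (a + h), fM z m := by
        rw [sum_filter]
        apply sum_congr rfl
        intro m _
        rw [fM_apply]

theorem block_sum {z a h : ℕ} {c : ℝ} (hh : 1 ≤ h) (hc : 0 ≤ c) (n : ℕ)
    (H : ∀ i < n, c * h ≤ cnt z (a + i * h) h) :
    c * Real.log (((a + (n + 1) * h : ℕ) : ℝ) / ((a + h : ℕ) : ℝ)) ≤ ∑ m ∈ Ioc a (a + n * h), fM z m := by
  induction n with
  | zero =>
    have : ((a + (0 + 1) * h : ℕ) : ℝ) / ((a + h : ℕ) : ℝ) = 1 := by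
      rw [zero_add, one_mul, div_self]
      exact_mod_cast (by omega : a + h ≠ 0)
    rw [this]; simp
  | succ n ih =>
    have ih' := ih fun i hi => H i (by omega)
    have hn := H n (by omega)
    have e1 : a + (n + 1) * h = (a + n * h) + h := by ring
    have h1 : ∑ m ∈ Ioc a (a + (n + 1) * h), fM z m =
        ∑ m ∈ Ioc a (a + n * h), fM z m + ∑ m ∈ Ioc (a + n * h) (a + n * h + h), fM z m := by
      rw [e1, sum_Ioc_consecutive _ (by omega) (by omega)]
    have h2 := sum_fM_ge z (a + n * h) h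
    have hp1 : (0 : ℝ) < ((a + n * h + h : ℕ) : ℝ) := by exact_mod_cast (by omega : 0 < a + n * h + h)
    have hp2 : (0 : ℝ) < ((a + h : ℕ) : ℝ) := by exact_mod_cast (by omega : 0 < a + h)
    have hh0 : (0 : ℝ) ≤ h := by positivity
    have h3 : c * h / ((a + n * h + h : ℕ) : ℝ) ≤ (cnt z (a + n * h) h : ℝ) / ((a + n * h + h : ℕ) : ℝ) :=
      div_le_div_of_nonneg_right hn hp1.le
    have e2 : ((a + (n + 1 + 1) * h : ℕ) : ℝ) = ((a + n * h + h : ℕ) : ℝ) + h := by push_cast; ring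
    have h4 : Real.log (((a + (n + 1 + 1) * h : ℕ) : ℝ) / ((a + h : ℕ) : ℝ)) ≤
        Real.log (((a + (n + 1) * h : ℕ) : ℝ) / ((a + h : ℕ) : ℝ)) + h / ((a + n * h + h : ℕ) : ℝ) := by
      rw [e1, e2]
      have e3 : (((a + n * h + h : ℕ) : ℝ) + h) / ((a + h : ℕ) : ℝ) =
          (((a + n * h + h : ℕ) : ℝ) / ((a + h : ℕ) : ℝ)) * (1 + h / ((a + n * h + h : ℕ) : ℝ)) := by
        field_simp
      rw [e3, Real.log_mul (by positivity) (by positivity)]
      have := Real.log_le_sub_one_of_pos (show 0 < 1 + h / ((a + n * h + h : ℕ) : ℝ) by positivity)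
      linarith
    have h5 := mul_le_mul_of_nonneg_left h4 hc
    rw [h1]
    have e4 : c * (Real.log (((a + (n + 1) * h : ℕ) : ℝ) / ((a + h : ℕ) : ℝ)) + h / ((a + n * h + h : ℕ) : ℝ)) =
        c * Real.log (((a + (n + 1) * h : ℕ) : ℝ) / ((a + h : ℕ) : ℝ)) + c * h / ((a + n * h + h : ℕ) : ℝ) := by ring
    rw [e4] at h5
    linarith

theorem lowInt (U₀ : ℝ) : ∃ δ : ℝ, 0 < δ ∧ δ < 1 ∧ ∃ (K : ℝ) (z₀ : ℕ), 0 ≤ K ∧ ∀ z : ℕ, z₀ ≤ z → ∀ h : ℕ, 1 ≤ h →
    (h : ℝ) ≤ (z : ℝ) ^ U₀ → ∃ a : ℕ, (a : ℝ) ≤ (z : ℝ) ^ K ∧ (cnt z a h : ℝ) ≤ (1 - δ) * (h * V z) := by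
  obtain ⟨δ₁, hδ₁, K, z₀, hNT⟩ := NT1 (max (U₀ + 1) 1)
  have hlog : Tendsto (fun z : ℕ => Real.log z) atTop atTop :=
    Real.tendsto_log_atTop.comp tendsto_natCast_atTop_atTop
  set δ := min (δ₁ / 2) (1 / 2) with hδ
  have hδpos : 0 < δ := by positivity
  have hδ1 : δ ≤ δ₁ / 2 := min_le_left _ _
  have hδ2 : δ ≤ 1 / 2 := min_le_right _ _
  obtain ⟨z₁, hz₁⟩ := eventually_atTop.1 (hlog.eventually_gt_atTop (1 / (δ * δ₁)))
  refine ⟨δ, hδpos, by linarith, max K 0, max z₀ (max z₁ 2), le_max_right _ _, fun z hz h hh hhz => ?_⟩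
  have hzz₀ : z₀ ≤ z := (le_max_left _ _).trans hz
  have hzz₁ : z₁ ≤ z := (le_max_left _ _).trans ((le_max_right _ _).trans hz)
  have hz2 : 2 ≤ z := (le_max_right _ _).trans ((le_max_right _ _).trans hz)
  have hz0 : (0 : ℝ) < z := by positivity
  have hz1 : (1 : ℝ) ≤ z := by exact_mod_cast (by omega : 1 ≤ z)
  have hlz : 0 < Real.log z := Real.log_pos (by exact_mod_cast (by omega : 1 < z))
  obtain ⟨v₁, v₂, hv1, hv12, hv2, hMM⟩ := hNT z hzz₀
  have hv1' : U₀ + 1 ≤ v₁ := (le_max_left _ _).trans hv1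
  have hv1'' : 1 ≤ v₁ := (le_max_right _ _).trans hv1
  by_contra hcon
  push Not at hcon
  set x₁ := (z : ℝ) ^ v₁ with hx₁
  set x₂ := (z : ℝ) ^ v₂ with hx₂
  have hx₁1 : 1 ≤ x₁ := Real.one_le_rpow hz1 (by linarith)
  have hx12 : x₁ ≤ x₂ := Real.rpow_le_rpow_of_exponent_le hz1 (by linarith)
  have hx₂K : x₂ ≤ (z : ℝ) ^ (max K 0) := Real.rpow_le_rpow_of_exponent_le hz1 (hv2.trans (le_max_left _ _))
  set a := ⌊x₁⌋₊ with ha
  set b := ⌊x₂⌋₊ with hb
  have hab : a ≤ b := Nat.floor_le_floor hx12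
  set n := (b - a) / h with hn
  have hVpos := V_pos z
  have hc0 : 0 ≤ (1 - δ) * V z := mul_nonneg (by linarith) hVpos.le
  have hnh : n * h ≤ b - a := Nat.div_mul_le_self _ _
  have h1 : ∀ i < n, (1 - δ) * V z * h ≤ cnt z (a + i * h) h := by
    intro i hi
    have h2 : a + i * h ≤ b := by
      have : i * h ≤ n * h := Nat.mul_le_mul_right h hi.le
      omega
    have h3 : ((a + i * h : ℕ) : ℝ) ≤ (z : ℝ) ^ (max K 0) := by
      have h4 : ((a + i * h : ℕ) : ℝ) ≤ b := by exact_mod_cast h2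
      have h5 : (b : ℝ) ≤ x₂ := Nat.floor_le (by linarith)
      linarith
    have := hcon _ h3
    linarith
  have h2 := block_sum hh hc0 n h1
  have h3 : ∑ m ∈ Ioc a (a + n * h), fM z m ≤ MM z x₂ - MM z x₁ := by
    have e : MM z x₂ - MM z x₁ = ∑ m ∈ Ioc a b, fM z m := by
      unfold MM
      rw [← hb, ← ha, ← sum_Ioc_consecutive _ (Nat.zero_le a) hab, add_sub_cancel_left]
    rw [e]
    apply sum_le_sum_of_subset_of_nonneg
    · apply Ioc_subset_Ioc le_rfl; omega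
    · intro m _ _; exact fM_nonneg z m
  have h4 : x₂ ≤ ((a + (n + 1) * h : ℕ) : ℝ) := by
    have h5 : b - a < (n + 1) * h := by
      have := Nat.lt_succ_self n
      rw [hn]
      have := Nat.lt_mul_of_div_lt (show (b - a) / h < n + 1 by omega) (by omega : 0 < h)
      rw [hn] at this
      exact this
    have h6 : b + 1 ≤ a + (n + 1) * h := by omega
    have h7 : x₂ < (b : ℝ) + 1 := Nat.lt_floor_add_one x₂
    have h8 : ((b + 1 : ℕ) : ℝ) ≤ ((a + (n + 1) * h : ℕ) : ℝ) := by exact_mod_cast h6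
    push_cast at h8 ⊢
    linarith
  have h5 : ((a + h : ℕ) : ℝ) ≤ x₁ * (1 + 1 / z) := by
    have h6 : (a : ℝ) ≤ x₁ := Nat.floor_le (by linarith)
    have h7 : (h : ℝ) ≤ x₁ / z := by
      calc (h : ℝ) ≤ (z : ℝ) ^ U₀ := hhz
        _ ≤ (z : ℝ) ^ (v₁ - 1) := Real.rpow_le_rpow_of_exponent_le hz1 (by linarith)
        _ = x₁ / z := by rw [Real.rpow_sub hz0, Real.rpow_one]
    push_cast
    have e : x₁ * (1 + 1 / (z : ℝ)) = x₁ + x₁ / z := by ring
    linarith
  have hah : (0 : ℝ) < ((a + h : ℕ) : ℝ) := by exact_mod_cast (by omega : 0 < a + h)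
  have h6 : (v₂ - v₁) * Real.log z - 1 / z ≤ Real.log (((a + (n + 1) * h : ℕ) : ℝ) / ((a + h : ℕ) : ℝ)) := by
    have h7 : x₂ / (x₁ * (1 + 1 / z)) ≤ ((a + (n + 1) * h : ℕ) : ℝ) / ((a + h : ℕ) : ℝ) := by
      apply div_le_div₀ (by positivity) h4 hah h5
    have h8 : Real.log (x₂ / (x₁ * (1 + 1 / z))) = (v₂ - v₁) * Real.log z - Real.log (1 + 1 / z) := by
      have p1 : 0 < x₁ := by linarith
      have p2 : 0 < x₂ := by linarith
      rw [Real.log_div p2.ne' (by positivity), Real.log_mul p1.ne' (by positivity), hx₁, hx₂,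
        Real.log_rpow hz0, Real.log_rpow hz0]
      ring
    have h9 := Real.log_le_sub_one_of_pos (show 0 < 1 + 1 / (z : ℝ) by positivity)
    have h10 := Real.log_le_log (by
      have p1 : 0 < x₁ := by linarith
      have p2 : 0 < x₂ := by linarith
      positivity) h7
    linarith
  have h7 : (1 - δ) * V z * ((v₂ - v₁) * Real.log z - 1 / z) ≤ (1 - δ₁) * (V z * Real.log z) * (v₂ - v₁) := by
    have := mul_le_mul_of_nonneg_left h6 hc0
    linarith
  have h8 : (1 - δ) * ((v₂ - v₁) * Real.log z - 1 / z) ≤ (1 - δ₁) * Real.log z * (v₂ - v₁) := by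
    have e1 : (1 - δ) * V z * ((v₂ - v₁) * Real.log z - 1 / z) = V z * ((1 - δ) * ((v₂ - v₁) * Real.log z - 1 / z)) := by ring
    have e2 : (1 - δ₁) * (V z * Real.log z) * (v₂ - v₁) = V z * ((1 - δ₁) * Real.log z * (v₂ - v₁)) := by ring
    rw [e1, e2] at h7
    exact le_of_mul_le_mul_left h7 hVpos
  have h9 := hz₁ z hzz₁
  have h10 : 1 / (z : ℝ) ≤ 1 := by rw [div_le_one hz0]; exact hz1
  have h11 : δ * δ₁ * Real.log z ≤ 1 := by
    have h12 : δ * (v₂ - v₁) * Real.log z ≤ (1 - δ) * (1 / z) := by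
      have h13 : (δ₁ - δ) * ((v₂ - v₁) * Real.log z) ≤ (1 - δ) * (1 / z) := by linarith
      have h14 : δ * ((v₂ - v₁) * Real.log z) ≤ (δ₁ - δ) * ((v₂ - v₁) * Real.log z) := by
        apply mul_le_mul_of_nonneg_right (by linarith)
        exact mul_nonneg (by linarith) hlz.le
      linarith
    have h15 : δ * δ₁ * Real.log z ≤ δ * (v₂ - v₁) * Real.log z := by
      apply mul_le_mul_of_nonneg_right _ hlz.le
      apply mul_le_mul_of_nonneg_left (by linarith) hδpos.le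
    have h16 : (1 - δ) * (1 / (z : ℝ)) ≤ 1 := by
      have : 0 ≤ 1 / (z : ℝ) := by positivity
      nlinarith
    linarith
  rw [div_lt_iff₀ (by positivity)] at h9
  linarith

end Pool.Agent.H318R2.Cr
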