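import Mathlib
import Pool.Agent.H318R2.Cr.Low

set_option autoImplicit false

namespace Pool.Agent.H318R2.Cr

open Filter Topology Finset MeasureTheory ProbabilityTheory

section basics

theorem keepProb_nonneg (z : ℕ → ℕ) (n : ℕ) : 0 ≤ keepProb z n := by
  unfold keepProb
  split_ifs
  · apply le_min zero_le_one
    have h1 := V_pos (z (Nat.log 2 n))
    have h2 : 0 ≤ Real.log n := Real.log_natCast_nonneg n
    positivity
  · exact le_rfl

theorem keepProb_le_one (z : ℕ → ℕ) (n : ℕ) : keepProb z n ≤ 1 := by
  unfold keepProb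
  split_ifs
  · exact min_le_left _ _
  · exact zero_le_one

theorem V_ge' (z : ℕ) : 1 ≤ V (z + 1) * (z + 1) := by
  induction z with
  | zero =>
    have : V (0 + 1) = 1 := by
      unfold V
      apply prod_eq_one
      intro p hp
      rw [mem_Pz] at hp
      have := hp.1.two_le
      omega
    rw [this]; norm_num
  | succ z ih =>
    by_cases hp : (z + 1 + 1).Prime
    · have e : Pz (z + 1 + 1) = insert (z + 1 + 1) (Pz (z + 1)) := by
        ext p
        rw [mem_insert, mem_Pz, mem_Pz]
        constructor
        · rintro ⟨h1, h2⟩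
          by_cases h : p = z + 1 + 1
          · left; exact h
          · right; exact ⟨h1, by omega⟩
        · rintro (rfl | ⟨h1, h2⟩)
          · exact ⟨hp, le_rfl⟩
          · exact ⟨h1, by omega⟩
      have e2 : V (z + 1 + 1) = (1 - 1 / ((z + 1 + 1 : ℕ) : ℝ)) * V (z + 1) := by
        unfold V
        rw [e, prod_insert]
        rw [mem_Pz]; omega
      rw [e2]
      push_cast
      have h3 : (1 - 1 / ((z : ℝ) + 1 + 1)) * V (z + 1) * ((z : ℝ) + 1 + 1)
          = V (z + 1) * (z + 1) := by field_simp; ring
      rw [h3]
      exact ih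
    · have e : Pz (z + 1 + 1) = Pz (z + 1) := by
        ext p
        rw [mem_Pz, mem_Pz]
        constructor
        · rintro ⟨h1, h2⟩
          have : p ≠ z + 1 + 1 := by rintro rfl; exact hp h1
          exact ⟨h1, by omega⟩
        · rintro ⟨h1, h2⟩; exact ⟨h1, by omega⟩
      have e2 : V (z + 1 + 1) = V (z + 1) := by unfold V; rw [e]
      rw [e2]
      have hV := V_pos (z + 1)
      push_cast
      linarith

theorem V_ge (z : ℕ) : 1 ≤ V z * (z + 1) := by
  cases z with
  | zero =>
    have : V 0 = 1 := by unfold V Pz; simp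
    rw [this]; norm_num
  | succ z =>
    have h := V_ge' z
    have hV := V_pos (z + 1)
    push_cast
    linarith

end basics

end Pool.Agent.H318R2.Cr
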