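import Mathlib
import Pool.Agent.H318R2.Cr.Model

set_option autoImplicit false

namespace Pool.Agent.H318R2.Cr

open Filter Topology Finset MeasureTheory ProbabilityTheory

section general

variable {Ω ι : Type*} [MeasurableSpace Ω] {μ : Measure Ω}

theorem compl_inter {A : ι → Set Ω} (hi : iIndepSet A μ) (S : Finset ι) :
    μ (⋂ n ∈ S, (A n)ᶜ) = ∏ n ∈ S, μ ((A n)ᶜ) := by
  have h := (iIndepSet_iff_iIndep A μ).1 hi
  apply h.meas_biInter
  intro i _
  exact (MeasurableSpace.measurableSet_generateFrom (Set.mem_singleton _)).compl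

theorem block_indep {J : Type*} {A : ι → Set Ω} (hm : ∀ i, MeasurableSet (A i))
    (hi : iIndepSet A μ) (B : J → Finset ι)
    (hB : ∀ i j, i ≠ j → Disjoint (B i) (B j)) :
    iIndepSet (fun j => ⋂ n ∈ B j, (A n)ᶜ) μ := by
  classical
  rw [iIndepSet_iff_meas_biInter]
  · intro S
    have e : (⋂ i ∈ S, ⋂ n ∈ B i, (A n)ᶜ) = ⋂ n ∈ S.biUnion B, (A n)ᶜ := by
      ext x
      simp only [Set.mem_iInter, Finset.mem_biUnion]
      constructor
      · rintro h n ⟨i, hi, hn⟩; exact h i hi n hn
      · intro h i hi n hn; exact h n ⟨i, hi, hn⟩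
    rw [e, compl_inter hi, prod_biUnion]
    · apply prod_congr rfl
      intro j _
      rw [compl_inter hi]
    · intro i _ j _ hij
      exact hB i j hij
  · intro j
    exact Finset.measurableSet_biInter _ fun n _ => (hm n).compl

theorem real_compl_inter [IsProbabilityMeasure μ] {A : ι → Set Ω} (hi : iIndepSet A μ)
    (S : Finset ι) : μ.real (⋂ n ∈ S, (A n)ᶜ) = ∏ n ∈ S, μ.real ((A n)ᶜ) := by
  unfold Measure.real
  rw [compl_inter hi, ENNReal.toReal_prod]

/-- probability that none of `M` disjoint blocks is empty -/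
theorem no_block_empty {A : ι → Set Ω} [IsProbabilityMeasure μ] (hm : ∀ i, MeasurableSet (A i))
    (hi : iIndepSet A μ) (M : ℕ) (B : ℕ → Finset ι)
    (hB : ∀ i j, i ≠ j → Disjoint (B i) (B j)) (p : ℝ) (hp0 : 0 ≤ p)
    (hp : ∀ j < M, p ≤ μ.real (⋂ n ∈ B j, (A n)ᶜ)) :
    μ.real (⋂ j ∈ range M, (⋂ n ∈ B j, (A n)ᶜ)ᶜ) ≤ Real.exp (-(p * M)) := by
  rw [real_compl_inter (block_indep hm hi B hB)]
  calc ∏ j ∈ range M, μ.real ((⋂ n ∈ B j, (A n)ᶜ)ᶜ) ≤ ∏ _j ∈ range M, Real.exp (-p) := by
        apply Finset.prod_le_prod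
        · intro j _; exact measureReal_nonneg
        · intro j hj
          rw [mem_range] at hj
          have hms : MeasurableSet (⋂ n ∈ B j, (A n)ᶜ) :=
            Finset.measurableSet_biInter _ fun n _ => (hm n).compl
          rw [probReal_compl_eq_one_sub hms]
          have := hp j hj
          have := Real.add_one_le_exp (-p)
          linarith
    _ = Real.exp (-(p * M)) := by
        rw [prod_const, card_range, ← Real.exp_nat_mul]
        congr 1; ring

end general

end Pool.Agent.H318R2.Cr
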