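import Mathlib
import Pool.Agent.H318R2.Cr.Prob

set_option autoImplicit false

namespace Pool.Agent.H318R2.Cr

open Filter Topology Finset MeasureTheory ProbabilityTheory

theorem dvd_primorial {z p : ℕ} (hp : p.Prime) (hz : p ≤ z) : p ∣ primorial z := by
  unfold primorial
  apply dvd_prod_of_mem
  rw [mem_filter, mem_range]
  exact ⟨by omega, hp⟩

theorem Rgh_add {z n m : ℕ} (h : primorial z ∣ m) : Rgh z (n + m) ↔ Rgh z n := by
  unfold Rgh
  constructor
  · intro H p hp hz hd
    exact H p hp hz (dvd_add hd ((dvd_primorial hp hz).trans h))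
  · intro H p hp hz hd
    exact H p hp hz ((Nat.dvd_add_left ((dvd_primorial hp hz).trans h)).1 hd)

theorem cnt_add {z a h m : ℕ} (hm : primorial z ∣ m) : cnt z (a + m) h = cnt z a h := by
  classical
  unfold cnt
  symm
  apply card_bij (fun n _ => n + m)
  · intro n hn
    rw [mem_filter, mem_Ioc] at hn ⊢
    exact ⟨⟨by omega, by omega⟩, (Rgh_add hm).2 hn.2⟩
  · intro a _ b _ hab; exact Nat.add_right_cancel hab
  · intro n hn
    rw [mem_filter, mem_Ioc] at hn
    refine ⟨n - m, ?_, by omega⟩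
    rw [mem_filter, mem_Ioc]
    refine ⟨⟨by omega, by omega⟩, ?_⟩
    have e : n - m + m = n := by omega
    rw [← Rgh_add hm, e]
    exact hn.2

theorem cnt_mod {z a h : ℕ} : cnt z (a % primorial z) h = cnt z a h := by
  have e : a = a % primorial z + primorial z * (a / primorial z) := (Nat.mod_add_div a _).symm
  conv_rhs => rw [e]
  rw [cnt_add (Dvd.intro _ rfl)]

section prob

variable {Ω : Type*} [MeasurableSpace Ω] {μ : Measure Ω} [IsProbabilityMeasure μ]
variable {z : ℕ → ℕ} {A : ℕ → Set Ω}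

/-- there is an empty interval `(b, b+h]` in the dyadic block `[2^k, 2^(k+1))` -/
def Gev (A : ℕ → Set Ω) (k h : ℕ) : Set Ω :=
  {ω | ∃ b, 2 ^ k ≤ b ∧ b + h < 2 ^ (k + 1) ∧ ∀ n ∈ Ioc b (b + h), ω ∉ A n}

theorem Gev_meas (hm : ∀ n, MeasurableSet (A n)) (k h : ℕ) : MeasurableSet (Gev A k h) := by
  have e : Gev A k h = ⋃ b : ℕ, ⋃ (_ : 2 ^ k ≤ b ∧ b + h < 2 ^ (k + 1)), ⋂ n ∈ Ioc b (b + h), (A n)ᶜ := by
    ext ω
    simp only [Gev, Set.mem_ofPred_eq, Set.mem_iUnion, Set.mem_iInter, Set.mem_compl_iff,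
      exists_prop, and_assoc]
  rw [e]
  apply MeasurableSet.iUnion
  intro b
  apply MeasurableSet.iUnion
  intro _
  exact Finset.measurableSet_biInter _ fun n _ => (hm n).compl

theorem log2_of_mem {k n : ℕ} (h1 : 2 ^ k ≤ n) (h2 : n < 2 ^ (k + 1)) : Nat.log 2 n = k :=
  Nat.log_eq_of_pow_le_of_lt_pow h1 h2

omit [IsProbabilityMeasure μ] in
theorem real_prob (hA : IsSievedModel μ z A) (n : ℕ) : μ.real (A n) = keepProb z n := by
  unfold Measure.real
  rw [hA.prob, ENNReal.toReal_ofReal (keepProb_nonneg z n)]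

theorem real_prob_compl (hA : IsSievedModel μ z A) (n : ℕ) :
    μ.real ((A n)ᶜ) = 1 - keepProb z n := by
  rw [probReal_compl_eq_one_sub (hA.measurable n), real_prob hA]

theorem log_ge {k n : ℕ} (h1 : 2 ^ k ≤ n) : (k : ℝ) * Real.log 2 ≤ Real.log n := by
  rw [← Real.log_pow]
  apply Real.log_le_log (by positivity)
  exact_mod_cast h1

/-- lower bound for the probability that an interval is empty -/
theorem empty_prob (hA : IsSievedModel μ z A) {k b h : ℕ} {q : ℝ} (h1 : 2 ^ k ≤ b)
    (h2 : b + h < 2 ^ (k + 1)) (hk : 1 ≤ k) (hq : q = 1 / (V (z k) * (k * Real.log 2))) (hq2 : q ≤ 1 / 2) :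
    Real.exp (-(cnt (z k) b h * (q + 2 * q ^ 2))) ≤ μ.real (⋂ n ∈ Ioc b (b + h), (A n)ᶜ) := by
  classical
  rw [real_compl_inter hA.indep]
  have hV := V_pos (z k)
  have hl2 : 0 < Real.log 2 := Real.log_pos (by norm_num)
  have hk0 : (0 : ℝ) < k := by exact_mod_cast hk
  have hq0 : 0 ≤ q := by rw [hq]; positivity
  have key : ∀ n ∈ Ioc b (b + h), (if Rgh (z k) n then Real.exp (-q - 2 * q ^ 2) else 1) ≤
      μ.real ((A n)ᶜ) := by
    intro n hn
    rw [mem_Ioc] at hn
    rw [real_prob_compl hA]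
    unfold keepProb
    have e2 : Nat.log 2 n = k := log2_of_mem (by omega) (by omega)
    rw [e2]
    split_ifs with hr
    · have h3 : 1 / (V (z k) * Real.log n) ≤ q := by
        rw [hq]
        apply one_div_le_one_div_of_le (by positivity)
        exact mul_le_mul_of_nonneg_left (log_ge (by omega)) hV.le
      have h4 := exp_le_one_sub hq0 hq2
      have h5 := min_le_right 1 (1 / (V (z k) * Real.log n))
      linarith
    · simp
  calc Real.exp (-(cnt (z k) b h * (q + 2 * q ^ 2)))
      = ∏ n ∈ Ioc b (b + h), (if Rgh (z k) n then Real.exp (-q - 2 * q ^ 2) else 1) := by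
        rw [prod_ite, prod_const, prod_const_one, mul_one, ← Real.exp_nat_mul]
        unfold cnt
        congr 1
        ring_nf
    _ ≤ ∏ n ∈ Ioc b (b + h), μ.real ((A n)ᶜ) := by
        apply Finset.prod_le_prod
        · intro n _; split_ifs
          · exact (Real.exp_pos _).le
          · exact zero_le_one
        · exact key

end prob

end Pool.Agent.H318R2.Cr
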