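import Mathlib
import Pool.Agent.H318R2.Cr.Per

set_option autoImplicit false

namespace Pool.Agent.H318R2.Cr

open Filter Topology Finset MeasureTheory ProbabilityTheory

section prob

variable {Ω : Type*} [MeasurableSpace Ω] {μ : Measure Ω} [IsProbabilityMeasure μ]
variable {z : ℕ → ℕ} {A : ℕ → Set Ω}

theorem gap_lower (hA : IsSievedModel μ z A) {k a h : ℕ} {q c : ℝ} (hk : 1 ≤ k)
    (hQ : 16 * (primorial (z k) * (h + 1)) ≤ 2 ^ k)
    (hq : q = 1 / (V (z k) * (k * Real.log 2))) (hq2 : q ≤ 1 / 2)
    (hc : (cnt (z k) a h : ℝ) ≤ c) :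
    μ.real ((Gev A k h)ᶜ) ≤ Real.exp (-(Real.exp (-(c * (q + 2 * q ^ 2))) *
      ((2 ^ k / (8 * (primorial (z k) * (h + 1))) : ℕ) : ℝ))) := by
  classical
  set P := primorial (z k) with hP
  set Q := P * (h + 1) with hQd
  set M := 2 ^ k / (8 * Q) with hM
  have hPpos : 0 < P := primorial_pos _
  have hQpos : 0 < Q := Nat.mul_pos hPpos (by omega)
  have hPQ : P ≤ Q := Nat.le_mul_of_pos_right _ (by omega)
  have hhQ : h + 1 ≤ Q := Nat.le_mul_of_pos_left _ hPpos
  have hMQ : M * (8 * Q) ≤ 2 ^ k := Nat.div_mul_le_self _ _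
  set J := 2 ^ k / Q + 1 with hJ
  have hJ1 : 2 ^ k < J * Q := by
    rw [hJ]
    have := Nat.div_add_mod (2 ^ k) Q
    have h2 := Nat.mod_lt (2 ^ k) hQpos
    have e : (2 ^ k / Q + 1) * Q = Q * (2 ^ k / Q) + Q := by ring
    omega
  have hJ2 : J * Q ≤ 2 ^ k + Q := by
    rw [hJ, add_mul, one_mul]
    have := Nat.div_mul_le_self (2 ^ k) Q
    omega
  set a' := a % P with ha'
  have ha'P : a' < P := Nat.mod_lt _ hPpos
  let b : ℕ → ℕ := fun j => a' + (J + j) * Q
  have hb1 : ∀ j, 2 ^ k ≤ b j := by
    intro j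
    have : (J + j) * Q = J * Q + j * Q := by ring
    simp only [b]
    have := Nat.zero_le (j * Q)
    omega
  have hb2 : ∀ j < M, b j + h < 2 ^ (k + 1) := by
    intro j hj
    have e1 : (J + j) * Q = J * Q + j * Q := by ring
    have e2 : j * Q ≤ M * Q := Nat.mul_le_mul_right _ hj.le
    have e3 : M * (8 * Q) = 8 * (M * Q) := by ring
    have e4 : 2 ^ (k + 1) = 2 * 2 ^ k := by ring
    have e5 : 0 < 2 ^ k := by positivity
    simp only [b]
    omega
  have hq0 : 0 ≤ q := by
    rw [hq]
    have := V_pos (z k)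
    have hl2 : 0 < Real.log 2 := Real.log_pos (by norm_num)
    positivity
  have hcnt : ∀ j, cnt (z k) (b j) h = cnt (z k) a h := by
    intro j
    have e : P ∣ (J + j) * Q := Dvd.dvd.mul_left (Dvd.intro _ rfl) _
    simp only [b]
    rw [cnt_add e, ha', cnt_mod]
  have hsub : (Gev A k h)ᶜ ⊆ ⋂ j ∈ range M, (⋂ n ∈ Ioc (b j) (b j + h), (A n)ᶜ)ᶜ := by
    intro ω hω
    simp only [Set.mem_iInter, mem_range, Set.mem_compl_iff]
    intro j hj hE
    apply hω
    refine ⟨b j, hb1 j, hb2 j hj, ?_⟩
    intro n hn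
    have := hE n hn
    exact this
  calc μ.real ((Gev A k h)ᶜ) ≤ μ.real (⋂ j ∈ range M, (⋂ n ∈ Ioc (b j) (b j + h), (A n)ᶜ)ᶜ) :=
        measureReal_mono hsub
    _ ≤ Real.exp (-(Real.exp (-(c * (q + 2 * q ^ 2))) * M)) := by
        apply no_block_empty hA.measurable hA.indep M (fun j => Ioc (b j) (b j + h))
        · intro i j hij
          rw [Finset.disjoint_left]
          intro n hn hn2
          rw [mem_Ioc] at hn hn2
          rcases Nat.lt_or_gt_of_ne hij with hlt | hlt
          · have : (J + i + 1) * Q ≤ (J + j) * Q := Nat.mul_le_mul_right _ (by omega)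
            have e : (J + i + 1) * Q = (J + i) * Q + Q := by ring
            simp only [b] at hn hn2
            omega
          · have : (J + j + 1) * Q ≤ (J + i) * Q := Nat.mul_le_mul_right _ (by omega)
            have e : (J + j + 1) * Q = (J + j) * Q + Q := by ring
            simp only [b] at hn hn2
            omega
        · exact (Real.exp_pos _).le
        · intro j hj
          have h5 := empty_prob hA (hb1 j) (hb2 j hj) hk hq hq2
          refine le_trans ?_ h5
          apply Real.exp_le_exp.2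
          rw [hcnt]
          have : 0 ≤ q + 2 * q ^ 2 := by positivity
          have := mul_le_mul_of_nonneg_right hc this
          linarith

theorem log_primorial_le (z : ℕ) : Real.log (primorial z) ≤ z * Real.log 4 := by
  rw [← Real.log_pow]
  apply Real.log_le_log (by exact_mod_cast primorial_pos z)
  exact_mod_cast primorial_le_four_pow z

theorem small_stuff {z : ℕ → ℕ} (hz : Tendsto (fun k => (z k : ℝ) / k) atTop (𝓝 0))
    (u v w γ : ℝ) (hγ : 0 < γ) :
    ∀ᶠ k : ℕ in atTop, u * z k + v + w * Real.log k ≤ γ * k := by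
  have h1 : Tendsto (fun k : ℕ => u * ((z k : ℝ) / k) + v * (1 / (k : ℝ)) + w * (Real.log k / k)) atTop
      (𝓝 (u * 0 + v * 0 + w * 0)) := by
    apply Tendsto.add
    · apply Tendsto.add
      · exact hz.const_mul u
      · exact (tendsto_one_div_atTop_nhds_zero_nat).const_mul v
    · apply Tendsto.const_mul
      have := Real.isLittleO_log_id_atTop.tendsto_div_nhds_zero
      exact this.comp tendsto_natCast_atTop_atTop
  simp only [mul_zero, add_zero] at h1
  have h2 := h1.eventually_lt_const hγ
  filter_upwards [h2, eventually_gt_atTop 0] with k hk hk0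
  have hk0' : (0 : ℝ) < k := by exact_mod_cast hk0
  have h3 := mul_le_mul_of_nonneg_right hk.le hk0'.le
  have e : (u * ((z k : ℝ) / k) + v * (1 / (k : ℝ)) + w * (Real.log k / k)) * k =
    u * z k + v + w * Real.log k := by field_simp
  rw [e] at h3
  exact h3

theorem gap_prob (hA : IsSievedModel μ z A) (hz : Tendsto (fun k => (z k : ℝ) / k) atTop (𝓝 0))
    {β C : ℝ} (hβ0 : 0 ≤ β) (hβ : β < 1) (h a : ℕ → ℕ) (hC : 0 ≤ C)
    (hh : ∀ᶠ k in atTop, (h k : ℝ) ≤ C * k ^ 2)
    (hc : ∀ᶠ k in atTop, (cnt (z k) (a k) (h k) : ℝ) ≤ β * V (z k) * (k * Real.log 2) ^ 2) :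
    Tendsto (fun k => μ.real ((Gev A k (h k))ᶜ)) atTop (𝓝 0) := by
  have hl2 : 0 < Real.log 2 := Real.log_pos (by norm_num)
  · -- main
    -- main estimate
    have hγ : 0 < (1 - β) * Real.log 2 / 2 := by
      have : 0 < 1 - β := by linarith
      positivity
    have E1 := small_stuff hz (2 * β + Real.log 4) (2 * β + Real.log 16 + Real.log (C + 1)) 2
      ((1 - β) * Real.log 2 / 2) hγ
    have E2 := small_stuff hz (Real.log 4) (Real.log 16 + Real.log (C + 1)) 2
      (Real.log 2) hl2
    have E3 := small_stuff hz 2 2 0 (Real.log 2) hl2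
    have hbound : ∀ᶠ k : ℕ in atTop, μ.real ((Gev A k (h k))ᶜ) ≤
        Real.exp (-(Real.exp ((1 - β) * Real.log 2 / 2 * k))) := by
      filter_upwards [E1, E2, E3, hh, hc, eventually_ge_atTop 1] with k e1 e2 e3 e4 e5 hk
      have hk0 : (0 : ℝ) < k := by exact_mod_cast hk
      have hk1 : (1 : ℝ) ≤ k := by exact_mod_cast hk
      have hV := V_pos (z k)
      have hVg := V_ge (z k)
      set q := 1 / (V (z k) * (k * Real.log 2)) with hq
      set Q := primorial (z k) * (h k + 1) with hQ
      have hPpos : 0 < primorial (z k) := primorial_pos _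
      have hQpos : 0 < Q := Nat.mul_pos hPpos (by omega)
      have hQR : (0 : ℝ) < Q := by exact_mod_cast hQpos
      have hC1 : 0 < C + 1 := by linarith
      have hlogh : Real.log ((h k + 1 : ℕ) : ℝ) ≤ Real.log (C + 1) + 2 * Real.log k := by
        have : ((h k + 1 : ℕ) : ℝ) ≤ (C + 1) * (k : ℝ) ^ 2 := by
          push_cast
          have : (1 : ℝ) ≤ (k : ℝ) ^ 2 := one_le_pow₀ hk1
          nlinarith
        calc Real.log ((h k + 1 : ℕ) : ℝ) ≤ Real.log ((C + 1) * (k : ℝ) ^ 2) :=
              Real.log_le_log (by positivity) this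
          _ = Real.log (C + 1) + 2 * Real.log k := by
              rw [Real.log_mul (by positivity) (by positivity), Real.log_pow]; push_cast; ring
      have hlogQ : Real.log Q ≤ z k * Real.log 4 + (Real.log (C + 1) + 2 * Real.log k) := by
        rw [hQ]
        push_cast
        rw [Real.log_mul (by positivity) (by positivity)]
        have := log_primorial_le (z k)
        push_cast at hlogh
        linarith
      -- 16 Q ≤ 2^k
      have h16 : 16 * Q ≤ 2 ^ k := by
        have : Real.log (16 * Q) ≤ Real.log (2 ^ k) := by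
          rw [Real.log_mul (by norm_num) (by positivity), Real.log_pow]
          linarith
        have := (Real.log_le_log_iff (by positivity) (by positivity)).1 this
        exact_mod_cast this
      -- q ≤ 1/2
      have hq2 : q ≤ 1 / 2 := by
        rw [hq]
        apply one_div_le_one_div_of_le (by norm_num)
        have h1 : (2 : ℝ) * (z k + 1) ≤ Real.log 2 * k := by linarith
        have h2 : (0 : ℝ) < z k + 1 := by positivity
        have h3 : V (z k) * (2 * (z k + 1)) ≤ V (z k) * (Real.log 2 * k) :=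
          mul_le_mul_of_nonneg_left h1 hV.le
        nlinarith
      have hmain := gap_lower hA (a := a k) hk h16 hq hq2 e5
      refine hmain.trans ?_
      apply Real.exp_le_exp.2
      apply neg_le_neg
      -- lower bound for M
      have hM : (2 : ℝ) ^ k / (16 * Q) ≤ ((2 ^ k / (8 * Q) : ℕ) : ℝ) := by
        have h8 : 0 < 8 * Q := by omega
        have h1 : 2 ^ k < (2 ^ k / (8 * Q) + 1) * (8 * Q) := by
          have := Nat.div_add_mod (2 ^ k) (8 * Q)
          have h2 := Nat.mod_lt (2 ^ k) h8
          have e : (2 ^ k / (8 * Q) + 1) * (8 * Q) = 8 * Q * (2 ^ k / (8 * Q)) + 8 * Q := by ring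
          omega
        have h3 : 1 ≤ 2 ^ k / (8 * Q) := by
          rw [Nat.le_div_iff_mul_le h8]; omega
        have h4 : (2 ^ k : ℕ) < (2 * (2 ^ k / (8 * Q))) * (8 * Q) :=
          lt_of_lt_of_le h1 (Nat.mul_le_mul_right _ (by omega))
        have h5 : ((2 : ℝ) ^ k) < (2 * ((2 ^ k / (8 * Q) : ℕ) : ℝ)) * (8 * Q) := by exact_mod_cast h4
        rw [div_le_iff₀ (by positivity)]
        nlinarith
      have hlow : Real.exp (k * Real.log 2 - Real.log 16 - Real.log Q) ≤ ((2 ^ k / (8 * Q) : ℕ) : ℝ) := by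
        refine le_trans (le_of_eq ?_) hM
        rw [sub_sub, Real.exp_sub, ← Real.log_mul (by norm_num) (by positivity),
          Real.exp_log (by positivity), ← Real.log_pow, Real.exp_log (by positivity)]
      have hexp : β * V (z k) * (k * Real.log 2) ^ 2 * (q + 2 * q ^ 2) ≤
          β * (k * Real.log 2) + 2 * β * (z k + 1) := by
        have e : β * V (z k) * (k * Real.log 2) ^ 2 * (q + 2 * q ^ 2) =
          β * (k * Real.log 2) + 2 * β * (1 / V (z k)) := by
          rw [hq]; field_simp
        rw [e]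
        have : 1 / V (z k) ≤ z k + 1 := by
          rw [div_le_iff₀ hV]; linarith
        have := mul_le_mul_of_nonneg_left this (by positivity : 0 ≤ 2 * β)
        linarith
      calc Real.exp ((1 - β) * Real.log 2 / 2 * k)
          ≤ Real.exp (-(β * V (z k) * (k * Real.log 2) ^ 2 * (q + 2 * q ^ 2)) +
            (k * Real.log 2 - Real.log 16 - Real.log Q)) := by
            apply Real.exp_le_exp.2
            have : (1 - β) * Real.log 2 / 2 * k + (1 - β) * Real.log 2 / 2 * k =
              k * Real.log 2 - β * (k * Real.log 2) := by ring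
            linarith
        _ = Real.exp (-(β * V (z k) * (k * Real.log 2) ^ 2 * (q + 2 * q ^ 2))) *
            Real.exp (k * Real.log 2 - Real.log 16 - Real.log Q) := Real.exp_add _ _
        _ ≤ _ := mul_le_mul_of_nonneg_left hlow (Real.exp_pos _).le
    have hlim : Tendsto (fun k : ℕ => Real.exp (-(Real.exp ((1 - β) * Real.log 2 / 2 * k)))) atTop (𝓝 0) := by
      apply Real.tendsto_exp_neg_atTop_nhds_zero.comp
      apply Real.tendsto_exp_atTop.comp
      exact Tendsto.const_mul_atTop hγ tendsto_natCast_atTop_atTop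
    exact squeeze_zero' (Eventually.of_forall fun _ => measureReal_nonneg) hbound hlim

/-- if `μ (G k) → 1` then almost surely infinitely many `G k` occur -/
theorem freq_of_tendsto {G : ℕ → Set Ω} (h : Tendsto (fun k => μ.real ((G k)ᶜ)) atTop (𝓝 0)) :
    ∀ᵐ ω ∂μ, ∃ᶠ k in atTop, ω ∈ G k := by
  have h1 : ∀ K : ℕ, ∀ᵐ ω ∂μ, ∃ k ≥ K, ω ∈ G k := by
    intro K
    have h2 : ∀ k ≥ K, μ {ω | ¬ ∃ k ≥ K, ω ∈ G k} ≤ μ ((G k)ᶜ) := by
      intro k hk
      apply measure_mono
      intro ω hω hG
      exact hω ⟨k, hk, hG⟩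
    have h3 : Tendsto (fun k => μ ((G k)ᶜ)) atTop (𝓝 0) := by
      have h4 := (ENNReal.continuous_ofReal.tendsto 0).comp h
      rw [ENNReal.ofReal_zero] at h4
      refine h4.congr fun k => ?_
      simp only [Function.comp, Measure.real]
      rw [ENNReal.ofReal_toReal (measure_ne_top _ _)]
    rw [ae_iff]
    refine le_antisymm ?_ zero_le
    exact ge_of_tendsto h3 (by filter_upwards [eventually_ge_atTop K] with k hk using h2 k hk)
  rw [← ae_all_iff] at h1
  filter_upwards [h1] with ω hω
  rw [frequently_atTop]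
  exact hω

end prob

end Pool.Agent.H318R2.Cr
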