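import Mathlib
import Pool.Agent.H318R2.Cr.Gap

set_option autoImplicit false

namespace Pool.Agent.H318R2.Cr

open Filter Topology Finset MeasureTheory ProbabilityTheory

theorem ev_sq {a b c L : ℝ} (hac : a < c) (hL : 0 < L) :
    ∀ᶠ k : ℕ in atTop, a * (((k : ℝ) + 1) * L) ^ 2 + b ≤ c * (k * L) ^ 2 := by
  have hca : 0 < (c - a) * L ^ 2 := mul_pos (by linarith) (by positivity)
  filter_upwards [eventually_ge_atTop ⌈(3 * |a| * L ^ 2 + |b|) / ((c - a) * L ^ 2)⌉₊,
    eventually_ge_atTop 1] with k hk hk1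
  have h1 : (3 * |a| * L ^ 2 + |b|) / ((c - a) * L ^ 2) ≤ k := (Nat.le_ceil _).trans (by exact_mod_cast hk)
  rw [div_le_iff₀ hca] at h1
  have hk1' : (1 : ℝ) ≤ k := by exact_mod_cast hk1
  have hk0 : (0 : ℝ) ≤ k := by linarith
  have h2 := mul_le_mul_of_nonneg_right h1 hk0
  have h3 : a * L ^ 2 * (2 * k + 1) ≤ 3 * |a| * L ^ 2 * k := by
    have h4 : a ≤ |a| := le_abs_self a
    have h5 : 0 ≤ |a| := abs_nonneg a
    have h6 : a * (L ^ 2 * (2 * k + 1)) ≤ |a| * (L ^ 2 * (2 * k + 1)) :=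
      mul_le_mul_of_nonneg_right h4 (by positivity)
    have h7 : |a| * (L ^ 2 * (2 * k + 1)) ≤ |a| * (L ^ 2 * (3 * k)) := by
      apply mul_le_mul_of_nonneg_left _ h5
      apply mul_le_mul_of_nonneg_left _ (by positivity)
      linarith
    linarith
  have h8 : b ≤ |b| * k := by
    have := le_abs_self b
    have := abs_nonneg b
    nlinarith
  nlinarith

theorem block_ge {z : ℕ → ℕ} (hz : Tendsto (fun k => (z k : ℝ) / k) atTop (𝓝 0)) :
    ∀ᶠ k : ℕ in atTop, 1 ≤ ∑ n ∈ Ico (2 ^ k) (2 ^ (k + 1)), keepProb z n := by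
  classical
  have hl2 : 0 < Real.log 2 := Real.log_pos (by norm_num)
  have E := small_stuff hz (Real.log 4) (Real.log 3 + Real.log 2) 1 (Real.log 2) hl2
  filter_upwards [E, eventually_ge_atTop 1] with k e1 hk1
  set P := primorial (z k) with hP
  have hPpos : 0 < P := primorial_pos _
  have hk0 : (0 : ℝ) < k := by exact_mod_cast hk1
  have hPR : (0 : ℝ) < P := by exact_mod_cast hPpos
  have hbig : P * (k + 2) < 2 ^ k := by
    have h1 : Real.log (2 * (P * (3 * k))) ≤ Real.log (2 ^ k) := by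
      rw [Real.log_mul (by norm_num) (by positivity), Real.log_mul (by positivity) (by positivity),
        Real.log_mul (by norm_num) (by positivity), Real.log_pow]
      have := log_primorial_le (z k)
      rw [← hP] at this
      linarith
    have h2 := (Real.log_le_log_iff (by positivity) (by positivity)).1 h1
    have h3 : (2 * (P * (3 * k)) : ℕ) ≤ 2 ^ k := by exact_mod_cast h2
    have h4 : P * (k + 2) ≤ P * (3 * k) := Nat.mul_le_mul_left _ (by omega)
    have h5 : 0 < P * (3 * k) := Nat.mul_pos hPpos (by omega)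
    omega
  set J := 2 ^ k / P + 1 with hJ
  have hJ1 : 2 ^ k < J * P := by
    rw [hJ]
    have := Nat.div_add_mod (2 ^ k) P
    have h2 := Nat.mod_lt (2 ^ k) hPpos
    have e : (2 ^ k / P + 1) * P = P * (2 ^ k / P) + P := by ring
    omega
  have hJ2 : J * P ≤ 2 ^ k + P := by
    rw [hJ, add_mul, one_mul]
    have := Nat.div_mul_le_self (2 ^ k) P
    omega
  have hmem : ∀ t ∈ range (k + 1), 1 + (J + t) * P ∈ Ico (2 ^ k) (2 ^ (k + 1)) := by
    intro t ht
    rw [mem_range] at ht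
    rw [mem_Ico]
    have e1 : (J + t) * P = J * P + t * P := by ring
    have e2 : t * P ≤ k * P := Nat.mul_le_mul_right _ (by omega)
    have e3 : P * (k + 2) = k * P + P + P := by ring
    have e4 : 2 ^ (k + 1) = 2 * 2 ^ k := by ring
    omega
  have hval : ∀ t ∈ range (k + 1), 1 / ((k : ℝ) + 1) ≤ keepProb z (1 + (J + t) * P) := by
    intro t ht
    have hm := hmem t ht
    rw [mem_Ico] at hm
    have e2 : Nat.log 2 (1 + (J + t) * P) = k := log2_of_mem hm.1 hm.2
    unfold keepProb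
    rw [e2, if_pos ((Rgh_add (Dvd.intro_left _ rfl)).2 Rgh_one)]
    have hV := V_pos (z k)
    have hV1 := V_le_one (z k)
    have hlog1 : 0 < Real.log ((1 + (J + t) * P : ℕ) : ℝ) := by
      apply Real.log_pos
      have : 2 ^ 1 ≤ 2 ^ k := Nat.pow_le_pow_right (by norm_num) hk1
      exact_mod_cast (by omega : 1 < 1 + (J + t) * P)
    have hlog2 : Real.log ((1 + (J + t) * P : ℕ) : ℝ) ≤ (k : ℝ) + 1 := by
      have h1 : Real.log ((1 + (J + t) * P : ℕ) : ℝ) ≤ Real.log ((2 : ℝ) ^ (k + 1)) := by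
        apply Real.log_le_log
        · exact_mod_cast (by omega : 0 < 1 + (J + t) * P)
        · exact_mod_cast hm.2.le
      rw [Real.log_pow] at h1
      have h2 : Real.log 2 ≤ 1 := by
        have := Real.log_two_lt_d9; linarith
      push_cast at h1 ⊢
      have : ((k : ℝ) + 1) * Real.log 2 ≤ ((k : ℝ) + 1) * 1 :=
        mul_le_mul_of_nonneg_left h2 (by positivity)
      linarith
    apply le_min
    · rw [div_le_one (by positivity)]; linarith
    · apply one_div_le_one_div_of_le (by positivity)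
      calc V (z k) * Real.log ((1 + (J + t) * P : ℕ) : ℝ)
          ≤ 1 * Real.log ((1 + (J + t) * P : ℕ) : ℝ) := mul_le_mul_of_nonneg_right hV1 hlog1.le
        _ ≤ (k : ℝ) + 1 := by rw [one_mul]; exact hlog2
  have hinj : Set.InjOn (fun t => 1 + (J + t) * P) (range (k + 1)) := by
    intro s _ t _ hst
    simp only at hst
    have h1 : (J + s) * P = (J + t) * P := by omega
    have := Nat.eq_of_mul_eq_mul_right hPpos h1
    omega
  calc (1 : ℝ) = ∑ _t ∈ range (k + 1), 1 / ((k : ℝ) + 1) := by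
        rw [sum_const, card_range, nsmul_eq_mul]
        push_cast
        field_simp
    _ ≤ ∑ t ∈ range (k + 1), keepProb z (1 + (J + t) * P) := sum_le_sum hval
    _ = ∑ n ∈ (range (k + 1)).image (fun t => 1 + (J + t) * P), keepProb z n := by
        rw [sum_image hinj]
    _ ≤ ∑ n ∈ Ico (2 ^ k) (2 ^ (k + 1)), keepProb z n := by
        apply sum_le_sum_of_subset_of_nonneg
        · intro n hn
          rw [mem_image] at hn
          obtain ⟨t, ht, rfl⟩ := hn
          exact hmem t ht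
        · intro n _ _; exact keepProb_nonneg z n

theorem not_summable {z : ℕ → ℕ} (hz : Tendsto (fun k => (z k : ℝ) / k) atTop (𝓝 0)) :
    ¬ Summable (keepProb z) := by
  intro hs
  rw [summable_iff_vanishing_norm] at hs
  obtain ⟨s, hs⟩ := hs 1 one_pos
  obtain ⟨N, hN⟩ := s.exists_nat_subset_range
  obtain ⟨k, hk1, hk2⟩ := ((block_ge hz).and (eventually_ge_atTop N)).exists
  have hd : Disjoint (Ico (2 ^ k) (2 ^ (k + 1))) s := by
    rw [Finset.disjoint_left]
    intro n hn hns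
    rw [mem_Ico] at hn
    have := mem_range.1 (hN hns)
    have h3 : k < 2 ^ k := Nat.lt_two_pow_self
    omega
  have h4 := hs _ hd
  rw [Real.norm_eq_abs, abs_of_nonneg (sum_nonneg fun n _ => keepProb_nonneg z n)] at h4
  linarith

section prob

variable {Ω : Type*} [MeasurableSpace Ω] {μ : Measure Ω} [IsProbabilityMeasure μ]
variable {z : ℕ → ℕ} {A : ℕ → Set Ω}

theorem infinite_ae (hA : IsSievedModel μ z A)
    (hz : Tendsto (fun k => (z k : ℝ) / k) atTop (𝓝 0)) :
    ∀ᵐ ω ∂μ, {n | ω ∈ A n}.Infinite := by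
  have h1 : (∑' n, μ (A n)) = ⊤ := by
    by_contra hne
    apply not_summable hz
    have h2 := ENNReal.summable_toReal hne
    refine h2.congr fun n => ?_
    rw [hA.prob, ENNReal.toReal_ofReal (keepProb_nonneg z n)]
  have h3 := measure_limsup_eq_one hA.measurable hA.indep h1
  have h4 : ∀ᵐ ω ∂μ, ω ∈ limsup A atTop := by
    rw [← prob_compl_eq_zero_iff] at h3
    · exact h3
    · exact MeasurableSet.measurableSet_limsup hA.measurable
  filter_upwards [h4] with ω hω
  rw [mem_limsup_iff_frequently_mem] at hω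
  exact Nat.frequently_atTop_iff_infinite.1 hω

end prob

theorem limsup_ge {S : Set ℕ} (hS : S.Infinite) {c : ℝ} (hc0 : 0 ≤ c) {h : ℕ → ℕ}
    (hh : ∀ k : ℕ, c * (((k : ℝ) + 1) * Real.log 2) ^ 2 ≤ h k)
    (hf : ∃ᶠ k in atTop, ∃ b, 2 ^ k ≤ b ∧ b + h k < 2 ^ (k + 1) ∧ ∀ n ∈ Ioc b (b + h k), n ∉ S) :
    (c : EReal) ≤ cramerLimsup S := by
  classical
  have hinf : (Set.ofPred (· ∈ S)).Infinite := hS
  unfold cramerLimsup
  apply le_limsup_of_frequently_le'
  rw [frequently_atTop] at hf ⊢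
  intro N
  obtain ⟨k, hk, b, hb1, hb2, hb3⟩ := hf (Nat.nth (· ∈ S) (N + 2 + 1) + 1)
  have hsm := Nat.nth_strictMono hinf
  have hkb : Nat.nth (· ∈ S) (N + 2 + 1) < b + 1 := by
    have : k < 2 ^ k := Nat.lt_two_pow_self
    omega
  have hcnt : N + 2 + 1 < Nat.count (· ∈ S) (b + 1) := (Nat.lt_nth_iff_count_lt hinf).2 hkb
  obtain ⟨m, hm⟩ : ∃ m, Nat.count (· ∈ S) (b + 1) = m + 1 := ⟨Nat.count (· ∈ S) (b + 1) - 1, by omega⟩
  refine ⟨m, by omega, ?_⟩
  have h1 : Nat.nth (· ∈ S) m < b + 1 := (Nat.lt_nth_iff_count_lt hinf).1 (by omega)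
  have h2 : b + 1 ≤ Nat.nth (· ∈ S) (m + 1) := by
    by_contra hcon
    push Not at hcon
    have := (Nat.lt_nth_iff_count_lt hinf).2 hcon
    omega
  have h3 : Nat.nth (· ∈ S) (m + 1) ∈ S := Nat.nth_mem_of_infinite hinf _
  have h4 : b + h k < Nat.nth (· ∈ S) (m + 1) := by
    by_contra hcon
    push Not at hcon
    exact hb3 _ (mem_Ioc.2 ⟨by omega, hcon⟩) h3
  have h5 : m ≤ Nat.nth (· ∈ S) m := hsm.le_apply
  set x := Nat.nth (· ∈ S) m with hx
  set y := Nat.nth (· ∈ S) (m + 1) with hy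
  have hx2 : 2 ≤ x := by omega
  have hlx : 0 < Real.log x := Real.log_pos (by exact_mod_cast (by omega : 1 < x))
  have hlx2 : Real.log x ≤ ((k : ℝ) + 1) * Real.log 2 := by
    have : Real.log x ≤ Real.log ((2 : ℝ) ^ (k + 1)) := by
      apply Real.log_le_log (by exact_mod_cast (by omega : 0 < x))
      exact_mod_cast (by omega : x ≤ 2 ^ (k + 1))
    rw [Real.log_pow] at this
    push_cast at this
    exact this
  rw [EReal.coe_le_coe_iff]
  rw [le_div_iff₀ (by positivity)]
  have h6 : Real.log x ^ 2 ≤ (((k : ℝ) + 1) * Real.log 2) ^ 2 := by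
    apply pow_le_pow_left₀ hlx.le hlx2
  have h7 : (h k : ℝ) ≤ (y : ℝ) - x := by
    have : h k + x ≤ y := by omega
    have : ((h k + x : ℕ) : ℝ) ≤ y := by exact_mod_cast this
    push_cast at this
    linarith
  have h8 := mul_le_mul_of_nonneg_left h6 hc0
  have h9 := hh k
  linarith

end Pool.Agent.H318R2.Cr
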