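import Mathlib
import Pool.Agent.H318R2.Cr.FL2
import Pool.Agent.H318R2.Cr.Fin

set_option autoImplicit false

namespace Pool.Agent.H318R2.Cr

open Filter Topology Finset BoundingSieve Pool.Agent.Helper923.PPS

open Classical in
theorem cnt_eq (z a h : ℕ) : cnt z a h = ((range h).filter (fun i => Rgh z (a + i + 1))).card := by
  unfold cnt
  symm
  apply card_bij (fun i _ => a + i + 1)
  · intro i hi
    rw [mem_filter, mem_range] at hi
    rw [mem_filter, mem_Ioc]
    exact ⟨⟨by omega, by omega⟩, hi.2⟩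
  · intro i _ j _ hij; omega
  · intro n hn
    rw [mem_filter, mem_Ioc] at hn
    refine ⟨n - a - 1, ?_, by omega⟩
    rw [mem_filter, mem_range]
    refine ⟨by omega, ?_⟩
    have : a + (n - a - 1) + 1 = n := by omega
    rw [this]; exact hn.2

open Classical in
theorem rgh_le_sifted {a q N z : ℕ} (hq : 0 < q) :
    (((range N).filter (fun k => Rgh z (a + k * q))).card : ℝ) ≤ (apSieve a q N z).siftedSum := by
  have hinj : ∀ x ∈ Finset.range N, ∀ y ∈ Finset.range N,
      (fun k => a + k * q) x = (fun k => a + k * q) y → x = y := by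
    intro x _ y _ hxy
    simp only at hxy
    have : x * q = y * q := by omega
    exact Nat.eq_of_mul_eq_mul_right hq this
  have e : (apSieve a q N z).siftedSum =
      (((Finset.range N).filter (fun k => Nat.Coprime (PP q z) (a + k * q))).card : ℝ) := by
    unfold BoundingSieve.siftedSum
    have h0 : (apSieve a q N z).support = (Finset.range N).image (fun k => a + k * q) := rfl
    rw [h0, Finset.sum_image hinj, Finset.card_filter]
    push_cast
    apply Finset.sum_congr rfl
    intro k _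
    have h : (apSieve a q N z).prodPrimes = PP q z := rfl
    have h' : (apSieve a q N z).weights (a + k * q) = 1 := rfl
    by_cases hc : Nat.Coprime (PP q z) (a + k * q)
    · rw [if_pos hc, if_pos (by rw [h]; exact hc), h']
    · rw [if_neg hc, if_neg (by rw [h]; exact hc)]
  rw [e]
  have : (Finset.range N).filter (fun k => Rgh z (a + k * q)) ⊆
      (Finset.range N).filter (fun k => Nat.Coprime (PP q z) (a + k * q)) := by
    intro k hk
    rw [Finset.mem_filter] at hk ⊢
    refine ⟨hk.1, ?_⟩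
    by_contra hc
    obtain ⟨p, hp, hp1, hp2⟩ := Nat.Prime.not_coprime_iff_dvd.mp hc
    exact hk.2 p hp ((prime_dvd_PP hp).mp hp1).1 hp2
  exact_mod_cast Finset.card_le_card this

theorem Rgh_mono {z' z n : ℕ} (h : z' ≤ z) (hr : Rgh z n) : Rgh z' n :=
  fun p hp hz => hr p hp (hz.trans h)

/-- averaging over the blocks of a progression -/
theorem sum_cnt {z' z a J M Q h : ℕ} {B : ℝ} (hz : z' ≤ z) (hQ : primorial z' ∣ Q) (hQ0 : 0 < Q)
    (hB : ∀ b : ℕ, (apSieve b Q M z).siftedSum ≤ B) :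
    ∑ j ∈ range M, (cnt z (a + (J + j) * Q) h : ℝ) ≤ cnt z' a h * B := by
  classical
  have e1 : ∀ j ∈ range M, (cnt z (a + (J + j) * Q) h : ℝ) =
      ∑ i ∈ range h, if Rgh z (a + (J + j) * Q + i + 1) then (1 : ℝ) else 0 := by
    intro j _
    rw [cnt_eq, card_filter]; push_cast; rfl
  rw [sum_congr rfl e1, sum_comm, cnt_eq, card_filter]
  push_cast
  rw [sum_mul]
  apply sum_le_sum
  intro i _
  by_cases hr : Rgh z' (a + i + 1)
  · rw [if_pos hr, one_mul]
    refine le_trans (le_of_eq ?_) ((rgh_le_sifted (a := a + i + 1 + J * Q) (N := M) (z := z) hQ0).trans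
      (hB _))
    rw [card_filter]
    push_cast
    apply sum_congr rfl
    intro j _
    have : a + (J + j) * Q + i + 1 = a + i + 1 + J * Q + j * Q := by ring
    rw [this]
  · rw [if_neg hr, zero_mul]
    apply le_of_eq
    apply sum_eq_zero
    intro j _
    rw [if_neg]
    intro hr2
    apply hr
    have h3 := Rgh_mono hz hr2
    have e : a + (J + j) * Q + i + 1 = a + i + 1 + (J + j) * Q := by ring
    rw [e, Rgh_add (Dvd.dvd.mul_left hQ _)] at h3
    exact h3

theorem V_mul_Vq {z' z Q : ℕ} (hz : z' ≤ z) (hQ : ∀ p : ℕ, p.Prime → (p ∣ Q ↔ p ≤ z')) :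
    V z' * Vq Q z = V z := by
  classical
  unfold V Vq
  rw [← prod_union]
  · apply prod_congr _ (fun _ _ => rfl)
    ext p
    rw [mem_union, mem_Pz, mem_Pz, mem_PQ]
    constructor
    · rintro (⟨h1, h2⟩ | ⟨h1, h2, _⟩)
      · exact ⟨h1, h2.trans hz⟩
      · exact ⟨h1, h2⟩
    · rintro ⟨h1, h2⟩
      by_cases h3 : p ≤ z'
      · left; exact ⟨h1, h3⟩
      · right; exact ⟨h1, h2, fun h4 => h3 ((hQ p h1).1 h4)⟩
  · rw [Finset.disjoint_left]
    intro p h1 h2
    rw [mem_Pz] at h1
    rw [mem_PQ] at h2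
    exact h2.2.2 ((hQ p h1.1).2 h1.2)

/-- many blocks with few rough numbers -/
theorem good_blocks {z' z a J M Q h : ℕ} {β D ε B : ℝ} (hz : z' ≤ z) (hQ : primorial z' ∣ Q)
    (hQ0 : 0 < Q) (hβ0 : 0 < β) (hβ : β < 1) (hD : 0 < D) (hε : ε = (1 - β) / 4)
    (hQp : ∀ p : ℕ, p.Prime → (p ∣ Q ↔ p ≤ z'))
    (hcnt : (cnt z' a h : ℝ) ≤ β * V z' * D)
    (hB : ∀ b : ℕ, (apSieve b Q M z).siftedSum ≤ B) (hB2 : B ≤ M * Vq Q z * (1 + ε)) :
    ∃ T : Finset ℕ, T ⊆ range M ∧ ε * M ≤ T.card ∧
      ∀ j ∈ T, (cnt z (a + (J + j) * Q) h : ℝ) ≤ (1 + β) / 2 * V z * D := by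
  classical
  have hsum := sum_cnt (a := a) (J := J) (h := h) hz hQ hQ0 hB
  have hV := V_pos z
  have hV' := V_pos z'
  have hVq := Vq_pos Q z
  have hVV := V_mul_Vq hz hQp
  have hε0 : 0 < ε := by rw [hε]; linarith
  have hM0 : (0 : ℝ) ≤ M := by positivity
  have hX : ∑ j ∈ range M, (cnt z (a + (J + j) * Q) h : ℝ) ≤ β * V z * D * M * (1 + ε) := by
    calc ∑ j ∈ range M, (cnt z (a + (J + j) * Q) h : ℝ) ≤ cnt z' a h * B := hsum
      _ ≤ cnt z' a h * (M * Vq Q z * (1 + ε)) := mul_le_mul_of_nonneg_left hB2 (by positivity)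
      _ ≤ (β * V z' * D) * (M * Vq Q z * (1 + ε)) :=
          mul_le_mul_of_nonneg_right hcnt (by positivity)
      _ = β * V z * D * M * (1 + ε) := by rw [← hVV]; ring
  refine ⟨(range M).filter (fun j => (cnt z (a + (J + j) * Q) h : ℝ) ≤ (1 + β) / 2 * V z * D),
    filter_subset _ _, ?_, fun j hj => (mem_filter.1 hj).2⟩
  set T := (range M).filter (fun j => (cnt z (a + (J + j) * Q) h : ℝ) ≤ (1 + β) / 2 * V z * D) with hT
  set T' := (range M).filter (fun j => ¬ (cnt z (a + (J + j) * Q) h : ℝ) ≤ (1 + β) / 2 * V z * D) with hT'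
  have hcard : (T.card : ℝ) + T'.card = M := by
    have := card_filter_add_card_filter_not (s := range M)
      (fun j => (cnt z (a + (J + j) * Q) h : ℝ) ≤ (1 + β) / 2 * V z * D)
    rw [card_range] at this
    exact_mod_cast this
  have hbad : (T'.card : ℝ) * ((1 + β) / 2 * V z * D) ≤ β * V z * D * M * (1 + ε) := by
    refine le_trans ?_ hX
    calc (T'.card : ℝ) * ((1 + β) / 2 * V z * D) = ∑ _j ∈ T', (1 + β) / 2 * V z * D := by
          rw [sum_const, nsmul_eq_mul]
      _ ≤ ∑ j ∈ T', (cnt z (a + (J + j) * Q) h : ℝ) := by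
          apply sum_le_sum
          intro j hj
          exact (not_le.1 (mem_filter.1 hj).2).le
      _ ≤ _ := by
          apply sum_le_sum_of_subset_of_nonneg (filter_subset _ _)
          intro _ _ _; positivity
  have hVD : 0 < V z * D := by positivity
  have hbad2 : (T'.card : ℝ) * ((1 + β) / 2) ≤ β * M * (1 + ε) := by
    have h1 : ((T'.card : ℝ) * ((1 + β) / 2)) * (V z * D) ≤ (β * M * (1 + ε)) * (V z * D) := by
      linarith
    exact le_of_mul_le_mul_right h1 hVD
  -- want T' ≤ (1 - ε) M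
  have hbad3 : (T'.card : ℝ) ≤ (1 - ε) * M := by
    by_contra hcon
    push Not at hcon
    have h1 : (1 - ε) * M * ((1 + β) / 2) < β * M * (1 + ε) ∨ (M : ℝ) = 0 := by
      left
      have : (1 - ε) * M * ((1 + β) / 2) < (T'.card : ℝ) * ((1 + β) / 2) :=
        mul_lt_mul_of_pos_right hcon (by linarith)
      linarith
    rcases h1 with h1 | h1
    · have h2 : β * (1 + ε) ≤ (1 - ε) * ((1 + β) / 2) := by
        rw [hε]; nlinarith
      have h3 := mul_le_mul_of_nonneg_right h2 hM0
      linarith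
    · have : (T'.card : ℝ) ≤ 0 := by
        have : (0 : ℝ) ≤ T.card := by positivity
        linarith
      rw [h1, mul_zero] at hcon
      linarith
  linarith

end Pool.Agent.H318R2.Cr
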