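import Mathlib
import Pool.Agent.H318R2.Cr.AP

set_option autoImplicit false

namespace Pool.Agent.H318R2.Cr

open Finset BoundingSieve Pool.Agent.Helper923.PPS

theorem Vq_one (z : ℕ) : Vq 1 z = V z := by
  unfold Vq V
  apply prod_congr _ (fun _ _ => rfl)
  ext p
  rw [mem_PQ, mem_Pz]
  constructor
  · rintro ⟨h1, h2, _⟩; exact ⟨h1, h2⟩
  · rintro ⟨h1, h2⟩; exact ⟨h1, h2, h1.one_lt.ne' ∘ Nat.dvd_one.1⟩

theorem cnt_le (z a h : ℕ) : cnt z a h ≤ h := by
  classical
  rw [cnt_eq]
  exact (card_filter_le _ _).trans (by rw [card_range])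

theorem cnt_upper : ∃ C U : ℝ, 0 ≤ C ∧ 1 ≤ U ∧ ∀ a N z : ℕ, 2 ≤ z → 1 ≤ N →
    U * Real.log z ≤ Real.log N →
    (cnt z a N : ℝ) ≤ N * V z * (1 + C * (Real.log z / Real.log N) ^ 2) := by
  classical
  obtain ⟨C, U, hC, hU, h⟩ := FL_upper
  refine ⟨C, U, hC, hU, fun a N z hz hN hzN => ?_⟩
  have h1 := h (a + 1) 1 N z one_pos hz hN hzN
  rw [Vq_one] at h1
  refine le_trans ?_ h1
  refine le_trans ?_ (rgh_le_sifted (a := a + 1) (q := 1) (N := N) (z := z) one_pos)
  rw [cnt_eq]
  apply le_of_eq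
  congr 2
  ext i
  simp only [mem_filter, mul_one]
  have : a + i + 1 = a + 1 + i := by ring
  rw [this]

theorem V_step (n : ℕ) : V n - V (n + 1) = if (n + 1).Prime then V n / (n + 1 : ℕ) else 0 := by
  split_ifs with hp
  · have e : Pz (n + 1) = insert (n + 1) (Pz n) := by
      ext p
      rw [mem_insert, mem_Pz, mem_Pz]
      constructor
      · rintro ⟨h1, h2⟩
        by_cases h : p = n + 1
        · left; exact h
        · right; exact ⟨h1, by omega⟩
      · rintro (rfl | ⟨h1, h2⟩)
        · exact ⟨hp, le_rfl⟩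
        · exact ⟨h1, by omega⟩
    have e2 : V (n + 1) = (1 - 1 / ((n + 1 : ℕ) : ℝ)) * V n := by
      unfold V
      rw [e, prod_insert]
      rw [mem_Pz]; omega
    rw [e2]; ring
  · have e : Pz (n + 1) = Pz n := by
      ext p
      rw [mem_Pz, mem_Pz]
      constructor
      · rintro ⟨h1, h2⟩
        have : p ≠ n + 1 := by rintro rfl; exact hp h1
        exact ⟨h1, by omega⟩
      · rintro ⟨h1, h2⟩; exact ⟨h1, by omega⟩
    have e2 : V (n + 1) = V n := by unfold V; rw [e]
    rw [e2]; ring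

theorem V_tele (z : ℕ) : ∑ p ∈ Pz z, V (p - 1) / p = 1 - V z := by
  induction z with
  | zero =>
    have : V 0 = 1 := by unfold V Pz; simp
    rw [this]; unfold Pz; simp
  | succ z ih =>
    have h := V_step z
    by_cases hp : (z + 1).Prime
    · rw [if_pos hp] at h
      have e : Pz (z + 1) = insert (z + 1) (Pz z) := by
        ext p
        rw [mem_insert, mem_Pz, mem_Pz]
        constructor
        · rintro ⟨h1, h2⟩
          by_cases h : p = z + 1
          · left; exact h
          · right; exact ⟨h1, by omega⟩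
        · rintro (rfl | ⟨h1, h2⟩)
          · exact ⟨hp, le_rfl⟩
          · exact ⟨h1, by omega⟩
      rw [e, sum_insert (by rw [mem_Pz]; omega), ih, Nat.add_sub_cancel]
      linarith
    · rw [if_neg hp] at h
      have e : Pz (z + 1) = Pz z := by
        ext p
        rw [mem_Pz, mem_Pz]
        constructor
        · rintro ⟨h1, h2⟩
          have : p ≠ z + 1 := by rintro rfl; exact hp h1
          exact ⟨h1, by omega⟩
        · rintro ⟨h1, h2⟩; exact ⟨h1, by omega⟩
      rw [e, ih]
      linarith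

theorem buchstab (z a N : ℕ) : (N : ℝ) ≤ cnt z a N +
    ∑ p ∈ Pz z, (cnt (p - 1) (a / p) ((a + N) / p - a / p) : ℝ) := by
  classical
  have h1 : (Ioc a (a + N)) ⊆ (Ioc a (a + N)).filter (Rgh z) ∪
      (Pz z).biUnion (fun p => (Ioc a (a + N)).filter (fun n => n.minFac = p)) := by
    intro n hn
    rw [mem_union]
    by_cases hr : Rgh z n
    · left; exact mem_filter.2 ⟨hn, hr⟩
    · right
      rw [mem_biUnion]
      have hn1 : n ≠ 1 := by rintro rfl; exact hr Rgh_one
      rw [mem_Ioc] at hn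
      have hmp := Nat.minFac_prime hn1
      unfold Rgh at hr
      push Not at hr
      obtain ⟨p, hp, hpz, hpn⟩ := hr
      refine ⟨n.minFac, mem_Pz.2 ⟨hmp, (Nat.minFac_le_of_dvd hp.two_le hpn).trans hpz⟩, ?_⟩
      exact mem_filter.2 ⟨mem_Ioc.2 hn, rfl⟩
  have h2 := (card_le_card h1).trans ((card_union_le _ _).trans (Nat.add_le_add_left card_biUnion_le _))
  rw [Nat.card_Ioc] at h2
  have h3 : ∀ p ∈ Pz z, ((Ioc a (a + N)).filter (fun n => n.minFac = p)).card ≤
      cnt (p - 1) (a / p) ((a + N) / p - a / p) := by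
    intro p hp
    have hpp := (mem_Pz.1 hp).1
    unfold cnt
    apply card_le_card_of_injOn (fun n => n / p)
    · intro n hn
      simp only [coe_filter, Set.mem_ofPred_eq, mem_Ioc] at hn ⊢
      obtain ⟨⟨h4, h5⟩, h6⟩ := hn
      have hd : p ∣ n := h6 ▸ Nat.minFac_dvd n
      obtain ⟨m, rfl⟩ := hd
      rw [Nat.mul_div_cancel_left _ hpp.pos]
      have h7 : a / p < m := by
        rw [Nat.div_lt_iff_lt_mul hpp.pos, mul_comm]; exact h4
      have h8 : m ≤ (a + N) / p := by
        rw [Nat.le_div_iff_mul_le hpp.pos, mul_comm]; exact h5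
      refine ⟨⟨h7, by omega⟩, ?_⟩
      intro r hr hrp hrm
      have h9 := Nat.minFac_le_of_dvd hr.two_le (hrm.mul_left p)
      have := hpp.two_le
      omega
    · intro n hn m hm hnm
      simp only [coe_filter, Set.mem_ofPred_eq, mem_Ioc] at hn hm hnm
      obtain ⟨n', rfl⟩ : p ∣ n := hn.2 ▸ Nat.minFac_dvd n
      obtain ⟨m', rfl⟩ : p ∣ m := hm.2 ▸ Nat.minFac_dvd m
      rw [Nat.mul_div_cancel_left _ hpp.pos, Nat.mul_div_cancel_left _ hpp.pos] at hnm
      rw [hnm]
  have h4 := sum_le_sum h3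
  have h5 : N ≤ cnt z a N + ∑ p ∈ Pz z, cnt (p - 1) (a / p) ((a + N) / p - a / p) := by
    have e : cnt z a N = ((Ioc a (a + N)).filter (Rgh z)).card := rfl
    omega
  exact_mod_cast h5

theorem cnt_lower : ∃ C U : ℝ, 0 ≤ C ∧ 1 ≤ U ∧ ∀ a N z : ℕ, 2 ≤ z → 1 ≤ N →
    U * Real.log z ≤ Real.log N →
    N * V z * (1 - C * (Real.log z / Real.log N) ^ 2) ≤ (cnt z a N : ℝ) := by
  obtain ⟨C₁, U₁, hC₁, hU₁, hup⟩ := cnt_upper
  obtain ⟨c₁, c₂, hc1, hc12, hcz⟩ := cz_bounds
  obtain ⟨C₂, hC₂, hlogsum⟩ := sum_log_le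
  have hl2 : 0 < Real.log 2 := Real.log_pos (by norm_num)
  set K₂ := 8 * C₁ * c₂ * (1 + C₂ / Real.log 2) / c₁ with hK₂
  set K₃ := 16 * (1 + 4 * C₁) / (c₁ * Real.log 2) with hK₃
  have hc2 : 0 < c₂ := by linarith
  refine ⟨K₂ + K₃, max 4 (2 * U₁), by positivity, le_trans (by norm_num) (le_max_left _ _), ?_⟩
  intro a N z hz hN hU
  have hz2 : (2 : ℝ) ≤ z := by exact_mod_cast hz
  have hlz : Real.log 2 ≤ Real.log z := Real.log_le_log (by norm_num) hz2
  have hlz0 : 0 < Real.log z := by linarith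
  have hN1 : (1 : ℝ) ≤ N := by exact_mod_cast hN
  have hN0 : (0 : ℝ) < N := by linarith
  set L := Real.log N with hL
  have h4z : 4 * Real.log z ≤ L :=
    (mul_le_mul_of_nonneg_right (le_max_left _ _) hlz0.le).trans hU
  have hUz : 2 * U₁ * Real.log z ≤ L :=
    (mul_le_mul_of_nonneg_right (le_max_right _ _) hlz0.le).trans hU
  have hL0 : 0 < L := by linarith
  have hV := V_pos z
  -- z ≤ N^(1/4)
  set x := (N : ℝ) ^ ((1 : ℝ) / 4) with hx
  have hx0 : 0 < x := by positivity
  have hx4 : x ^ 4 = N := by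
    rw [hx, ← Real.rpow_natCast, ← Real.rpow_mul hN0.le]; norm_num
  have hlogx : Real.log x = L / 4 := by rw [hx, Real.log_rpow hN0]; ring
  have hzx : (z : ℝ) ≤ x := by
    apply (Real.log_le_log_iff (by linarith) hx0).1
    rw [hlogx]; linarith
  have hx2 : 2 ≤ x := hz2.trans hzx
  -- estimate for each prime
  have key : ∀ p ∈ Pz z, (cnt (p - 1) (a / p) ((a + N) / p - a / p) : ℝ) ≤
      N * (V (p - 1) / p) + 8 * C₁ * c₂ * N / L ^ 2 * (Real.log p / p) + (1 + 4 * C₁) := by
    intro p hp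
    obtain ⟨hpp, hpz⟩ := mem_Pz.1 hp
    have hp2 : (2 : ℝ) ≤ p := by exact_mod_cast hpp.two_le
    have hp0 : (0 : ℝ) < p := by linarith
    have hpzR : (p : ℝ) ≤ z := by exact_mod_cast hpz
    have hlp0 : 0 < Real.log p := Real.log_pos (by linarith)
    have hlpz : Real.log p ≤ Real.log z := Real.log_le_log hp0 hpzR
    have hV1 := V_le_one (p - 1)
    have hVp := V_pos (p - 1)
    set Np := (a + N) / p - a / p with hNp
    have hNp1 : (Np : ℝ) ≤ N / p + 1 := by
      have h1 : (a + N) / p ≤ a / p + (N / p + 1) := by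
        have h2 := Nat.add_div hpp.pos (a := a) (b := N)
        rw [h2, add_assoc]
        apply Nat.add_le_add_left
        apply Nat.add_le_add_left
        split_ifs <;> norm_num
      have h2 : Np ≤ N / p + 1 := by
        rw [hNp]; exact Nat.sub_le_iff_le_add'.2 h1
      have h3 : ((N / p : ℕ) : ℝ) ≤ (N : ℝ) / p := Nat.cast_div_le
      have h4 : (Np : ℝ) ≤ ((N / p : ℕ) : ℝ) + 1 := by exact_mod_cast h2
      linarith
    have hNp2 : (N : ℝ) / p ≤ Np + 1 := by
      have h2 := Nat.add_div hpp.pos (a := a) (b := N)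
      have h3 : N / p ≤ Np := by
        rw [hNp, h2, add_assoc, Nat.add_sub_cancel_left]
        exact Nat.le_add_right _ _
      have h4 : (N : ℝ) / p ≤ ((N / p : ℕ) : ℝ) + 1 := by
        rw [div_le_iff₀ hp0]
        have h5 := Nat.div_add_mod N p
        have h6 := Nat.mod_lt N hpp.pos
        have h7 : N ≤ (N / p + 1) * p := by
          have : (N / p + 1) * p = p * (N / p) + p := by ring
          omega
        exact_mod_cast h7
      have h5 : ((N / p : ℕ) : ℝ) ≤ Np := by exact_mod_cast h3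
      linarith
    -- bound for the sifted count
    have hb : (cnt (p - 1) (a / p) Np : ℝ) ≤ Np * V (p - 1) * (1 + 4 * C₁ * (Real.log p / L) ^ 2) := by
      by_cases hp3 : p = 2
      · have h1 : (cnt (p - 1) (a / p) Np : ℝ) ≤ Np := by exact_mod_cast cnt_le _ _ _
        have h2 : V (p - 1) = 1 := by
          rw [hp3]
          unfold V
          apply prod_eq_one
          intro r hr
          rw [mem_Pz] at hr
          have := hr.1.two_le
          omega
        rw [h2, mul_one]
        refine h1.trans (le_mul_of_one_le_right (by positivity) ?_)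
        have : 0 ≤ 4 * C₁ * (Real.log p / L) ^ 2 := by positivity
        linarith
      · have hp3' : 2 ≤ p - 1 := by
          have := hpp.two_le
          omega
        -- log Np ≥ L / 2
        have hNpx : x ^ 2 ≤ Np := by
          have h1 : x ^ 3 ≤ N / p := by
            rw [le_div_iff₀ hp0, ← hx4]
            have : x ^ 3 * p ≤ x ^ 3 * x := mul_le_mul_of_nonneg_left (hpzR.trans hzx) (by positivity)
            calc x ^ 3 * p ≤ x ^ 3 * x := this
              _ = x ^ 4 := by ring
          have h2 : x ^ 2 + 1 ≤ x ^ 3 := by nlinarith [sq_nonneg x, mul_pos hx0 hx0]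
          linarith
        have hNp0 : (0 : ℝ) < Np := lt_of_lt_of_le (by positivity) hNpx
        have hlNp : L / 2 ≤ Real.log Np := by
          have h1 := Real.log_le_log (by positivity) hNpx
          rw [Real.log_pow, hlogx] at h1
          push_cast at h1
          linarith
        have hp1le : ((p - 1 : ℕ) : ℝ) ≤ p := by exact_mod_cast Nat.sub_le p 1
        have hp1pos : (0 : ℝ) < ((p - 1 : ℕ) : ℝ) := by exact_mod_cast (by omega : 0 < p - 1)
        have hlp1 : Real.log ((p - 1 : ℕ) : ℝ) ≤ Real.log p := Real.log_le_log hp1pos hp1le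
        have hlp1' : 0 ≤ Real.log ((p - 1 : ℕ) : ℝ) :=
          Real.log_nonneg (by exact_mod_cast (by omega : 1 ≤ p - 1))
        have h1 := hup (a / p) Np (p - 1) hp3' (by exact_mod_cast hNp0) (by
          calc U₁ * Real.log ((p - 1 : ℕ) : ℝ) ≤ U₁ * Real.log z :=
                mul_le_mul_of_nonneg_left (hlp1.trans hlpz) (by linarith)
            _ ≤ L / 2 := by linarith
            _ ≤ _ := hlNp)
        refine h1.trans ?_
        apply mul_le_mul_of_nonneg_left _ (by positivity)
        have h2 : Real.log ((p - 1 : ℕ) : ℝ) / Real.log Np ≤ 2 * (Real.log p / L) := by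
          have h3 : 0 < Real.log Np := by linarith
          rw [div_le_iff₀ h3]
          calc Real.log ((p - 1 : ℕ) : ℝ) ≤ Real.log p := hlp1
            _ = 2 * (Real.log p / L) * (L / 2) := by field_simp
            _ ≤ 2 * (Real.log p / L) * Real.log Np := mul_le_mul_of_nonneg_left hlNp (by positivity)
        have h3 : 0 ≤ Real.log ((p - 1 : ℕ) : ℝ) / Real.log Np :=
          div_nonneg hlp1' (by linarith)
        have h4 := pow_le_pow_left₀ h3 h2 2
        have h5 := mul_le_mul_of_nonneg_left h4 hC₁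
        have e : C₁ * (2 * (Real.log p / L)) ^ 2 = 4 * C₁ * (Real.log p / L) ^ 2 := by ring
        linarith
    have hr1 : (Real.log p / L) ^ 2 ≤ 1 := by
      apply pow_le_one₀ (by positivity)
      rw [div_le_one hL0]; linarith
    have hVlog : V (p - 1) * Real.log p ≤ 2 * c₂ := by
      have h1 := (hcz p hpp.two_le).2
      have h2 := V_step (p - 1)
      have e : p - 1 + 1 = p := by have := hpp.two_le; omega
      rw [e, if_pos hpp] at h2
      have h3 : V (p - 1) / p ≤ V (p - 1) / 2 := div_le_div_of_nonneg_left hVp.le (by norm_num) hp2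
      have h4 : V (p - 1) ≤ 2 * V p := by linarith
      calc V (p - 1) * Real.log p ≤ 2 * V p * Real.log p := mul_le_mul_of_nonneg_right h4 hlp0.le
        _ ≤ 2 * c₂ := by linarith
    set W := (Real.log p / L) ^ 2 with hW
    have hW0 : 0 ≤ W := by positivity
    calc (cnt (p - 1) (a / p) Np : ℝ) ≤ Np * V (p - 1) * (1 + 4 * C₁ * W) := hb
      _ ≤ (N / p + 1) * V (p - 1) * (1 + 4 * C₁ * W) := by gcongr
      _ = N * (V (p - 1) / p) + 4 * C₁ * N / p * (V (p - 1) * W) + V (p - 1) * (1 + 4 * C₁ * W) := by ring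
      _ ≤ N * (V (p - 1) / p) + 8 * C₁ * c₂ * N / L ^ 2 * (Real.log p / p) + (1 + 4 * C₁) := by
          have h1 : V (p - 1) * W ≤ 2 * c₂ * Real.log p / L ^ 2 := by
            rw [hW, div_pow, ← mul_div_assoc]
            apply div_le_div_of_nonneg_right _ (by positivity)
            calc V (p - 1) * Real.log p ^ 2 = (V (p - 1) * Real.log p) * Real.log p := by ring
              _ ≤ 2 * c₂ * Real.log p := mul_le_mul_of_nonneg_right hVlog hlp0.le
          have h2 : 4 * C₁ * N / p * (V (p - 1) * W) ≤ 4 * C₁ * N / p * (2 * c₂ * Real.log p / L ^ 2) :=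
            mul_le_mul_of_nonneg_left h1 (by positivity)
          have e : 4 * C₁ * N / p * (2 * c₂ * Real.log p / L ^ 2) =
            8 * C₁ * c₂ * N / L ^ 2 * (Real.log p / p) := by ring
          have h3 : V (p - 1) * (1 + 4 * C₁ * W) ≤ 1 * (1 + 4 * C₁ * 1) := by gcongr
          linarith
  have hsum := sum_le_sum key
  rw [sum_add_distrib, sum_add_distrib, ← mul_sum, ← mul_sum, V_tele, sum_const, nsmul_eq_mul] at hsum
  have hbu := buchstab z a N
  have hcard : ((Pz z).card : ℝ) ≤ z := by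
    have : (Pz z).card ≤ z := by
      unfold Pz
      refine (card_filter_le _ _).trans ?_
      rw [Nat.card_Ioc]; omega
    exact_mod_cast this
  have hlogs := hlogsum z (by omega)
  have hVlow : c₁ ≤ V z * Real.log z := (hcz z hz).1
  -- term 2
  have t2 : 8 * C₁ * c₂ * N / L ^ 2 * ∑ p ∈ Pz z, Real.log p / p ≤
      N * V z * (K₂ * (Real.log z / L) ^ 2) := by
    have h1 : ∑ p ∈ Pz z, Real.log p / p ≤ (1 + C₂ / Real.log 2) * Real.log z := by
      have : C₂ ≤ C₂ / Real.log 2 * Real.log z := by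
        rw [div_mul_eq_mul_div, le_div_iff₀ hl2]
        exact mul_le_mul_of_nonneg_left hlz hC₂
      linarith
    have h2 : Real.log z ≤ V z * Real.log z ^ 2 / c₁ := by
      rw [le_div_iff₀ hc1]
      calc Real.log z * c₁ ≤ Real.log z * (V z * Real.log z) := mul_le_mul_of_nonneg_left hVlow hlz0.le
        _ = V z * Real.log z ^ 2 := by ring
    calc 8 * C₁ * c₂ * N / L ^ 2 * ∑ p ∈ Pz z, Real.log p / p
        ≤ 8 * C₁ * c₂ * N / L ^ 2 * ((1 + C₂ / Real.log 2) * (V z * Real.log z ^ 2 / c₁)) := by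
          apply mul_le_mul_of_nonneg_left _ (by positivity)
          exact h1.trans (mul_le_mul_of_nonneg_left h2 (by positivity))
      _ = _ := by rw [hK₂]; ring
  -- term 3
  have t3 : (Pz z).card * (1 + 4 * C₁) ≤ N * V z * (K₃ * (Real.log z / L) ^ 2) := by
    have h1 : L ^ 2 ≤ 16 * x ^ 2 := by
      have h2 : L ≤ 4 * x := by
        have := Real.log_le_rpow_div hN0.le (show (0 : ℝ) < 1 / 4 by norm_num)
        linarith
      calc L ^ 2 ≤ (4 * x) ^ 2 := pow_le_pow_left₀ hL0.le h2 2
        _ = 16 * x ^ 2 := by ring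
    have h3 : (z : ℝ) * L ^ 2 ≤ 16 * N := by
      calc (z : ℝ) * L ^ 2 ≤ x * (16 * x ^ 2) := mul_le_mul hzx h1 (by positivity) hx0.le
        _ = 16 * x ^ 3 := by ring
        _ ≤ 16 * x ^ 4 := by
            have : x ^ 3 ≤ x ^ 4 := pow_le_pow_right₀ (by linarith) (by norm_num)
            linarith
        _ = 16 * N := by rw [hx4]
    have h4 : Real.log 2 * c₁ ≤ V z * Real.log z ^ 2 := by
      calc Real.log 2 * c₁ ≤ Real.log z * (V z * Real.log z) :=
            mul_le_mul hlz hVlow hc1.le hlz0.le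
        _ = V z * Real.log z ^ 2 := by ring
    calc (Pz z).card * (1 + 4 * C₁) ≤ z * (1 + 4 * C₁) :=
          mul_le_mul_of_nonneg_right hcard (by positivity)
      _ ≤ (16 * N / L ^ 2) * (1 + 4 * C₁) := by
          apply mul_le_mul_of_nonneg_right _ (by positivity)
          rw [le_div_iff₀ (by positivity)]; exact h3
      _ = (16 * N / L ^ 2) * (1 + 4 * C₁) / (Real.log 2 * c₁) * (Real.log 2 * c₁) := by field_simp
      _ ≤ (16 * N / L ^ 2) * (1 + 4 * C₁) / (Real.log 2 * c₁) * (V z * Real.log z ^ 2) :=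
          mul_le_mul_of_nonneg_left h4 (by positivity)
      _ = _ := by rw [hK₃]; ring
  have e : N * V z * (1 - (K₂ + K₃) * (Real.log z / L) ^ 2) = N * V z -
    N * V z * (K₂ * (Real.log z / L) ^ 2) - N * V z * (K₃ * (Real.log z / L) ^ 2) := by ring
  rw [e]
  linarith

end Pool.Agent.H318R2.Cr
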