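import Mathlib
import Pool.Agent.H318R2.Cr.AP

set_option autoImplicit false

namespace Pool.Agent.H318R2.Cr

open Filter Topology Finset MeasureTheory ProbabilityTheory
open Pool.Agent.Helper923.PPS (apSieve)

section prob

variable {Ω : Type*} [MeasurableSpace Ω] {μ : Measure Ω} [IsProbabilityMeasure μ]
variable {z : ℕ → ℕ} {A : ℕ → Set Ω}

theorem no_block_empty' {ι : Type*} {A : ι → Set Ω} (hm : ∀ i, MeasurableSet (A i))
    (hi : iIndepSet A μ) (T : Finset ℕ) (B : ℕ → Finset ι)
    (hB : ∀ i j, i ≠ j → Disjoint (B i) (B j)) (p : ℝ)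
    (hp : ∀ j ∈ T, p ≤ μ.real (⋂ n ∈ B j, (A n)ᶜ)) :
    μ.real (⋂ j ∈ T, (⋂ n ∈ B j, (A n)ᶜ)ᶜ) ≤ Real.exp (-(p * T.card)) := by
  rw [real_compl_inter (block_indep hm hi B hB)]
  calc ∏ j ∈ T, μ.real ((⋂ n ∈ B j, (A n)ᶜ)ᶜ) ≤ ∏ _j ∈ T, Real.exp (-p) := by
        apply Finset.prod_le_prod
        · intro j _; exact measureReal_nonneg
        · intro j hj
          have hms : MeasurableSet (⋂ n ∈ B j, (A n)ᶜ) :=
            Finset.measurableSet_biInter _ fun n _ => (hm n).compl
          rw [probReal_compl_eq_one_sub hms]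
          have := hp j hj
          have := Real.add_one_le_exp (-p)
          linarith
    _ = Real.exp (-(p * T.card)) := by
        rw [prod_const, ← Real.exp_nat_mul]
        congr 1; ring

theorem gap_lower2 (hA : IsSievedModel μ z A) {k h Q a J M : ℕ} {q c : ℝ} (hk : 1 ≤ k)
    (T : Finset ℕ) (hT : T ⊆ range M) (hhQ : h < Q) (hb1 : 2 ^ k ≤ J * Q)
    (hb2 : a + (J + M) * Q + h < 2 ^ (k + 1))
    (hq : q = 1 / (V (z k) * (k * Real.log 2))) (hq2 : q ≤ 1 / 2)
    (hc : ∀ j ∈ T, (cnt (z k) (a + (J + j) * Q) h : ℝ) ≤ c) :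
    μ.real ((Gev A k h)ᶜ) ≤ Real.exp (-(Real.exp (-(c * (q + 2 * q ^ 2))) * T.card)) := by
  classical
  let b : ℕ → ℕ := fun j => a + (J + j) * Q
  have hb1' : ∀ j ∈ T, 2 ^ k ≤ b j := by
    intro j _
    have : (J + j) * Q = J * Q + j * Q := by ring
    simp only [b]
    have := Nat.zero_le (j * Q)
    omega
  have hb2' : ∀ j ∈ T, b j + h < 2 ^ (k + 1) := by
    intro j hj
    have hjM := mem_range.1 (hT hj)
    have : (J + j) * Q ≤ (J + M) * Q := Nat.mul_le_mul_right _ (by omega)
    simp only [b]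
    omega
  have hq0 : 0 ≤ q := by
    rw [hq]
    have := V_pos (z k)
    have hl2 : 0 < Real.log 2 := Real.log_pos (by norm_num)
    positivity
  have hsub : (Gev A k h)ᶜ ⊆ ⋂ j ∈ T, (⋂ n ∈ Ioc (b j) (b j + h), (A n)ᶜ)ᶜ := by
    intro ω hω
    simp only [Set.mem_iInter, Set.mem_compl_iff]
    intro j hj hE
    apply hω
    refine ⟨b j, hb1' j hj, hb2' j hj, ?_⟩
    intro n hn
    have := hE n hn
    exact this
  calc μ.real ((Gev A k h)ᶜ) ≤ μ.real (⋂ j ∈ T, (⋂ n ∈ Ioc (b j) (b j + h), (A n)ᶜ)ᶜ) :=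
        measureReal_mono hsub
    _ ≤ Real.exp (-(Real.exp (-(c * (q + 2 * q ^ 2))) * T.card)) := by
        apply no_block_empty' hA.measurable hA.indep T (fun j => Ioc (b j) (b j + h))
        · intro i j hij
          rw [Finset.disjoint_left]
          intro n hn hn2
          rw [mem_Ioc] at hn hn2
          rcases Nat.lt_or_gt_of_ne hij with hlt | hlt
          · have : (J + i + 1) * Q ≤ (J + j) * Q := Nat.mul_le_mul_right _ (by omega)
            have e : (J + i + 1) * Q = (J + i) * Q + Q := by ring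
            simp only [b] at hn hn2
            omega
          · have : (J + j + 1) * Q ≤ (J + i) * Q := Nat.mul_le_mul_right _ (by omega)
            have e : (J + j + 1) * Q = (J + j) * Q + Q := by ring
            simp only [b] at hn hn2
            omega
        · intro j hj
          have h5 := empty_prob hA (hb1' j hj) (hb2' j hj) hk hq hq2
          refine le_trans ?_ h5
          apply Real.exp_le_exp.2
          have h6 : 0 ≤ q + 2 * q ^ 2 := by positivity
          have := mul_le_mul_of_nonneg_right (hc j hj) h6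
          simp only [b]
          linarith

theorem small2 {F : Filter ℕ} (hF : F ≤ atTop) {w : ℕ → ℝ} (hw : Tendsto (fun k => w k / k) F (𝓝 0))
    (u v x γ : ℝ) (hγ : 0 < γ) : ∀ᶠ k : ℕ in F, u * w k + v + x * Real.log k ≤ γ * k := by
  have h1 : Tendsto (fun k : ℕ => u * (w k / k) + v * (1 / (k : ℝ)) + x * (Real.log k / k)) F
      (𝓝 (u * 0 + v * 0 + x * 0)) := by
    apply Tendsto.add
    · apply Tendsto.add
      · exact hw.const_mul u
      · exact ((tendsto_one_div_atTop_nhds_zero_nat).mono_left hF).const_mul v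
    · apply Tendsto.const_mul
      have := Real.isLittleO_log_id_atTop.tendsto_div_nhds_zero
      exact (this.comp tendsto_natCast_atTop_atTop).mono_left hF
  simp only [mul_zero, add_zero] at h1
  have h2 := h1.eventually_lt_const hγ
  filter_upwards [h2, hF (eventually_gt_atTop 0)] with k hk hk0
  have hk0' : (0 : ℝ) < k := by exact_mod_cast hk0
  have h3 := mul_le_mul_of_nonneg_right hk.le hk0'.le
  have e : (u * (w k / k) + v * (1 / (k : ℝ)) + x * (Real.log k / k)) * k =
    u * w k + v + x * Real.log k := by field_simp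
  rw [e] at h3
  exact h3

theorem gap_prob2 (hA : IsSievedModel μ z A) {F : Filter ℕ} (hF : F ≤ atTop)
    (hlz : Tendsto (fun k => Real.log (z k) / k) atTop (𝓝 0)) (z' : ℕ → ℕ)
    (hzz : ∀ᶠ k in F, 2 ≤ z' k ∧ z' k ≤ z k)
    (hz' : Tendsto (fun k => (z' k : ℝ) / k) F (𝓝 0))
    {β C : ℝ} (hβ0 : 0 < β) (hβ : β < 1) (h a : ℕ → ℕ) (hC : 0 ≤ C)
    (hh : ∀ᶠ k in F, (h k : ℝ) ≤ C * k ^ 2)
    (hc : ∀ᶠ k in F, (cnt (z' k) (a k) (h k) : ℝ) ≤ β * V (z' k) * (k * Real.log 2) ^ 2) :
    Tendsto (fun k => μ.real ((Gev A k (h k))ᶜ)) F (𝓝 0) := by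
  obtain ⟨C₀, U, hC₀, hU1, hFL⟩ := FL_upper
  obtain ⟨c₁, c₂, hc1, hc12, hcz⟩ := cz_bounds
  have hl2 : 0 < Real.log 2 := Real.log_pos (by norm_num)
  set ε := (1 - β) / 4 with hε
  have hε0 : 0 < ε := by rw [hε]; linarith
  set β₂ := (1 + β) / 2 with hβ₂
  have hβ₂0 : 0 < β₂ := by rw [hβ₂]; linarith
  have hβ₂1 : β₂ < 1 := by rw [hβ₂]; linarith
  set η := Real.log 2 / 2 * Real.sqrt (ε / (C₀ + 1)) with hη
  have hη0 : 0 < η := by positivity
  have hlzF := hlz.mono_left hF
  set γ := (1 - β₂) * Real.log 2 / 4 with hγ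
  have hγ0 : 0 < γ := by
    have : 0 < 1 - β₂ := by linarith
    positivity
  -- eventual inequalities
  have E1 := small2 hF hz' (Real.log 4) (Real.log 16 + (Real.log 2 + Real.log (C + 1))) 2
    (Real.log 2 / 2) (by positivity)
  have E2 := small2 hF hlzF U 0 0 (Real.log 2 / 2) (by positivity)
  have E3 := small2 hF hlzF 1 0 0 η hη0
  have E4 := small2 hF hlzF (2 / (c₁ * Real.log 2)) 0 0 1 one_pos
  have E5 := small2 hF hlzF (2 * β₂ / c₁) (-Real.log ε) 0 γ hγ0
  have E6 := small2 hF hz' (Real.log 4) (Real.log 16 + (Real.log 2 + Real.log (C + 1))) 2 γ hγ0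
  have hbound : ∀ᶠ k : ℕ in F, μ.real ((Gev A k (h k))ᶜ) ≤
      Real.exp (-(Real.exp (2 * γ * k))) := by
    filter_upwards [E1, E2, E3, E4, E5, E6, hh, hc, hzz, hF (eventually_ge_atTop 1)] with
      k e1 e2 e3 e4 e5 e6 e7 e8 e9 hk
    obtain ⟨hz'2, hz'z⟩ := e9
    have hk0 : (0 : ℝ) < k := by exact_mod_cast hk
    have hk1 : (1 : ℝ) ≤ k := by exact_mod_cast hk
    have hV := V_pos (z k)
    have hz2 : 2 ≤ z k := hz'2.trans hz'z
    have hlogz : 0 < Real.log (z k) := Real.log_pos (by exact_mod_cast (by omega : 1 < z k))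
    have hVlow : c₁ / Real.log (z k) ≤ V (z k) := by
      rw [div_le_iff₀ hlogz]; exact (hcz (z k) hz2).1
    have hVinv : 1 / V (z k) ≤ Real.log (z k) / c₁ := by
      rw [div_le_div_iff₀ hV hc1]
      rw [div_le_iff₀ hlogz] at hVlow
      linarith
    set q := 1 / (V (z k) * (k * Real.log 2)) with hq
    set t := Nat.log 2 (h k) + 1 with ht
    have ht1 : h k < 2 ^ t := Nat.lt_pow_succ_log_self (by norm_num) _
    have ht2 : 2 ^ t ≤ 2 * (h k + 1) := by
      rw [ht, pow_succ]
      have : 2 ^ (Nat.log 2 (h k)) ≤ h k + 1 := by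
        rcases Nat.eq_zero_or_pos (h k) with h0 | h0
        · rw [h0]; simp
        · exact (Nat.pow_log_le_self 2 (by omega)).trans (by omega)
      omega
    set P := primorial (z' k) with hP
    set Q := P * 2 ^ t with hQ
    have hPpos : 0 < P := primorial_pos _
    have hQpos : 0 < Q := Nat.mul_pos hPpos (by positivity)
    have hQR : (0 : ℝ) < Q := by exact_mod_cast hQpos
    have hC1 : 0 < C + 1 := by linarith
    have hPQ : P ≤ Q := Nat.le_mul_of_pos_right _ (by positivity)
    have hhQ : h k < Q := lt_of_lt_of_le ht1 (Nat.le_mul_of_pos_left _ hPpos)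
    have hlogt : Real.log ((2 ^ t : ℕ) : ℝ) ≤ Real.log 2 + Real.log (C + 1) + 2 * Real.log k := by
      have h1 : ((2 ^ t : ℕ) : ℝ) ≤ 2 * ((C + 1) * (k : ℝ) ^ 2) := by
        have h2 : ((2 ^ t : ℕ) : ℝ) ≤ 2 * ((h k : ℝ) + 1) := by exact_mod_cast ht2
        have h3 : (h k : ℝ) + 1 ≤ (C + 1) * (k : ℝ) ^ 2 := by
          have : (1 : ℝ) ≤ (k : ℝ) ^ 2 := one_le_pow₀ hk1
          nlinarith
        linarith
      calc Real.log ((2 ^ t : ℕ) : ℝ) ≤ Real.log (2 * ((C + 1) * (k : ℝ) ^ 2)) :=
            Real.log_le_log (by positivity) h1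
        _ = Real.log 2 + Real.log (C + 1) + 2 * Real.log k := by
            rw [Real.log_mul (by positivity) (by positivity), Real.log_mul (by positivity)
              (by positivity), Real.log_pow]
            push_cast; ring
    have hlogQ : Real.log Q ≤ z' k * Real.log 4 + (Real.log 2 + Real.log (C + 1) + 2 * Real.log k) := by
      have e : (Q : ℝ) = (P : ℝ) * ((2 ^ t : ℕ) : ℝ) := by rw [hQ]; push_cast; ring
      rw [e, Real.log_mul (by positivity) (by positivity)]
      have := log_primorial_le (z' k)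
      linarith
    have h16 : 16 * Q ≤ 2 ^ k := by
      have : Real.log (16 * Q) ≤ Real.log (2 ^ k) := by
        rw [Real.log_mul (by norm_num) (by positivity), Real.log_pow]
        have : Real.log 2 / 2 * k ≤ Real.log 2 * k := by
          apply mul_le_mul_of_nonneg_right _ hk0.le; linarith
        linarith
      have := (Real.log_le_log_iff (by positivity) (by positivity)).1 this
      exact_mod_cast this
    -- the parameters
    set M := 2 ^ k / (8 * Q) with hM
    have hMQ : M * (8 * Q) ≤ 2 ^ k := Nat.div_mul_le_self _ _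
    set J := 2 ^ k / Q + 1 with hJ
    have hJ1 : 2 ^ k < J * Q := by
      rw [hJ]
      have := Nat.div_add_mod (2 ^ k) Q
      have h2 := Nat.mod_lt (2 ^ k) hQpos
      have e : (2 ^ k / Q + 1) * Q = Q * (2 ^ k / Q) + Q := by ring
      omega
    have hJ2 : J * Q ≤ 2 ^ k + Q := by
      rw [hJ, add_mul, one_mul]
      have := Nat.div_mul_le_self (2 ^ k) Q
      omega
    set a' := a k % P with ha'
    have ha'P : a' < P := Nat.mod_lt _ hPpos
    have hb2 : a' + (J + M) * Q + h k < 2 ^ (k + 1) := by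
      have e1 : (J + M) * Q = J * Q + M * Q := by ring
      have e3 : M * (8 * Q) = 8 * (M * Q) := by ring
      have e4 : 2 ^ (k + 1) = 2 * 2 ^ k := by ring
      omega
    have hMlow : (2 : ℝ) ^ k / (16 * Q) ≤ (M : ℝ) := by
      have h8 : 0 < 8 * Q := by omega
      have h1 : 2 ^ k < (2 ^ k / (8 * Q) + 1) * (8 * Q) := by
        have := Nat.div_add_mod (2 ^ k) (8 * Q)
        have h2 := Nat.mod_lt (2 ^ k) h8
        have e : (2 ^ k / (8 * Q) + 1) * (8 * Q) = 8 * Q * (2 ^ k / (8 * Q)) + 8 * Q := by ring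
        omega
      have h3 : 1 ≤ 2 ^ k / (8 * Q) := by
        rw [Nat.le_div_iff_mul_le h8]; omega
      have h4 : (2 ^ k : ℕ) < (2 * (2 ^ k / (8 * Q))) * (8 * Q) :=
        lt_of_lt_of_le h1 (Nat.mul_le_mul_right _ (by omega))
      have h5 : ((2 : ℝ) ^ k) < (2 * ((2 ^ k / (8 * Q) : ℕ) : ℝ)) * (8 * Q) := by exact_mod_cast h4
      rw [div_le_iff₀ (by positivity)]
      rw [hM]
      nlinarith
    have hM1 : 1 ≤ M := by
      rw [hM, Nat.le_div_iff_mul_le (by omega)]; omega
    have hM0 : (0 : ℝ) < M := by exact_mod_cast hM1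
    have hlow : Real.exp (k * Real.log 2 - Real.log 16 - Real.log Q) ≤ (M : ℝ) := by
      refine le_trans (le_of_eq ?_) hMlow
      rw [sub_sub, Real.exp_sub, ← Real.log_mul (by norm_num) (by positivity),
        Real.exp_log (by positivity), ← Real.log_pow, Real.exp_log (by positivity)]
    have hlogM : Real.log 2 / 2 * k ≤ Real.log M := by
      have h1 := Real.log_le_log (Real.exp_pos _) hlow
      rw [Real.log_exp] at h1
      have : Real.log 2 / 2 * k + Real.log 2 / 2 * k = k * Real.log 2 := by ring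
      linarith
    have hlogM0 : 0 < Real.log M := lt_of_lt_of_le (by positivity) hlogM
    -- sieve bound
    have hB : ∀ b : ℕ, (apSieve b Q M (z k)).siftedSum ≤ M * Vq Q (z k) * (1 + ε) := by
      intro b
      have h1 := hFL b Q M (z k) hQpos hz2 hM1 (by linarith)
      refine h1.trans ?_
      have hVq := Vq_pos Q (z k)
      apply mul_le_mul_of_nonneg_left _ (by positivity)
      have h2 : Real.log (z k) / Real.log M ≤ Real.sqrt (ε / (C₀ + 1)) := by
        rw [div_le_iff₀ hlogM0]
        calc Real.log (z k) ≤ η * k := by linarith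
          _ = Real.sqrt (ε / (C₀ + 1)) * (Real.log 2 / 2 * k) := by rw [hη]; ring
          _ ≤ Real.sqrt (ε / (C₀ + 1)) * Real.log M :=
              mul_le_mul_of_nonneg_left hlogM (Real.sqrt_nonneg _)
      have h3 : (Real.log (z k) / Real.log M) ^ 2 ≤ ε / (C₀ + 1) := by
        calc (Real.log (z k) / Real.log M) ^ 2 ≤ (Real.sqrt (ε / (C₀ + 1))) ^ 2 :=
              pow_le_pow_left₀ (by positivity) h2 2
          _ = ε / (C₀ + 1) := Real.sq_sqrt (by positivity)
      have h4 : C₀ * (Real.log (z k) / Real.log M) ^ 2 ≤ ε := by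
        calc C₀ * (Real.log (z k) / Real.log M) ^ 2 ≤ C₀ * (ε / (C₀ + 1)) :=
              mul_le_mul_of_nonneg_left h3 hC₀
          _ = ε * (C₀ / (C₀ + 1)) := by ring
          _ ≤ ε * 1 := by
              apply mul_le_mul_of_nonneg_left _ hε0.le
              rw [div_le_one (by positivity)]; linarith
          _ = ε := mul_one _
      linarith
    have hQp : ∀ p : ℕ, p.Prime → (p ∣ Q ↔ p ≤ z' k) := by
      intro p hp
      constructor
      · intro hd
        rcases hp.dvd_mul.1 hd with h1 | h1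
        · exact hp.dvd_primorial_iff.1 h1
        · have := (Nat.prime_dvd_prime_iff_eq hp Nat.prime_two).1 (hp.dvd_of_dvd_pow h1)
          omega
      · intro hle
        exact (dvd_primorial hp hle).mul_right _
    obtain ⟨T, hTM, hTc, hTcnt⟩ := good_blocks (a := a') (J := J) (h := h k) hz'z (Dvd.intro _ rfl) hQpos
      hβ0 hβ (by positivity : 0 < ((k : ℝ) * Real.log 2) ^ 2) hε hQp
      (by rw [ha', cnt_mod]; exact e8) hB le_rfl
    have hq2 : q ≤ 1 / 2 := by
      rw [hq]
      apply one_div_le_one_div_of_le (by norm_num)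
      have h1 : 2 / (c₁ * Real.log 2) * Real.log (z k) ≤ k := by linarith
      have h2 : c₁ / Real.log (z k) * (k * Real.log 2) ≤ V (z k) * (k * Real.log 2) :=
        mul_le_mul_of_nonneg_right hVlow (by positivity)
      refine le_trans ?_ h2
      have h3 : c₁ / Real.log (z k) * (k * Real.log 2) ≥
          c₁ / Real.log (z k) * ((2 / (c₁ * Real.log 2) * Real.log (z k)) * Real.log 2) := by
        apply mul_le_mul_of_nonneg_left _ (by positivity)
        exact mul_le_mul_of_nonneg_right h1 hl2.le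
      have h4 : c₁ / Real.log (z k) * ((2 / (c₁ * Real.log 2) * Real.log (z k)) * Real.log 2) = 2 := by
        field_simp
      linarith
    have hmain := gap_lower2 hA hk T hTM hhQ hJ1.le hb2 hq hq2 hTcnt
    refine hmain.trans ?_
    apply Real.exp_le_exp.2
    apply neg_le_neg
    have hexp : (1 + β) / 2 * V (z k) * (k * Real.log 2) ^ 2 * (q + 2 * q ^ 2) ≤
        β₂ * (k * Real.log 2) + 2 * β₂ / c₁ * Real.log (z k) := by
      have e : (1 + β) / 2 * V (z k) * (k * Real.log 2) ^ 2 * (q + 2 * q ^ 2) =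
        β₂ * (k * Real.log 2) + 2 * β₂ * (1 / V (z k)) := by
        rw [hq, hβ₂]; field_simp
      rw [e]
      have := mul_le_mul_of_nonneg_left hVinv (by positivity : 0 ≤ 2 * β₂)
      have e2 : 2 * β₂ * (Real.log (z k) / c₁) = 2 * β₂ / c₁ * Real.log (z k) := by ring
      linarith
    have hTlow : Real.exp (Real.log ε + (k * Real.log 2 - Real.log 16 - Real.log Q)) ≤ (T.card : ℝ) := by
      rw [Real.exp_add, Real.exp_log hε0]
      exact (mul_le_mul_of_nonneg_left hlow hε0.le).trans hTc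
    calc Real.exp (2 * γ * k)
        ≤ Real.exp (-((1 + β) / 2 * V (z k) * (k * Real.log 2) ^ 2 * (q + 2 * q ^ 2)) +
          (Real.log ε + (k * Real.log 2 - Real.log 16 - Real.log Q))) := by
          apply Real.exp_le_exp.2
          have : γ * k + γ * k + (γ * k + γ * k) = k * Real.log 2 - β₂ * (k * Real.log 2) := by
            rw [hγ]; ring
          linarith
      _ = Real.exp (-((1 + β) / 2 * V (z k) * (k * Real.log 2) ^ 2 * (q + 2 * q ^ 2))) *
          Real.exp (Real.log ε + (k * Real.log 2 - Real.log 16 - Real.log Q)) := Real.exp_add _ _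
      _ ≤ _ := mul_le_mul_of_nonneg_left hTlow (Real.exp_pos _).le
  have hlim : Tendsto (fun k : ℕ => Real.exp (-(Real.exp (2 * γ * k)))) F (𝓝 0) := by
    refine Tendsto.mono_left ?_ hF
    apply Real.tendsto_exp_neg_atTop_nhds_zero.comp
    apply Real.tendsto_exp_atTop.comp
    exact Tendsto.const_mul_atTop (by positivity) tendsto_natCast_atTop_atTop
  exact squeeze_zero' (Eventually.of_forall fun _ => measureReal_nonneg) hbound hlim

end prob

end Pool.Agent.H318R2.Cr
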