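import Mathlib
import Pool.Agent.H318R2.Cr.Ultra
import Pool.Agent.H318R2.Cr.NoSuchH

set_option autoImplicit false

namespace Pool.Agent.H318R2.Cr

open Filter Topology Finset

theorem tsum_pow_ge {s : ℝ} (hs : 0 < s) : 1 / s ≤ ∑' n : ℕ, (n : ℝ) ^ (-1 - s) := by
  have hsum : Summable (fun n : ℕ => (n : ℝ) ^ (-1 - s)) := Real.summable_nat_rpow.2 (by linarith)
  have key : ∀ N : ℕ, (1 - ((N : ℝ) + 1) ^ (-s)) / s ≤ ∑ n ∈ Ioc 0 N, (n : ℝ) ^ (-1 - s) := by
    intro N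
    induction N with
    | zero => simp
    | succ N ih =>
      rw [Finset.sum_Ioc_succ_top (Nat.zero_le N)]
      have hN0 : (0 : ℝ) < (N : ℝ) + 1 := by positivity
      have hN1 : (0 : ℝ) < (N : ℝ) + 2 := by positivity
      have h1 : (((N : ℝ) + 1) ^ (-s) - ((N : ℝ) + 2) ^ (-s)) / s ≤ ((N : ℝ) + 1) ^ (-1 - s) := by
        have e1 : ((N : ℝ) + 2) ^ (-s) = ((N : ℝ) + 1) ^ (-s) * (1 + 1 / ((N : ℝ) + 1)) ^ (-s) := by
          rw [← Real.mul_rpow (by positivity) (by positivity)]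
          congr 1
          field_simp
          ring
        have e2 : ((N : ℝ) + 1) ^ (-1 - s) = ((N : ℝ) + 1) ^ (-s) * (1 / ((N : ℝ) + 1)) := by
          rw [show -1 - s = -s + (-1) by ring, Real.rpow_add hN0, Real.rpow_neg_one, one_div]
        have h2 : 1 - s * (1 / ((N : ℝ) + 1)) ≤ (1 + 1 / ((N : ℝ) + 1)) ^ (-s) := by
          have hp : 0 < 1 + 1 / ((N : ℝ) + 1) := by positivity
          rw [Real.rpow_def_of_pos hp]
          have h3 := Real.log_le_sub_one_of_pos hp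
          have h4 := Real.add_one_le_exp (Real.log (1 + 1 / ((N : ℝ) + 1)) * -s)
          have h5 : s * Real.log (1 + 1 / ((N : ℝ) + 1)) ≤ s * (1 / ((N : ℝ) + 1)) := by
            apply mul_le_mul_of_nonneg_left _ hs.le
            linarith
          linarith
        rw [e1, e2, div_le_iff₀ hs]
        have h6 : 0 < ((N : ℝ) + 1) ^ (-s) := Real.rpow_pos_of_pos hN0 _
        have h7 := mul_le_mul_of_nonneg_left h2 h6.le
        linarith
      push_cast
      have e3 : (1 - ((N : ℝ) + 1 + 1) ^ (-s)) / s = (1 - ((N : ℝ) + 1) ^ (-s)) / s +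
          (((N : ℝ) + 1) ^ (-s) - ((N : ℝ) + 2) ^ (-s)) / s := by
        rw [show (N : ℝ) + 1 + 1 = N + 2 by ring]
        ring
      rw [e3]
      linarith
  have h1 : Tendsto (fun N : ℕ => (1 - ((N : ℝ) + 1) ^ (-s)) / s) atTop (𝓝 ((1 - 0) / s)) := by
    apply Tendsto.div_const
    apply Tendsto.const_sub
    have := (tendsto_rpow_neg_atTop hs).comp (tendsto_natCast_atTop_atTop (R := ℝ))
    have h2 := (tendsto_rpow_neg_atTop hs).comp ((tendsto_natCast_atTop_atTop (R := ℝ)).atTop_add (tendsto_const_nhds (x := (1 : ℝ))))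
    exact h2
  rw [sub_zero] at h1
  refine le_of_tendsto' h1 fun N => (key N).trans ?_
  exact hsum.sum_le_tsum _ fun n _ => by positivity

/-- Abel summation at the powers of `z`, upper bound -/
theorem abel_pow_upper {σ : ℝ} (hσ : 0 < σ) {z : ℕ} (hz : 2 ≤ z) (n : ℕ) :
    ∑ m ∈ Ioc 0 (z ^ n), fM z m * Real.exp (-(σ * (Real.log m / Real.log z))) ≤
    ∑ i ∈ range n, MM z ((z : ℝ) ^ ((i : ℝ) + 1)) * (Real.exp (-(σ * i)) - Real.exp (-(σ * (i + 1)))) +
      MM z ((z : ℝ) ^ (n : ℝ)) * Real.exp (-(σ * n)) := by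
  have hz0 : (0 : ℝ) < z := by positivity
  have hlz : 0 < Real.log z := Real.log_pos (by exact_mod_cast (by omega : 1 < z))
  have hMM : ∀ i : ℕ, MM z ((z : ℝ) ^ (i : ℝ)) = ∑ m ∈ Ioc 0 (z ^ i), fM z m := by
    intro i
    unfold MM
    rw [Real.rpow_natCast]
    congr 2
    exact_mod_cast Nat.floor_natCast (R := ℝ) (z ^ i)
  induction n with
  | zero =>
    rw [hMM]
    have e1 : Ioc 0 (z ^ 0) = {1} := by ext; simp [mem_Ioc]; omega
    rw [e1]
    simp
  | succ n ih =>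
    rw [sum_range_succ]
    have hsub : Ioc 0 (z ^ n) ⊆ Ioc 0 (z ^ (n + 1)) :=
      Ioc_subset_Ioc le_rfl (Nat.pow_le_pow_right (by omega) (by omega))
    have h1 : ∑ m ∈ Ioc 0 (z ^ (n + 1)), fM z m * Real.exp (-(σ * (Real.log m / Real.log z))) =
        ∑ m ∈ Ioc 0 (z ^ (n + 1)) \ Ioc 0 (z ^ n), fM z m * Real.exp (-(σ * (Real.log m / Real.log z))) +
        ∑ m ∈ Ioc 0 (z ^ n), fM z m * Real.exp (-(σ * (Real.log m / Real.log z))) :=
      (sum_sdiff hsub).symm
    have h2 : MM z ((z : ℝ) ^ ((n + 1 : ℕ) : ℝ)) = ∑ m ∈ Ioc 0 (z ^ (n + 1)) \ Ioc 0 (z ^ n), fM z m +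
        MM z ((z : ℝ) ^ (n : ℝ)) := by
      rw [hMM, hMM]; exact (sum_sdiff hsub).symm
    have h3 : ∑ m ∈ Ioc 0 (z ^ (n + 1)) \ Ioc 0 (z ^ n), fM z m * Real.exp (-(σ * (Real.log m / Real.log z))) ≤
        (∑ m ∈ Ioc 0 (z ^ (n + 1)) \ Ioc 0 (z ^ n), fM z m) * Real.exp (-(σ * n)) := by
      rw [sum_mul]
      apply sum_le_sum
      intro m hm
      rw [Finset.mem_sdiff, mem_Ioc, mem_Ioc] at hm
      apply mul_le_mul_of_nonneg_left _ (fM_nonneg z m)
      apply Real.exp_le_exp.2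
      have hm1 : z ^ n < m := by
        by_contra h
        exact hm.2 ⟨hm.1.1, by omega⟩
      have hzn : (0 : ℝ) < (z : ℝ) ^ n := by positivity
      have h4 : n * Real.log z ≤ Real.log m := by
        have h5 : (z : ℝ) ^ n ≤ m := by exact_mod_cast hm1.le
        calc n * Real.log z = Real.log ((z : ℝ) ^ n) := by rw [Real.log_pow]
          _ ≤ Real.log m := Real.log_le_log hzn h5
      have h5 : (n : ℝ) ≤ Real.log m / Real.log z := by
        rw [le_div_iff₀ hlz]; exact h4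
      have := mul_le_mul_of_nonneg_left h5 hσ.le
      linarith
    rw [h1, h2]
    have e0 : MM z ((z : ℝ) ^ ((n : ℝ) + 1)) = ∑ m ∈ Ioc 0 (z ^ (n + 1)) \ Ioc 0 (z ^ n), fM z m +
        MM z ((z : ℝ) ^ (n : ℝ)) := by
      rw [← h2]; push_cast; rfl
    rw [e0]
    push_cast
    set A := ∑ m ∈ Ioc 0 (z ^ (n + 1)) \ Ioc 0 (z ^ n), fM z m
    set Bn := MM z ((z : ℝ) ^ (n : ℝ))
    have e : (A + Bn) * (Real.exp (-(σ * n)) - Real.exp (-(σ * (n + 1)))) + (A + Bn) * Real.exp (-(σ * (n + 1))) =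
      A * Real.exp (-(σ * n)) + Bn * Real.exp (-(σ * n)) := by ring
    linarith

theorem rgh_iff (z m : ℕ) : Rgh z m ↔ ∀ p ∈ Pz z, ¬ p ∣ m := by
  constructor
  · intro h p hp; exact h p (mem_Pz.1 hp).1 (mem_Pz.1 hp).2
  · intro h p hp hpz; exact h p (mem_Pz.2 ⟨hp, hpz⟩)

theorem gP_eq {σ : ℝ} {z : ℕ} (hlz : 0 < Real.log z) {m : ℕ} (hm : 0 < m) :
    gP (σ / Real.log z) (Pz z) m = fM z m * Real.exp (-(σ * (Real.log m / Real.log z))) := by
  classical
  have hm0 : (0 : ℝ) < m := by exact_mod_cast hm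
  rw [fM_apply]
  unfold gP
  rw [if_congr (rgh_iff z m).symm rfl rfl]
  split_ifs
  · rw [show -1 - σ / Real.log z = (-1) + (-(σ / Real.log z)) by ring, Real.rpow_add hm0, Real.rpow_neg_one]
    congr 1
    rw [Real.rpow_def_of_pos hm0]
    congr 1
    field_simp
  · simp

theorem gP_zero {s : ℝ} (hs : 0 < s) (P : Finset ℕ) : gP s P 0 = 0 := by
  unfold gP
  split_ifs
  · rw [Nat.cast_zero, Real.zero_rpow (by linarith)]
  · rfl

/-- the lower bound for the Laplace sums -/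
theorem lap_low : ∀ σ : ℝ, 0 < σ → ∃ (B : ℝ) (z₀ : ℕ), 2 ≤ z₀ ∧ ∀ z : ℕ, z₀ ≤ z → ∀ n : ℕ,
    V z * Real.log z / σ ≤
      ∑ i ∈ range n, MM z ((z : ℝ) ^ ((i : ℝ) + 1)) * (Real.exp (-(σ * i)) - Real.exp (-(σ * (i + 1)))) +
        B * Real.exp (-(σ / 2 * n)) := by
  intro σ hσ
  obtain ⟨c₁, c₂, hc₁, hc₁₂, hcz⟩ := cz_bounds
  obtain ⟨z₀, hz₀, hR⟩ := rankin (σ / 2) (by positivity) 1 one_pos
  set B₁ := c₂ / (σ / 2) * Real.exp (2 * (σ / 2)) * (1 + 1) with hB₁
  refine ⟨2 * B₁, z₀, hz₀, fun z hz n => ?_⟩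
  have hz2 : 2 ≤ z := hz₀.trans hz
  have hz0 : (0 : ℝ) < z := by positivity
  have hlz : 0 < Real.log z := Real.log_pos (by exact_mod_cast (by omega : 1 < z))
  have hRB : ∀ N : ℕ, ∑ m ∈ Ioc 0 N, fM z m * Real.exp (-(σ / 2 * (Real.log m / Real.log z))) ≤ B₁ := by
    intro N
    refine (hR z hz N).trans ?_
    have := (hcz z hz2).2
    rw [hB₁]
    gcongr
  have hs : 0 < σ / Real.log z := by positivity
  have hs2 : 0 < σ / 2 / Real.log z := by positivity
  -- lower bound for the total sum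
  have h1 : V z * Real.log z / σ ≤ ∑' m, gP (σ / Real.log z) (Pz z) m := by
    rw [gP_tsum hs (Pz z) (fun q hq => (mem_Pz.1 hq).1)]
    have h2 := tsum_pow_ge hs
    have h3 : V z ≤ ∏ p ∈ Pz z, (1 - (p : ℝ) ^ (-1 - σ / Real.log z)) := by
      unfold V
      apply Finset.prod_le_prod
      · intro p hp; exact (one_sub_inv_pos (mem_Pz.1 hp).1).le
      · intro p hp
        have hp1 : (1 : ℝ) ≤ p := by exact_mod_cast (mem_Pz.1 hp).1.one_lt.le
        have : (p : ℝ) ^ (-1 - σ / Real.log z) ≤ (p : ℝ) ^ (-1 : ℝ) :=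
          Real.rpow_le_rpow_of_exponent_le hp1 (by linarith)
        rw [Real.rpow_neg_one] at this
        rw [one_div]
        linarith
    have h4 : V z * Real.log z / σ = V z * (1 / (σ / Real.log z)) := by
      field_simp
    rw [h4]
    have h5 : 0 < V z := V_pos z
    have h6 : 0 < 1 / (σ / Real.log z) := by positivity
    exact mul_le_mul h3 h2 h6.le (h5.le.trans h3)
  -- the tail
  have h2 : ∑' m, gP (σ / Real.log z) (Pz z) m ≤ ∑ m ∈ Ioc 0 (z ^ n), gP (σ / Real.log z) (Pz z) m +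
      Real.exp (-(σ / 2 * n)) * B₁ := by
    have hS1 := gP_summable hs (Pz z)
    have hS2 := gP_summable hs2 (Pz z)
    have h3 : ∑' m, gP (σ / 2 / Real.log z) (Pz z) m ≤ B₁ := by
      apply Real.tsum_le_of_sum_range_le (fun m => gP_nonneg _ _ m)
      intro N
      rcases Nat.eq_zero_or_pos N with rfl | hN
      · have := hRB 0; simpa using this
      · obtain ⟨k, rfl⟩ : ∃ k, N = k + 1 := ⟨N - 1, by omega⟩
        rw [sum_range_succ']
        rw [gP_zero hs2, add_zero]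
        refine le_trans (le_of_eq ?_) (hRB k)
        have e0 : Ioc 0 k = (range k).image (fun i => i + 1) := by
          ext x; simp only [mem_Ioc, mem_image, mem_range]
          constructor
          · intro h; exact ⟨x - 1, by omega, by omega⟩
          · rintro ⟨y, hy, rfl⟩; omega
        rw [e0, sum_image (by intro a _ b _ h; simpa using h)]
        apply sum_congr rfl
        intro i _
        exact gP_eq hlz (by omega)
    have h4 : ∀ m, gP (σ / Real.log z) (Pz z) m ≤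
        (if m ∈ Ioc 0 (z ^ n) then gP (σ / Real.log z) (Pz z) m else 0) +
        Real.exp (-(σ / 2 * n)) * gP (σ / 2 / Real.log z) (Pz z) m := by
      intro m
      have hnn : 0 ≤ Real.exp (-(σ / 2 * n)) * gP (σ / 2 / Real.log z) (Pz z) m :=
        mul_nonneg (Real.exp_pos _).le (gP_nonneg _ _ _)
      split_ifs with h
      · linarith
      · rcases Nat.eq_zero_or_pos m with rfl | hm
        · rw [gP_zero hs]; linarith
        · have hm1 : z ^ n < m := by
            by_contra hcon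
            exact h (mem_Ioc.2 ⟨hm, by omega⟩)
          rw [gP_eq hlz hm, gP_eq hlz hm, zero_add]
          have hzn : (0 : ℝ) < (z : ℝ) ^ n := by positivity
          have h5 : n * Real.log z ≤ Real.log m := by
            have h5 : (z : ℝ) ^ n ≤ m := by exact_mod_cast hm1.le
            calc n * Real.log z = Real.log ((z : ℝ) ^ n) := by rw [Real.log_pow]
              _ ≤ Real.log m := Real.log_le_log hzn h5
          have h6 : (n : ℝ) ≤ Real.log m / Real.log z := by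
            rw [le_div_iff₀ hlz]; exact h5
          have h7 : Real.exp (-(σ * (Real.log m / Real.log z))) ≤
              Real.exp (-(σ / 2 * n)) * Real.exp (-(σ / 2 * (Real.log m / Real.log z))) := by
            rw [← Real.exp_add]
            apply Real.exp_le_exp.2
            nlinarith
          have h8 := mul_le_mul_of_nonneg_left h7 (fM_nonneg z m)
          linarith
    have hS3 : Summable (fun m => if m ∈ Ioc 0 (z ^ n) then gP (σ / Real.log z) (Pz z) m else 0) :=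
      summable_of_ne_finset_zero (s := Ioc 0 (z ^ n)) (fun m hm => by rw [if_neg hm])
    have h5 := hS1.tsum_le_tsum h4 (hS3.add (hS2.mul_left _))
    rw [hS3.tsum_add (hS2.mul_left _), tsum_mul_left] at h5
    have h6 : ∑' m, (if m ∈ Ioc 0 (z ^ n) then gP (σ / Real.log z) (Pz z) m else 0) =
        ∑ m ∈ Ioc 0 (z ^ n), gP (σ / Real.log z) (Pz z) m := by
      rw [tsum_eq_sum (s := Ioc 0 (z ^ n))]
      · apply sum_congr rfl; intro m hm; rw [if_pos hm]
      · intro m hm; rw [if_neg hm]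
    rw [h6] at h5
    have h7 := mul_le_mul_of_nonneg_left h3 (Real.exp_pos (-(σ / 2 * n))).le
    linarith
  have h3 : ∑ m ∈ Ioc 0 (z ^ n), gP (σ / Real.log z) (Pz z) m =
      ∑ m ∈ Ioc 0 (z ^ n), fM z m * Real.exp (-(σ * (Real.log m / Real.log z))) := by
    apply sum_congr rfl
    intro m hm
    exact gP_eq hlz (mem_Ioc.1 hm).1
  have h4 := abel_pow_upper hσ hz2 n
  -- the last term
  have h5 : MM z ((z : ℝ) ^ (n : ℝ)) * Real.exp (-(σ * n)) ≤ B₁ * Real.exp (-(σ / 2 * n)) := by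
    have h6 : MM z ((z : ℝ) ^ (n : ℝ)) * Real.exp (-(σ / 2 * n)) ≤ B₁ := by
      refine le_trans ?_ (hRB (z ^ n))
      have e : MM z ((z : ℝ) ^ (n : ℝ)) = ∑ m ∈ Ioc 0 (z ^ n), fM z m := by
        unfold MM
        rw [Real.rpow_natCast]
        congr 2
        exact_mod_cast Nat.floor_natCast (R := ℝ) (z ^ n)
      rw [e, sum_mul]
      apply sum_le_sum
      intro m hm
      rw [mem_Ioc] at hm
      apply mul_le_mul_of_nonneg_left _ (fM_nonneg z m)
      apply Real.exp_le_exp.2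
      have hm0 : (0 : ℝ) < m := by exact_mod_cast hm.1
      have h4 : Real.log m ≤ n * Real.log z := by
        have h5 : (m : ℝ) ≤ (z : ℝ) ^ n := by exact_mod_cast hm.2
        calc Real.log m ≤ Real.log ((z : ℝ) ^ n) := Real.log_le_log hm0 h5
          _ = n * Real.log z := by rw [Real.log_pow]
      have h5 : Real.log m / Real.log z ≤ n := by
        rw [div_le_iff₀ hlz]; exact h4
      have := mul_le_mul_of_nonneg_left h5 (show 0 ≤ σ / 2 by positivity)
      linarith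
    have e : Real.exp (-(σ * n)) = Real.exp (-(σ / 2 * n)) * Real.exp (-(σ / 2 * n)) := by
      rw [← Real.exp_add]; ring_nf
    rw [e, ← mul_assoc]
    exact mul_le_mul_of_nonneg_right h6 (Real.exp_pos _).le
  rw [h3] at h2
  linarith

theorem NT1H (U₀ : ℝ) : ∃ δ : ℝ, 0 < δ ∧ ∃ (K : ℝ) (z₀ : ℕ), ∀ z : ℕ, z₀ ≤ z → ∃ v₁ v₂ : ℝ,
    U₀ ≤ v₁ ∧ v₁ + δ ≤ v₂ ∧ v₂ ≤ K ∧
    (1 + δ) * (V z * Real.log z) * (v₂ - v₁) ≤ MM z ((z : ℝ) ^ v₂) - MM z ((z : ℝ) ^ v₁) := by
  -- reduce to U₀ ≥ 0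
  suffices H : ∀ U₀ : ℝ, 0 ≤ U₀ → ∃ δ : ℝ, 0 < δ ∧ ∃ (K : ℝ) (z₀ : ℕ), ∀ z : ℕ, z₀ ≤ z → ∃ v₁ v₂ : ℝ,
      U₀ ≤ v₁ ∧ v₁ + δ ≤ v₂ ∧ v₂ ≤ K ∧
      (1 + δ) * (V z * Real.log z) * (v₂ - v₁) ≤ MM z ((z : ℝ) ^ v₂) - MM z ((z : ℝ) ^ v₁) by
    obtain ⟨δ, hδ, K, z₀, h⟩ := H (max U₀ 0) (le_max_right _ _)
    refine ⟨δ, hδ, K, z₀, fun z hz => ?_⟩
    obtain ⟨v₁, v₂, h1, h2⟩ := h z hz
    exact ⟨v₁, v₂, (le_max_left _ _).trans h1, h2⟩
  clear U₀
  intro U₀ hU₀
  by_contra hcon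
  push Not at hcon
  have hcon' : ∀ j : ℕ, ∃ z : ℕ, j + 2 ≤ z ∧ ∀ v₁ v₂ : ℝ, U₀ ≤ v₁ → v₁ + 1 / ((j : ℝ) + 1) ≤ v₂ → v₂ ≤ j →
      MM z ((z : ℝ) ^ v₂) - MM z ((z : ℝ) ^ v₁) < (1 + 1 / ((j : ℝ) + 1)) * (V z * Real.log z) * (v₂ - v₁) := by
    intro j
    obtain ⟨z, hz, h⟩ := hcon (1 / ((j : ℝ) + 1)) (by positivity) j (j + 2)
    exact ⟨z, hz, fun v₁ v₂ h1 h2 h3 => h v₁ v₂ h1 h2 h3⟩
  choose zs hzs hzs2 using hcon'
  set U : Ultrafilter ℕ := hyperfilter ℕ with hU
  have hUle : (U : Filter ℕ) ≤ atTop := by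
    rw [hU, ← Nat.cofinite_eq_atTop]; exact hyperfilter_le_cofinite
  have hzT : Tendsto zs U atTop := by
    have : Tendsto zs atTop atTop := tendsto_atTop_mono (fun j => (show j ≤ zs j by have := hzs j; omega)) tendsto_id
    exact this.mono_left hUle
  have hlT : Tendsto (fun j => Real.log (zs j)) U atTop :=
    Real.tendsto_log_atTop.comp (tendsto_natCast_atTop_atTop.comp hzT)
  have hz2 : ∀ j, 2 ≤ zs j := fun j => by have := hzs j; omega
  have hz0 : ∀ j, (0 : ℝ) < zs j := fun j => by exact_mod_cast (by have := hz2 j; omega : 0 < zs j)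
  have hz1 : ∀ j, (1 : ℝ) ≤ zs j := fun j => by exact_mod_cast (by have := hz2 j; omega : 1 ≤ zs j)
  have hlz : ∀ j, 0 < Real.log (zs j) := fun j => Real.log_pos (by exact_mod_cast (by have := hz2 j; omega : 1 < zs j))
  obtain ⟨B, z₀, hB, hz₀, hMB⟩ := MM_bound
  have hevB : ∀ᶠ j in (U : Filter ℕ), z₀ ≤ zs j := hzT.eventually_ge_atTop z₀
  -- the limits
  have hMex : ∀ v : ℝ, ∃ L : ℝ, 0 ≤ v → Tendsto (fun j => MM (zs j) ((zs j : ℝ) ^ v)) U (𝓝 L) := by
    intro v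
    by_cases hv : 0 ≤ v
    · obtain ⟨L, hL⟩ := exists_ulim U (fun j => MM (zs j) ((zs j : ℝ) ^ v)) (B * Real.exp v) (by
        filter_upwards [hevB] with j hj
        rw [abs_of_nonneg (MM_nonneg _ _)]
        exact hMB (zs j) hj v hv)
      exact ⟨L, fun _ => hL⟩
    · exact ⟨0, fun h => absurd h hv⟩
  choose M hM using hMex
  have hIlow : ∀ j, ∀ v : ℝ, 0 ≤ v → 0 ≤ II (zs j) ((zs j : ℝ) ^ v) ∧
      II (zs j) ((zs j : ℝ) ^ v) ≤ MM (zs j) ((zs j : ℝ) ^ v) * (v * Real.log (zs j)) := by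
    intro j v hv
    have h1 : (1 : ℝ) ≤ (zs j : ℝ) ^ v := Real.one_le_rpow (hz1 j) hv
    have h2 := II_diff (z := zs j) one_pos h1
    have h3 : II (zs j) 1 = 0 := by
      rw [II_small le_rfl (by linarith [hz0 j]), Real.log_one]
    rw [h3, div_one, Real.log_rpow (hz0 j), sub_zero] at h2
    refine ⟨?_, h2.2⟩
    refine le_trans ?_ h2.1
    exact mul_nonneg (MM_nonneg _ _) (mul_nonneg hv (hlz j).le)
  have hJex : ∀ v : ℝ, ∃ L : ℝ, 0 ≤ v → Tendsto (fun j => II (zs j) ((zs j : ℝ) ^ v) / Real.log (zs j)) U (𝓝 L) := by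
    intro v
    by_cases hv : 0 ≤ v
    · obtain ⟨L, hL⟩ := exists_ulim U (fun j => II (zs j) ((zs j : ℝ) ^ v) / Real.log (zs j)) (B * Real.exp v * v) (by
        filter_upwards [hevB] with j hj
        have h1 := hIlow j v hv
        rw [abs_of_nonneg (div_nonneg h1.1 (hlz j).le), div_le_iff₀ (hlz j)]
        refine h1.2.trans ?_
        have h2 := hMB (zs j) hj v hv
        calc MM (zs j) ((zs j : ℝ) ^ v) * (v * Real.log (zs j)) ≤ (B * Real.exp v) * (v * Real.log (zs j)) :=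
              mul_le_mul_of_nonneg_right h2 (mul_nonneg hv (hlz j).le)
          _ = B * Real.exp v * v * Real.log (zs j) := by ring)
      exact ⟨L, fun _ => hL⟩
    · exact ⟨0, fun h => absurd h hv⟩
  choose J hJ using hJex
  obtain ⟨c₁, c₂, hc₁, hc₁₂, hcz⟩ := cz_bounds
  obtain ⟨c, hc⟩ := exists_ulim U (fun j => V (zs j) * Real.log (zs j)) c₂ (by
    refine Eventually.of_forall fun j => ?_
    have := hcz (zs j) (hz2 j)
    rw [abs_of_nonneg (by linarith)]
    exact this.2)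
  have hcpos : 0 < c := lt_of_lt_of_le hc₁ (ge_of_tendsto' hc fun j => (hcz (zs j) (hz2 j)).1)
  apply no_such_high (M := M) (J := J) (c := c) (U := U₀)
  · -- J 0 = 0
    have h1 := hJ 0 le_rfl
    have h2 : (fun j => II (zs j) ((zs j : ℝ) ^ (0 : ℝ)) / Real.log (zs j)) = fun _ => (0 : ℝ) := by
      funext j
      rw [Real.rpow_zero, II_small le_rfl (by linarith [hz0 j]), Real.log_one, zero_div]
    rw [h2] at h1
    exact tendsto_nhds_unique h1 tendsto_const_nhds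
  · intro v hv hv1
    have h1 := hM v hv
    have h2 : (fun j => MM (zs j) ((zs j : ℝ) ^ v)) = fun _ => (1 : ℝ) := by
      funext j
      apply MM_small (Real.one_le_rpow (hz1 j) hv)
      calc (zs j : ℝ) ^ v ≤ (zs j : ℝ) ^ (1 : ℝ) := Real.rpow_le_rpow_of_exponent_le (hz1 j) hv1.le
        _ = zs j := Real.rpow_one _
        _ < zs j + 1 := by linarith
    rw [h2] at h1
    exact tendsto_nhds_unique h1 tendsto_const_nhds
  · intro v w hv hvw
    have hw : 0 ≤ w := hv.trans hvw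
    have key : ∀ j, (w - v) * MM (zs j) ((zs j : ℝ) ^ v) ≤
        II (zs j) ((zs j : ℝ) ^ w) / Real.log (zs j) - II (zs j) ((zs j : ℝ) ^ v) / Real.log (zs j) ∧
        II (zs j) ((zs j : ℝ) ^ w) / Real.log (zs j) - II (zs j) ((zs j : ℝ) ^ v) / Real.log (zs j) ≤
        (w - v) * MM (zs j) ((zs j : ℝ) ^ w) := by
      intro j
      have h0 : (0 : ℝ) < (zs j : ℝ) ^ v := Real.rpow_pos_of_pos (hz0 j) v
      have h1 : (zs j : ℝ) ^ v ≤ (zs j : ℝ) ^ w := Real.rpow_le_rpow_of_exponent_le (hz1 j) hvw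
      have h2 := II_diff (z := zs j) h0 h1
      have h3 : Real.log ((zs j : ℝ) ^ w / (zs j : ℝ) ^ v) = (w - v) * Real.log (zs j) := by
        rw [← Real.rpow_sub (hz0 j), Real.log_rpow (hz0 j)]
      rw [h3] at h2
      rw [← sub_div]
      constructor
      · rw [le_div_iff₀ (hlz j)]; linarith [h2.1]
      · rw [div_le_iff₀ (hlz j)]; linarith [h2.2]
    exact ⟨le_of_tendsto_of_tendsto' ((hM v hv).const_mul (w - v)) ((hJ w hw).sub (hJ v hv)) fun j => (key j).1,
      le_of_tendsto_of_tendsto' ((hJ w hw).sub (hJ v hv)) ((hM w hw).const_mul (w - v)) fun j => (key j).2⟩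
  · intro v hv
    obtain ⟨C, hC, hmain⟩ := main_eq
    have hv0 : 0 ≤ v := by linarith
    have h1 : Tendsto (fun j => v * MM (zs j) ((zs j : ℝ) ^ v) - II (zs j) ((zs j : ℝ) ^ v) / Real.log (zs j) -
        II (zs j) ((zs j : ℝ) ^ (v - 1)) / Real.log (zs j)) U (𝓝 (v * M v - J v - J (v - 1))) :=
      (((hM v hv0).const_mul v).sub (hJ v hv0)).sub (hJ (v - 1) (by linarith))
    have h2 : Tendsto (fun j => v * MM (zs j) ((zs j : ℝ) ^ v) - II (zs j) ((zs j : ℝ) ^ v) / Real.log (zs j) -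
        II (zs j) ((zs j : ℝ) ^ (v - 1)) / Real.log (zs j)) U (𝓝 0) := by
      rw [tendsto_zero_iff_abs_tendsto_zero]
      have h3 : Tendsto (fun j => C * MM (zs j) ((zs j : ℝ) ^ v) / Real.log (zs j)) U (𝓝 0) :=
        ((hM v hv0).const_mul C).div_atTop hlT
      refine squeeze_zero (fun j => abs_nonneg _) (fun j => ?_) h3
      have h4 := hmain (zs j) ((zs j : ℝ) ^ v) (by have := hz2 j; omega) (Real.one_le_rpow (hz1 j) hv0)
      have h5 : (zs j : ℝ) ^ v / zs j = (zs j : ℝ) ^ (v - 1) := by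
        rw [Real.rpow_sub (hz0 j), Real.rpow_one]
      rw [h5, Real.log_rpow (hz0 j)] at h4
      simp only [Function.comp]
      have h6 : v * MM (zs j) ((zs j : ℝ) ^ v) - II (zs j) ((zs j : ℝ) ^ v) / Real.log (zs j) -
        II (zs j) ((zs j : ℝ) ^ (v - 1)) / Real.log (zs j) =
        (v * Real.log (zs j) * MM (zs j) ((zs j : ℝ) ^ v) - II (zs j) ((zs j : ℝ) ^ v) -
        II (zs j) ((zs j : ℝ) ^ (v - 1))) / Real.log (zs j) := by
        have := (hlz j).ne'
        field_simp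
      rw [h6, abs_div, abs_of_pos (hlz j)]
      exact div_le_div_of_nonneg_right h4 (hlz j).le
    have := tendsto_nhds_unique h1 h2
    linarith
  · exact hcpos
  · intro v w hv hvw
    rcases hvw.eq_or_lt with rfl | hlt
    · simp
    have hv0 : 0 ≤ v := hU₀.trans hv
    have hw0 : 0 ≤ w := hv0.trans hvw
    have h1 : Tendsto (fun j : ℕ => (1 + 1 / ((j : ℝ) + 1)) * (V (zs j) * Real.log (zs j)) * (w - v)) U
        (𝓝 ((1 + 0) * c * (w - v))) := by
      refine ((tendsto_const_nhds.add ?_).mul hc).mul_const _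
      exact tendsto_one_div_add_atTop_nhds_zero_nat.mono_left hUle
    rw [add_zero, one_mul] at h1
    refine le_of_tendsto_of_tendsto ((hM w hw0).sub (hM v hv0)) h1 ?_
    have e1 : ∀ᶠ j : ℕ in atTop, w ≤ j := (tendsto_natCast_atTop_atTop).eventually_ge_atTop w
    have e2 : ∀ᶠ j : ℕ in atTop, 1 / ((j : ℝ) + 1) < w - v :=
      tendsto_one_div_add_atTop_nhds_zero_nat.eventually (gt_mem_nhds (by linarith))
    filter_upwards [hUle e1, hUle e2] with j h3 h4
    exact (hzs2 j v w hv (by linarith) h3).le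
  · intro σ hσ hσ1
    obtain ⟨B', z₁, hz₁, hL⟩ := lap_low σ hσ
    refine ⟨B', fun n => ?_⟩
    have h1 : Tendsto (fun j => ∑ i ∈ range n, MM (zs j) ((zs j : ℝ) ^ ((i : ℝ) + 1)) *
        (Real.exp (-(σ * i)) - Real.exp (-(σ * (i + 1)))) + B' * Real.exp (-(σ / 2 * n))) U
        (𝓝 (∑ i ∈ range n, M (i + 1) * (Real.exp (-(σ * i)) - Real.exp (-(σ * (i + 1)))) +
          B' * Real.exp (-(σ / 2 * n)))) := by
      apply Tendsto.add_const
      apply tendsto_finsetSum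
      intro i _
      exact (hM ((i : ℝ) + 1) (by positivity)).mul_const _
    have h2 : Tendsto (fun j => V (zs j) * Real.log (zs j) / σ) U (𝓝 (c / σ)) := hc.div_const σ
    refine le_of_tendsto_of_tendsto h2 h1 ?_
    filter_upwards [hzT.eventually_ge_atTop z₁] with j hj
    exact hL (zs j) hj n

end Pool.Agent.H318R2.Cr
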