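import Mathlib
import Pool.Agent.H318R2.Cr.Low
import Pool.Agent.H318R2.Cr.UltraH

set_option autoImplicit false

namespace Pool.Agent.H318R2.Cr

open Filter Topology Finset

theorem sum_fM_le (z a h : ℕ) (ha : 1 ≤ a) : ∑ m ∈ Ioc a (a + h), fM z m ≤ (cnt z a h : ℝ) / a := by
  classical
  unfold cnt
  have hp : (0 : ℝ) < a := by exact_mod_cast ha
  calc ∑ m ∈ Ioc a (a + h), fM z m = ∑ m ∈ (Ioc a (a + h)).filter (Rgh z), (m : ℝ)⁻¹ := by
        rw [sum_filter]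
        apply sum_congr rfl
        intro m _
        rw [fM_apply]
    _ ≤ ∑ _m ∈ (Ioc a (a + h)).filter (Rgh z), (a : ℝ)⁻¹ := by
        apply sum_le_sum
        intro m hm
        rw [mem_filter, mem_Ioc] at hm
        exact inv_anti₀ hp (by exact_mod_cast hm.1.1.le)
    _ = (((Ioc a (a + h)).filter (Rgh z)).card : ℝ) / a := by
        rw [sum_const, nsmul_eq_mul, div_eq_mul_inv]

theorem block_sum_le {z a h : ℕ} {c : ℝ} (ha : 1 ≤ a) (hc : 0 ≤ c) (n : ℕ)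
    (H : ∀ i < n + 1, (cnt z (a + i * h) h : ℝ) ≤ c * h) :
    ∑ m ∈ Ioc a (a + (n + 1) * h), fM z m ≤ c * (Real.log (((a + n * h : ℕ) : ℝ) / a) + h / a) := by
  have ha0 : (0 : ℝ) < a := by exact_mod_cast ha
  induction n with
  | zero =>
    have h1 := sum_fM_le z a h ha
    have h2 := H 0 (by omega)
    rw [Nat.zero_mul, Nat.add_zero] at h2
    have e0 : a + 0 * h = a := by ring
    have e1 : a + (0 + 1) * h = a + h := by ring
    rw [e0, e1, div_self ha0.ne', Real.log_one, zero_add]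
    refine h1.trans ?_
    rw [← mul_div_assoc]
    exact div_le_div_of_nonneg_right h2 ha0.le
  | succ n ih =>
    have ih' := ih fun i hi => H i (by omega)
    have hn := H (n + 1) (by omega)
    have e1 : a + (n + 1 + 1) * h = (a + (n + 1) * h) + h := by ring
    have h1 : ∑ m ∈ Ioc a (a + (n + 1 + 1) * h), fM z m =
        ∑ m ∈ Ioc a (a + (n + 1) * h), fM z m +
        ∑ m ∈ Ioc (a + (n + 1) * h) (a + (n + 1) * h + h), fM z m := by
      rw [e1, sum_Ioc_consecutive _ (by omega) (by omega)]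
    have h2 := sum_fM_le z (a + (n + 1) * h) h (by omega)
    have hp1 : (0 : ℝ) < ((a + (n + 1) * h : ℕ) : ℝ) := by exact_mod_cast (by omega : 0 < a + (n + 1) * h)
    have hp2 : (0 : ℝ) < ((a + n * h : ℕ) : ℝ) := by exact_mod_cast (by omega : 0 < a + n * h)
    have h3 : (cnt z (a + (n + 1) * h) h : ℝ) / ((a + (n + 1) * h : ℕ) : ℝ) ≤ c * h / ((a + (n + 1) * h : ℕ) : ℝ) :=
      div_le_div_of_nonneg_right hn hp1.le
    have h4 : Real.log (((a + n * h : ℕ) : ℝ) / a) + h / ((a + (n + 1) * h : ℕ) : ℝ) ≤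
        Real.log (((a + (n + 1) * h : ℕ) : ℝ) / a) := by
      have e3 : ((a + n * h : ℕ) : ℝ) / a =
          (((a + (n + 1) * h : ℕ) : ℝ) / a) * (((a + n * h : ℕ) : ℝ) / ((a + (n + 1) * h : ℕ) : ℝ)) := by
        field_simp
      rw [e3, Real.log_mul (by positivity) (by positivity)]
      have h5 := Real.log_le_sub_one_of_pos (show 0 < ((a + n * h : ℕ) : ℝ) / ((a + (n + 1) * h : ℕ) : ℝ) by positivity)
      have e4 : ((a + n * h : ℕ) : ℝ) / ((a + (n + 1) * h : ℕ) : ℝ) - 1 = - (h / ((a + (n + 1) * h : ℕ) : ℝ)) := by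
        field_simp
        push_cast
        ring
      linarith
    have h5 := mul_le_mul_of_nonneg_left h4 hc
    have e5 : c * h / ((a + (n + 1) * h : ℕ) : ℝ) = c * (h / ((a + (n + 1) * h : ℕ) : ℝ)) := by ring
    rw [h1]
    rw [e5] at h3
    have e6 : c * (Real.log (((a + n * h : ℕ) : ℝ) / a) + h / ((a + (n + 1) * h : ℕ) : ℝ)) =
      c * Real.log (((a + n * h : ℕ) : ℝ) / a) + c * (h / ((a + (n + 1) * h : ℕ) : ℝ)) := by ring
    have e7 : c * (Real.log (((a + n * h : ℕ) : ℝ) / a) + h / a) = c * Real.log (((a + n * h : ℕ) : ℝ) / a) + c * (h / a) := by ring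
    have e8 : c * (Real.log (((a + (n + 1) * h : ℕ) : ℝ) / a) + h / a) = c * Real.log (((a + (n + 1) * h : ℕ) : ℝ) / a) + c * (h / a) := by ring
    rw [e6] at h5
    rw [e7] at ih'
    rw [e8]
    linarith

theorem highInt (U₀ : ℝ) : ∃ δ : ℝ, 0 < δ ∧ ∃ (K : ℝ) (z₀ : ℕ), ∀ z : ℕ, z₀ ≤ z → ∀ h : ℕ, 1 ≤ h →
    (h : ℝ) ≤ (z : ℝ) ^ U₀ → ∃ a : ℕ, (a : ℝ) ≤ (z : ℝ) ^ K ∧ (1 + δ) * (h * V z) ≤ cnt z a h := by
  obtain ⟨δ₁, hδ₁, K, z₀, hNT⟩ := NT1H (max (U₀ + 1) 1)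
  have hlog : Tendsto (fun z : ℕ => Real.log z) atTop atTop :=
    Real.tendsto_log_atTop.comp tendsto_natCast_atTop_atTop
  set δ := min (δ₁ / 2) 1 with hδ
  have hδpos : 0 < δ := by positivity
  have hδ1 : δ ≤ δ₁ / 2 := min_le_left _ _
  have hδ2 : δ ≤ 1 := min_le_right _ _
  obtain ⟨z₁, hz₁⟩ := eventually_atTop.1 (hlog.eventually_gt_atTop (8 / (δ * δ₁)))
  refine ⟨δ, hδpos, K, max z₀ (max z₁ 2), fun z hz h hh hhz => ?_⟩
  have hzz₀ : z₀ ≤ z := (le_max_left _ _).trans hz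
  have hzz₁ : z₁ ≤ z := (le_max_left _ _).trans ((le_max_right _ _).trans hz)
  have hz2 : 2 ≤ z := (le_max_right _ _).trans ((le_max_right _ _).trans hz)
  have hz0 : (0 : ℝ) < z := by positivity
  have hz1 : (1 : ℝ) ≤ z := by exact_mod_cast (by omega : 1 ≤ z)
  have hz2' : (2 : ℝ) ≤ z := by exact_mod_cast hz2
  have hlz : 0 < Real.log z := Real.log_pos (by exact_mod_cast (by omega : 1 < z))
  obtain ⟨v₁, v₂, hv1, hv12, hv2, hMM⟩ := hNT z hzz₀
  have hv1' : U₀ + 1 ≤ v₁ := (le_max_left _ _).trans hv1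
  have hv1'' : 1 ≤ v₁ := (le_max_right _ _).trans hv1
  by_contra hcon
  push Not at hcon
  set x₁ := (z : ℝ) ^ v₁ with hx₁
  set x₂ := (z : ℝ) ^ v₂ with hx₂
  have hx₁1 : 2 ≤ x₁ := by
    calc (2 : ℝ) ≤ z := hz2'
      _ = (z : ℝ) ^ (1 : ℝ) := (Real.rpow_one _).symm
      _ ≤ (z : ℝ) ^ v₁ := Real.rpow_le_rpow_of_exponent_le hz1 hv1''
  have hx12 : x₁ ≤ x₂ := Real.rpow_le_rpow_of_exponent_le hz1 (by linarith)
  have hx₂K : x₂ ≤ (z : ℝ) ^ K := Real.rpow_le_rpow_of_exponent_le hz1 hv2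
  set a := ⌊x₁⌋₊ with ha
  set b := ⌊x₂⌋₊ with hb
  have hab : a ≤ b := Nat.floor_le_floor hx12
  have ha1 : 1 ≤ a := by
    rw [ha]; apply Nat.le_floor; push_cast; linarith
  set n := (b - a) / h with hn
  have hVpos := V_pos z
  have hc0 : 0 ≤ (1 + δ) * V z := mul_nonneg (by linarith) hVpos.le
  have hnh : n * h ≤ b - a := Nat.div_mul_le_self _ _
  have h1 : ∀ i < n + 1, (cnt z (a + i * h) h : ℝ) ≤ (1 + δ) * V z * h := by
    intro i hi
    have h2 : a + i * h ≤ b := by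
      have : i * h ≤ n * h := Nat.mul_le_mul_right h (by omega)
      omega
    have h3 : ((a + i * h : ℕ) : ℝ) ≤ (z : ℝ) ^ K := by
      have h4 : ((a + i * h : ℕ) : ℝ) ≤ b := by exact_mod_cast h2
      have h5 : (b : ℝ) ≤ x₂ := Nat.floor_le (by linarith)
      linarith
    have := hcon _ h3
    linarith
  have h2 := block_sum_le ha1 hc0 n h1
  have hb' : b < a + (n + 1) * h := by
    have h5 : b - a < (n + 1) * h := by
      have := Nat.lt_mul_of_div_lt (show (b - a) / h < n + 1 by omega) (by omega : 0 < h)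
      exact this
    omega
  have h3 : MM z x₂ - MM z x₁ ≤ ∑ m ∈ Ioc a (a + (n + 1) * h), fM z m := by
    have e : MM z x₂ - MM z x₁ = ∑ m ∈ Ioc a b, fM z m := by
      unfold MM
      rw [← hb, ← ha, ← sum_Ioc_consecutive _ (Nat.zero_le a) hab, add_sub_cancel_left]
    rw [e]
    apply sum_le_sum_of_subset_of_nonneg
    · apply Ioc_subset_Ioc le_rfl; omega
    · intro m _ _; exact fM_nonneg z m
  have ha0 : (0 : ℝ) < a := by exact_mod_cast ha1
  have haL : x₁ < (a : ℝ) + 1 := Nat.lt_floor_add_one x₁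
  have ha2 : x₁ / 2 ≤ a := by linarith
  have h4 : ((a + n * h : ℕ) : ℝ) ≤ x₂ := by
    have h5 : a + n * h ≤ b := by omega
    have h6 : ((a + n * h : ℕ) : ℝ) ≤ b := by exact_mod_cast h5
    have h7 : (b : ℝ) ≤ x₂ := Nat.floor_le (by linarith)
    linarith
  have hx₁0 : 0 < x₁ := by linarith
  have hx₂0 : 0 < x₂ := by linarith
  have h5 : Real.log (((a + n * h : ℕ) : ℝ) / a) ≤ (v₂ - v₁) * Real.log z + 1 / a := by
    have hpos : (0 : ℝ) < ((a + n * h : ℕ) : ℝ) := by exact_mod_cast (by omega : 0 < a + n * h)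
    have h6 : Real.log (((a + n * h : ℕ) : ℝ) / a) ≤ Real.log (x₂ / x₁ * (1 + 1 / a)) := by
      apply Real.log_le_log (by positivity)
      have h7 : x₂ / x₁ * (1 + 1 / a) = x₂ * (((a : ℝ) + 1) / x₁) / a := by
        field_simp
      rw [h7]
      apply div_le_div_of_nonneg_right _ ha0.le
      have h8 : 1 ≤ ((a : ℝ) + 1) / x₁ := by
        rw [le_div_iff₀ hx₁0]; linarith
      calc ((a + n * h : ℕ) : ℝ) ≤ x₂ * 1 := by linarith
        _ ≤ x₂ * (((a : ℝ) + 1) / x₁) := mul_le_mul_of_nonneg_left h8 hx₂0.le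
    have h8 : Real.log (x₂ / x₁ * (1 + 1 / a)) = (v₂ - v₁) * Real.log z + Real.log (1 + 1 / a) := by
      rw [Real.log_mul (by positivity) (by positivity), Real.log_div hx₂0.ne' hx₁0.ne', hx₁, hx₂,
        Real.log_rpow hz0, Real.log_rpow hz0]
      ring
    have h9 := Real.log_le_sub_one_of_pos (show 0 < 1 + 1 / (a : ℝ) by positivity)
    linarith
  have h6 : (h : ℝ) ≤ x₁ / z := by
    calc (h : ℝ) ≤ (z : ℝ) ^ U₀ := hhz
      _ ≤ (z : ℝ) ^ (v₁ - 1) := Real.rpow_le_rpow_of_exponent_le hz1 (by linarith)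
      _ = x₁ / z := by rw [Real.rpow_sub hz0, Real.rpow_one]
  have hh1 : (1 : ℝ) ≤ h := by exact_mod_cast hh
  have h7 : (h : ℝ) / a ≤ 1 := by
    rw [div_le_one ha0]
    have : x₁ / z ≤ x₁ / 2 := by
      apply div_le_div_of_nonneg_left hx₁0.le (by norm_num) hz2'
    linarith
  have h8 : 1 / (a : ℝ) ≤ 1 := by
    rw [div_le_one ha0]; exact_mod_cast ha1
  have h9 : (1 + δ₁) * (V z * Real.log z) * (v₂ - v₁) ≤ (1 + δ) * V z * ((v₂ - v₁) * Real.log z + 2) := by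
    have h10 : Real.log (((a + n * h : ℕ) : ℝ) / a) + h / a ≤ (v₂ - v₁) * Real.log z + 2 := by linarith
    have h11 := mul_le_mul_of_nonneg_left h10 hc0
    linarith
  have h10 : (1 + δ₁) * Real.log z * (v₂ - v₁) ≤ (1 + δ) * ((v₂ - v₁) * Real.log z + 2) := by
    have e1 : (1 + δ) * V z * ((v₂ - v₁) * Real.log z + 2) = V z * ((1 + δ) * ((v₂ - v₁) * Real.log z + 2)) := by ring
    have e2 : (1 + δ₁) * (V z * Real.log z) * (v₂ - v₁) = V z * ((1 + δ₁) * Real.log z * (v₂ - v₁)) := by ring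
    rw [e1, e2] at h9
    exact le_of_mul_le_mul_left h9 hVpos
  have h11 := hz₁ z hzz₁
  rw [div_lt_iff₀ (by positivity)] at h11
  have h12 : δ * (v₂ - v₁) * Real.log z ≤ 4 := by
    have h13 : (δ₁ - δ) * ((v₂ - v₁) * Real.log z) ≤ (1 + δ) * 2 := by linarith
    have h14 : δ * ((v₂ - v₁) * Real.log z) ≤ (δ₁ - δ) * ((v₂ - v₁) * Real.log z) := by
      apply mul_le_mul_of_nonneg_right (by linarith)
      exact mul_nonneg (by linarith) hlz.le
    linarith
  have h15 : δ * δ₁ * Real.log z ≤ δ * (v₂ - v₁) * Real.log z := by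
    apply mul_le_mul_of_nonneg_right _ hlz.le
    apply mul_le_mul_of_nonneg_left (by linarith) hδpos.le
  linarith

end Pool.Agent.H318R2.Cr
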