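import Mathlib
import Pool.Agent.H318R2.Cr.Gap2

set_option autoImplicit false

namespace Pool.Agent.H318R2.Cr

open Filter Topology Finset MeasureTheory ProbabilityTheory

theorem Rgh_prime {z p : ℕ} (hp : p.Prime) (h : z < p) : Rgh z p := by
  intro r hr hrz hd
  have := (Nat.prime_dvd_prime_iff_eq hr hp).1 hd
  omega

theorem keep_prime {z : ℕ → ℕ} {k p : ℕ} (hp : p.Prime) (h1 : 2 ^ k < p) (h2 : p < 2 ^ (k + 1))
    (hz : z k < 2 ^ k) : 1 / ((k : ℝ) + 1) ≤ keepProb z p := by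
  have e2 : Nat.log 2 p = k := log2_of_mem h1.le h2
  unfold keepProb
  rw [e2, if_pos (Rgh_prime hp (by omega))]
  have hV := V_pos (z k)
  have hV1 := V_le_one (z k)
  have hlog1 : 0 < Real.log (p : ℝ) := Real.log_pos (by exact_mod_cast hp.one_lt)
  have hlog2 : Real.log (p : ℝ) ≤ (k : ℝ) + 1 := by
    have h1 : Real.log (p : ℝ) ≤ Real.log ((2 : ℝ) ^ (k + 1)) := by
      apply Real.log_le_log
      · exact_mod_cast hp.pos
      · exact_mod_cast h2.le
    rw [Real.log_pow] at h1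
    have h2 : Real.log 2 ≤ 1 := by
      have := Real.log_two_lt_d9; linarith
    push_cast at h1 ⊢
    have : ((k : ℝ) + 1) * Real.log 2 ≤ ((k : ℝ) + 1) * 1 :=
      mul_le_mul_of_nonneg_left h2 (by positivity)
    linarith
  apply le_min
  · rw [div_le_one (by positivity)]
    have : (0 : ℝ) ≤ k := by positivity
    linarith
  · apply one_div_le_one_div_of_le (by positivity)
    calc V (z k) * Real.log (p : ℝ) ≤ 1 * Real.log (p : ℝ) := mul_le_mul_of_nonneg_right hV1 hlog1.le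
      _ ≤ (k : ℝ) + 1 := by rw [one_mul]; exact hlog2

theorem not_summable' {z : ℕ → ℕ} (hz : ∀ᶠ k in atTop, z k < 2 ^ k) : ¬ Summable (keepProb z) := by
  intro hs
  have hex : ∀ k : ℕ, ∃ p : ℕ, p.Prime ∧ 2 ^ (k + 1) < p ∧ p < 2 ^ (k + 1 + 1) := by
    intro k
    obtain ⟨p, hp, h1, h2⟩ := Nat.exists_prime_lt_and_le_two_mul (2 ^ (k + 1)) (by positivity)
    refine ⟨p, hp, h1, ?_⟩
    have e : 2 ^ (k + 1 + 1) = 2 * 2 ^ (k + 1) := by ring
    rcases Nat.lt_or_ge p (2 ^ (k + 1 + 1)) with h | h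
    · exact h
    · exfalso
      have hpe : p = 2 ^ (k + 1 + 1) := by omega
      rw [hpe] at hp
      exact absurd hp (Nat.Prime.not_prime_pow (by omega))
  choose f hf1 hf2 hf3 using hex
  have hinj : Function.Injective f := by
    intro i j hij
    have h1 : Nat.log 2 (f i) = i + 1 := log2_of_mem (hf2 i).le (hf3 i)
    have h2 : Nat.log 2 (f j) = j + 1 := log2_of_mem (hf2 j).le (hf3 j)
    rw [hij] at h1
    omega
  have h1 := hs.comp_injective hinj
  have h2 : Summable (fun k : ℕ => 1 / ((k : ℝ) + 2)) := by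
    apply Summable.of_norm_bounded_eventually_nat h1
    have hz' := (tendsto_add_atTop_nat 1).eventually hz
    filter_upwards [hz'] with k hk
    rw [Real.norm_of_nonneg (by positivity)]
    have := keep_prime (z := z) (hf1 k) (hf2 k) (hf3 k) hk
    push_cast at this
    refine le_trans (le_of_eq ?_) this
    ring
  have h3 : Summable (fun k : ℕ => 1 / ((k : ℕ) : ℝ)) := by
    rw [← summable_nat_add_iff 2]
    refine h2.congr fun k => ?_
    push_cast; ring
  exact Real.not_summable_one_div_natCast h3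

section prob

variable {Ω : Type*} [MeasurableSpace Ω] {μ : Measure Ω} [IsProbabilityMeasure μ]
variable {z : ℕ → ℕ} {A : ℕ → Set Ω}

theorem infinite_ae' (hA : IsSievedModel μ z A) (hz : ∀ᶠ k in atTop, z k < 2 ^ k) :
    ∀ᵐ ω ∂μ, {n | ω ∈ A n}.Infinite := by
  have h1 : (∑' n, μ (A n)) = ⊤ := by
    by_contra hne
    apply not_summable' hz
    have h2 := ENNReal.summable_toReal hne
    refine h2.congr fun n => ?_
    rw [hA.prob, ENNReal.toReal_ofReal (keepProb_nonneg z n)]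
  have h3 := measure_limsup_eq_one hA.measurable hA.indep h1
  have h4 : ∀ᵐ ω ∂μ, ω ∈ limsup A atTop := by
    rw [← prob_compl_eq_zero_iff] at h3
    · exact h3
    · exact MeasurableSet.measurableSet_limsup hA.measurable
  filter_upwards [h4] with ω hω
  rw [mem_limsup_iff_frequently_mem] at hω
  exact Nat.frequently_atTop_iff_infinite.1 hω

theorem freq_of_tendsto' {F : Filter ℕ} [F.NeBot] (hF : F ≤ atTop) {G : ℕ → Set Ω}
    (h : Tendsto (fun k => μ.real ((G k)ᶜ)) F (𝓝 0)) : ∀ᵐ ω ∂μ, ∃ᶠ k in atTop, ω ∈ G k := by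
  have h1 : ∀ K : ℕ, ∀ᵐ ω ∂μ, ∃ k ≥ K, ω ∈ G k := by
    intro K
    have h2 : ∀ k ≥ K, μ {ω | ¬ ∃ k ≥ K, ω ∈ G k} ≤ μ ((G k)ᶜ) := by
      intro k hk
      apply measure_mono
      intro ω hω hG
      exact hω ⟨k, hk, hG⟩
    have h3 : Tendsto (fun k => μ ((G k)ᶜ)) F (𝓝 0) := by
      have h4 := (ENNReal.continuous_ofReal.tendsto 0).comp h
      rw [ENNReal.ofReal_zero] at h4
      refine h4.congr fun k => ?_
      simp only [Function.comp, Measure.real]
      rw [ENNReal.ofReal_toReal (measure_ne_top _ _)]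
    rw [ae_iff]
    refine le_antisymm ?_ zero_le
    exact ge_of_tendsto h3 (by filter_upwards [hF (eventually_ge_atTop K)] with k hk using h2 k hk)
  rw [← ae_all_iff] at h1
  filter_upwards [h1] with ω hω
  rw [frequently_atTop]
  exact hω

end prob

theorem lt_two_pow_of {z : ℕ → ℕ} (hz : Tendsto (fun k => Real.log (z k) / k) atTop (𝓝 0)) :
    ∀ᶠ k in atTop, z k < 2 ^ k := by
  have hl2 : 0 < Real.log 2 := Real.log_pos (by norm_num)
  filter_upwards [hz.eventually_lt_const hl2, eventually_gt_atTop 0] with k hk hk0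
  have hk0' : (0 : ℝ) < k := by exact_mod_cast hk0
  rcases Nat.eq_zero_or_pos (z k) with h0 | h0
  · rw [h0]; positivity
  · rw [div_lt_iff₀ hk0', mul_comm, ← Real.log_pow] at hk
    have := (Real.log_lt_log_iff (by exact_mod_cast h0) (by positivity)).1 hk
    exact_mod_cast this

theorem resA (θ : ℝ) (hθ : 0 < θ) : ∃ δ : ℝ, 0 < δ ∧ ∀ z : ℕ → ℕ,
    (∃ᶠ k : ℕ in atTop, (k : ℝ) ^ θ ≤ z k) → Tendsto (fun k => Real.log (z k) / k) atTop (𝓝 0) →
    ∀ {Ω : Type*} [MeasurableSpace Ω] (μ : Measure Ω) [IsProbabilityMeasure μ] (A : ℕ → Set Ω),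
      IsSievedModel μ z A →
      ∀ᵐ ω ∂μ, {n | ω ∈ A n}.Infinite ∧ ((1 + δ : ℝ) : EReal) ≤ cramerLimsup {n | ω ∈ A n} := by
  set θ' := min θ (1 / 2) with hθ'
  have hθ'0 : 0 < θ' := lt_min hθ (by norm_num)
  obtain ⟨δ, hδ0, hδ1, K, z₀, hK, hlow⟩ := lowInt (3 / θ')
  refine ⟨δ / 2, by positivity, ?_⟩
  intro z hzθ hz Ω _ μ _ A hA
  have hl2 : 0 < Real.log 2 := Real.log_pos (by norm_num)
  set F : Filter ℕ := atTop ⊓ 𝓟 {k : ℕ | (k : ℝ) ^ θ ≤ z k} with hFdef
  have hF : F ≤ atTop := inf_le_left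
  have hFne : F.NeBot := by
    rw [hFdef, ← frequently_mem_iff_neBot]
    exact hzθ
  have hFθ : ∀ᶠ k : ℕ in F, (k : ℝ) ^ θ ≤ z k := by
    rw [hFdef, eventually_inf_principal]
    exact Eventually.of_forall fun k hk => hk
  set c : ℝ := 1 + δ / 2 with hc
  have hc0 : 0 < c := by positivity
  let h : ℕ → ℕ := fun k => ⌈c * (((k : ℝ) + 1) * Real.log 2) ^ 2⌉₊
  have hhge : ∀ k : ℕ, c * (((k : ℝ) + 1) * Real.log 2) ^ 2 ≤ h k := fun k => Nat.le_ceil _
  have hhle : ∀ k : ℕ, (h k : ℝ) ≤ c * (((k : ℝ) + 1) * Real.log 2) ^ 2 + 1 := fun k =>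
    (Nat.ceil_lt_add_one (by positivity)).le
  have hh1 : ∀ k, 1 ≤ h k := by
    intro k
    exact Nat.one_le_ceil_iff.2 (by positivity)
  have hhC : ∀ᶠ k : ℕ in F, (h k : ℝ) ≤ (c + 1) * k ^ 2 := by
    have E := ev_sq (a := c) (b := 1) (c := c + 1) (L := Real.log 2) (by linarith) hl2
    filter_upwards [hF E] with k hk
    have h1 := (hhle k).trans hk
    have h2 : Real.log 2 ≤ 1 := by have := Real.log_two_lt_d9; linarith
    have h3 : ((k : ℝ) * Real.log 2) ^ 2 ≤ (k : ℝ) ^ 2 := by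
      rw [mul_pow]
      have : Real.log 2 ^ 2 ≤ 1 := by nlinarith
      have hk2 : (0 : ℝ) ≤ (k : ℝ) ^ 2 := by positivity
      nlinarith
    calc (h k : ℝ) ≤ (c + 1) * ((k : ℝ) * Real.log 2) ^ 2 := h1
      _ ≤ (c + 1) * k ^ 2 := mul_le_mul_of_nonneg_left h3 (by positivity)
  -- the truncated level
  let z' : ℕ → ℕ := fun k => min (z k) ⌈(k : ℝ) ^ ((1 : ℝ) / 2)⌉₊
  have hz'θ : ∀ᶠ k : ℕ in F, (k : ℝ) ^ θ' ≤ z' k := by
    filter_upwards [hFθ, hF (eventually_ge_atTop 1)] with k h1 hk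
    have hk1 : (1 : ℝ) ≤ k := by exact_mod_cast hk
    have e : ((z' k : ℕ) : ℝ) = min (z k : ℝ) (⌈(k : ℝ) ^ ((1 : ℝ) / 2)⌉₊ : ℝ) := by
      simp only [z']; push_cast; rfl
    rw [e]
    apply le_min
    · exact (Real.rpow_le_rpow_of_exponent_le hk1 (min_le_left _ _)).trans h1
    · exact (Real.rpow_le_rpow_of_exponent_le hk1 (min_le_right _ _)).trans (Nat.le_ceil _)
  have hz'k : Tendsto (fun k => (z' k : ℝ) / k) F (𝓝 0) := by
    refine Tendsto.mono_left ?_ hF
    have h1 : Tendsto (fun k : ℕ => ((k : ℝ) ^ ((1 : ℝ) / 2) + 1) / k) atTop (𝓝 0) := by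
      have h2 : Tendsto (fun k : ℕ => (k : ℝ) ^ (-((1 : ℝ) / 2)) + 1 / (k : ℝ)) atTop (𝓝 (0 + 0)) := by
        apply Tendsto.add
        · exact (tendsto_rpow_neg_atTop (by norm_num)).comp tendsto_natCast_atTop_atTop
        · exact tendsto_one_div_atTop_nhds_zero_nat
      rw [add_zero] at h2
      refine h2.congr' ?_
      filter_upwards [eventually_gt_atTop 0] with k hk
      have hk0 : (0 : ℝ) < k := by exact_mod_cast hk
      rw [add_div]
      congr 1
      rw [show -((1 : ℝ) / 2) = 1 / 2 - 1 by norm_num, Real.rpow_sub hk0, Real.rpow_one]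
    refine squeeze_zero (fun k => by positivity) (fun k => ?_) h1
    apply div_le_div_of_nonneg_right _ (by positivity)
    have h2 : (z' k : ℝ) ≤ (⌈(k : ℝ) ^ ((1 : ℝ) / 2)⌉₊ : ℝ) := by
      exact_mod_cast min_le_right _ _
    have h3 := (Nat.ceil_lt_add_one (by positivity : 0 ≤ (k : ℝ) ^ ((1 : ℝ) / 2))).le
    linarith
  have hz'big : ∀ B : ℕ, ∀ᶠ k in F, B ≤ z' k := by
    intro B
    have h1 : Tendsto (fun k : ℕ => (k : ℝ) ^ θ') atTop atTop :=
      (tendsto_rpow_atTop hθ'0).comp tendsto_natCast_atTop_atTop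
    filter_upwards [hz'θ, hF (h1.eventually_ge_atTop (B : ℝ))] with k h2 h3
    exact_mod_cast h3.trans h2
  have hzz : ∀ᶠ k in F, 2 ≤ z' k ∧ z' k ≤ z k := by
    filter_upwards [hz'big 2] with k hk
    exact ⟨hk, min_le_left _ _⟩
  -- existence of sparse intervals
  have hex : ∀ᶠ k : ℕ in F, ∃ a : ℕ, (cnt (z' k) a (h k) : ℝ) ≤
      (1 - δ / 2) * V (z' k) * (k * Real.log 2) ^ 2 := by
    have E := ev_sq (a := (1 - δ) * c) (b := 1 - δ) (c := 1 - δ / 2) (L := Real.log 2)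
      (by rw [hc]; nlinarith) hl2
    filter_upwards [hz'big z₀, hF E, hhC, hz'θ, hF (eventually_ge_atTop ⌈c + 1⌉₊),
      hF (eventually_ge_atTop 1)] with k e1 e2 e3 e4 e5 e6
    have hk1 : (1 : ℝ) ≤ k := by exact_mod_cast e6
    have hkc : c + 1 ≤ k := (Nat.le_ceil _).trans (by exact_mod_cast e5)
    have h4 : (h k : ℝ) ≤ (z' k : ℝ) ^ (3 / θ') := by
      have h5 : (h k : ℝ) ≤ (k : ℝ) ^ 3 := by
        have : (0 : ℝ) ≤ (k : ℝ) ^ 2 := by positivity
        nlinarith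
      have h6 : (k : ℝ) ^ 3 = ((k : ℝ) ^ θ') ^ (3 / θ') := by
        rw [← Real.rpow_mul (by positivity), ← Real.rpow_natCast]
        congr 1
        push_cast
        field_simp
      rw [h6] at h5
      exact h5.trans (Real.rpow_le_rpow (by positivity) e4 (by positivity))
    obtain ⟨a, -, ha⟩ := hlow (z' k) e1 (h k) (hh1 k) h4
    refine ⟨a, ha.trans ?_⟩
    have hV := V_pos (z' k)
    have h7 : (1 - δ) * (h k : ℝ) ≤ (1 - δ / 2) * (k * Real.log 2) ^ 2 := by
      have h8 := mul_le_mul_of_nonneg_left (hhle k) (by linarith : 0 ≤ 1 - δ)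
      linarith
    have h9 := mul_le_mul_of_nonneg_right h7 hV.le
    linarith
  -- choose the intervals
  classical
  let a : ℕ → ℕ := fun k => if hk : ∃ a : ℕ, (cnt (z' k) a (h k) : ℝ) ≤
      (1 - δ / 2) * V (z' k) * (k * Real.log 2) ^ 2 then hk.choose else 0
  have ha : ∀ᶠ k in F, (cnt (z' k) (a k) (h k) : ℝ) ≤
      (1 - δ / 2) * V (z' k) * (k * Real.log 2) ^ 2 := by
    filter_upwards [hex] with k hk
    have : a k = hk.choose := dif_pos hk
    rw [this]
    exact hk.choose_spec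
  have hgp := gap_prob2 hA hF hz z' hzz hz'k (by linarith : 0 < 1 - δ / 2) (by linarith) h a
    (by positivity : 0 ≤ c + 1) hhC ha
  filter_upwards [freq_of_tendsto' hF hgp, infinite_ae' hA (lt_two_pow_of hz)] with ω h1 h2
  refine ⟨h2, limsup_ge h2 hc0.le hhge ?_⟩
  exact h1

end Pool.Agent.H318R2.Cr
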