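import Mathlib
import Pool.Agent.H318R2.Cr.FL3
import Pool.Agent.H318R2.Cr.ResA

set_option autoImplicit false

namespace Pool.Agent.H318R2.Cr

open Filter Topology Finset MeasureTheory ProbabilityTheory

theorem Rgh_iff_coprime {z n : ℕ} : Rgh z n ↔ (primorial z).Coprime n := by
  constructor
  · intro h
    by_contra hc
    obtain ⟨p, hp, hp1, hp2⟩ := Nat.Prime.not_coprime_iff_dvd.mp hc
    exact h p hp (hp.dvd_primorial_iff.1 hp1) hp2
  · intro h p hp hz hd
    have h1 := Nat.dvd_gcd (dvd_primorial hp hz) hd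
    rw [h] at h1
    exact hp.one_lt.ne' (Nat.dvd_one.1 h1)

theorem primorial_primeFactors (z : ℕ) : (primorial z).primeFactors = Pz z := by
  ext p
  rw [Nat.mem_primeFactors, mem_Pz]
  constructor
  · rintro ⟨h1, h2, _⟩; exact ⟨h1, h1.dvd_primorial_iff.1 h2⟩
  · rintro ⟨h1, h2⟩; exact ⟨h1, dvd_primorial h1 h2, (primorial_pos z).ne'⟩

theorem totient_primorial (z : ℕ) : ((primorial z).totient : ℝ) = primorial z * V z := by
  have h := Nat.totient_eq_mul_prod_factors (primorial z)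
  rw [primorial_primeFactors] at h
  have h2 := congrArg (fun x : ℚ => (x : ℝ)) h
  push_cast at h2
  rw [h2]
  unfold V
  congr 1
  apply prod_congr rfl
  intro p _
  rw [one_div]

theorem avg_cnt (z h : ℕ) : ∑ a ∈ range (primorial z), (cnt z a h : ℝ) = h * (primorial z * V z) := by
  classical
  have e1 : ∀ a ∈ range (primorial z), (cnt z a h : ℝ) =
      ∑ i ∈ range h, if Rgh z (a + i + 1) then (1 : ℝ) else 0 := by
    intro a _
    rw [cnt_eq, card_filter]; push_cast; rfl
  rw [sum_congr rfl e1, sum_comm]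
  have e2 : ∀ i ∈ range h, ∑ a ∈ range (primorial z), (if Rgh z (a + i + 1) then (1 : ℝ) else 0) =
      primorial z * V z := by
    intro i _
    rw [← totient_primorial, ← Nat.filter_coprime_Ico_eq_totient (primorial z) (i + 1), card_filter]
    push_cast
    rw [sum_Ico_eq_sum_range]
    rw [Nat.add_sub_cancel_left]
    apply sum_congr rfl
    intro a _
    have e : a + i + 1 = i + 1 + a := by ring
    rw [e]
    simp only [Rgh_iff_coprime]
  rw [sum_congr rfl e2, sum_const, card_range, nsmul_eq_mul]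

theorem exists_avg (z h : ℕ) : ∃ a, (cnt z a h : ℝ) ≤ h * V z := by
  by_contra hcon
  push Not at hcon
  have h1 : ∑ a ∈ range (primorial z), (h * V z : ℝ) < ∑ a ∈ range (primorial z), (cnt z a h : ℝ) := by
    apply sum_lt_sum_of_nonempty
    · exact ⟨0, mem_range.2 (primorial_pos z)⟩
    · intro a _; exact hcon a
  rw [avg_cnt, sum_const, card_range, nsmul_eq_mul] at h1
  linarith

section lower

variable {Ω : Type*} [MeasurableSpace Ω] {μ : Measure Ω} [IsProbabilityMeasure μ]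
variable {z : ℕ → ℕ} {A : ℕ → Set Ω}

theorem lower_eta (hA : IsSievedModel μ z A) (hz : Tendsto (fun k => (z k : ℝ) / k) atTop (𝓝 0))
    {η : ℝ} (hη0 : 0 < η) (hη1 : η < 1) :
    ∀ᵐ ω ∂μ, ((1 - η : ℝ) : EReal) ≤ cramerLimsup {n | ω ∈ A n} := by
  have hl2 : 0 < Real.log 2 := Real.log_pos (by norm_num)
  set c : ℝ := 1 - η with hc
  have hc0 : 0 < c := by rw [hc]; linarith
  let h : ℕ → ℕ := fun k => ⌈c * (((k : ℝ) + 1) * Real.log 2) ^ 2⌉₊
  have hhge : ∀ k : ℕ, c * (((k : ℝ) + 1) * Real.log 2) ^ 2 ≤ h k := fun k => Nat.le_ceil _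
  have hhle : ∀ k : ℕ, (h k : ℝ) ≤ c * (((k : ℝ) + 1) * Real.log 2) ^ 2 + 1 := fun k =>
    (Nat.ceil_lt_add_one (by positivity)).le
  have hhC : ∀ᶠ k : ℕ in atTop, (h k : ℝ) ≤ (c + 1) * k ^ 2 := by
    have E := ev_sq (a := c) (b := 1) (c := c + 1) (L := Real.log 2) (by linarith) hl2
    filter_upwards [E] with k hk
    have h1 := (hhle k).trans hk
    have h2 : Real.log 2 ≤ 1 := by have := Real.log_two_lt_d9; linarith
    have h3 : ((k : ℝ) * Real.log 2) ^ 2 ≤ (k : ℝ) ^ 2 := by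
      rw [mul_pow]
      have : Real.log 2 ^ 2 ≤ 1 := by nlinarith
      have hk2 : (0 : ℝ) ≤ (k : ℝ) ^ 2 := by positivity
      nlinarith
    calc (h k : ℝ) ≤ (c + 1) * ((k : ℝ) * Real.log 2) ^ 2 := h1
      _ ≤ (c + 1) * k ^ 2 := mul_le_mul_of_nonneg_left h3 (by positivity)
  have hex : ∀ k : ℕ, ∃ a : ℕ, (cnt (z k) a (h k) : ℝ) ≤ h k * V (z k) := fun k => exists_avg _ _
  choose a ha using hex
  have ha' : ∀ᶠ k in atTop, (cnt (z k) (a k) (h k) : ℝ) ≤
      (1 - η / 2) * V (z k) * (k * Real.log 2) ^ 2 := by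
    have E := ev_sq (a := c) (b := 1) (c := 1 - η / 2) (L := Real.log 2)
      (by rw [hc]; linarith) hl2
    filter_upwards [E] with k hk
    have h1 := (hhle k).trans hk
    have hV := V_pos (z k)
    calc (cnt (z k) (a k) (h k) : ℝ) ≤ h k * V (z k) := ha k
      _ ≤ ((1 - η / 2) * (k * Real.log 2) ^ 2) * V (z k) := mul_le_mul_of_nonneg_right h1 hV.le
      _ = _ := by ring
  have hgp := gap_prob hA hz (by linarith : 0 ≤ 1 - η / 2) (by linarith) h a
    (by positivity : 0 ≤ c + 1) hhC ha'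
  filter_upwards [freq_of_tendsto hgp, infinite_ae hA hz] with ω h1 h2
  exact limsup_ge h2 hc0.le hhge h1

theorem lower_one (hA : IsSievedModel μ z A) (hz : Tendsto (fun k => (z k : ℝ) / k) atTop (𝓝 0)) :
    ∀ᵐ ω ∂μ, (1 : EReal) ≤ cramerLimsup {n | ω ∈ A n} := by
  have h1 : ∀ m : ℕ, ∀ᵐ ω ∂μ, ((1 - 1 / ((m : ℝ) + 2) : ℝ) : EReal) ≤ cramerLimsup {n | ω ∈ A n} := by
    intro m
    apply lower_eta hA hz (by positivity)
    rw [div_lt_one (by positivity)]
    have : (0 : ℝ) ≤ m := by positivity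
    linarith
  rw [← ae_all_iff] at h1
  filter_upwards [h1] with ω hω
  have h2 : Tendsto (fun m : ℕ => ((1 - 1 / ((m : ℝ) + 2) : ℝ) : EReal)) atTop (𝓝 ((1 : ℝ) : EReal)) := by
    apply (continuous_coe_real_ereal.tendsto (1 : ℝ)).comp
    have h3 : Tendsto (fun m : ℕ => 1 / ((m : ℝ) + 2)) atTop (𝓝 0) := by
      have h4 : Tendsto (fun m : ℕ => (m : ℝ) + 2) atTop atTop :=
        tendsto_atTop_add_const_right _ _ tendsto_natCast_atTop_atTop
      simpa using h4.const_div_atTop 1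
    simpa using h3.const_sub 1
  have := le_of_tendsto' h2 hω
  simpa using this

end lower

theorem cnt_small {z a N : ℕ} (hz : z < 2) : cnt z a N = N := by
  classical
  rw [cnt_eq]
  rw [filter_true_of_mem]
  · exact card_range N
  · intro i _ p hp hpz
    have := hp.two_le
    omega

theorem V_small {z : ℕ} (hz : z < 2) : V z = 1 := by
  unfold V
  apply prod_eq_one
  intro p hp
  rw [mem_Pz] at hp
  have := hp.1.two_le
  omega

theorem short_lower (ε : ℝ) (hε : 0 < ε) : ∃ θ : ℝ, 0 < θ ∧ θ ≤ 1 / 2 ∧ ∀ z : ℕ → ℕ,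
    (∀ᶠ k : ℕ in atTop, (z k : ℝ) ≤ (k : ℝ) ^ θ) →
    ∀ᶠ k : ℕ in atTop, ∀ a N : ℕ, k ≤ N → (1 - ε) * N * V (z k) ≤ cnt (z k) a N := by
  obtain ⟨C, U, hC, hU, hlow⟩ := cnt_lower
  set θ := min (1 / 2) (min (1 / U) (Real.sqrt (ε / (C + 1)))) with hθ
  have hU0 : 0 < U := by linarith
  have hθ0 : 0 < θ := lt_min (by norm_num) (lt_min (by positivity) (by positivity))
  refine ⟨θ, hθ0, min_le_left _ _, ?_⟩
  intro z hz
  filter_upwards [hz, eventually_ge_atTop 2] with k hk hk2
  intro a N hkN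
  have hV := V_pos (z k)
  rcases lt_or_ge (z k) 2 with h2 | h2
  · rw [cnt_small h2, V_small h2, mul_one]
    have : (0 : ℝ) ≤ N := by positivity
    nlinarith
  · have hk2' : (2 : ℝ) ≤ k := by exact_mod_cast hk2
    have hkN' : (k : ℝ) ≤ N := by exact_mod_cast hkN
    have hlk : 0 < Real.log k := Real.log_pos (by linarith)
    have hlkN : Real.log k ≤ Real.log N := Real.log_le_log (by linarith) hkN'
    have hz0 : (0 : ℝ) < z k := by exact_mod_cast (by omega : 0 < z k)
    have hlz : Real.log (z k) ≤ θ * Real.log k := by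
      have := Real.log_le_log hz0 hk
      rwa [Real.log_rpow (by linarith)] at this
    have hlz0 : 0 < Real.log (z k) := Real.log_pos (by exact_mod_cast (by omega : 1 < z k))
    have h3 : U * Real.log (z k) ≤ Real.log N := by
      have h4 : θ ≤ 1 / U := (min_le_right _ _).trans (min_le_left _ _)
      calc U * Real.log (z k) ≤ U * (θ * Real.log k) := mul_le_mul_of_nonneg_left hlz hU0.le
        _ ≤ U * (1 / U * Real.log k) := by gcongr
        _ = Real.log k := by field_simp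
        _ ≤ _ := hlkN
    have h5 := hlow a N (z k) h2 (by omega) h3
    refine le_trans ?_ h5
    have h6 : Real.log (z k) / Real.log N ≤ Real.sqrt (ε / (C + 1)) := by
      rw [div_le_iff₀ (by linarith)]
      have h7 : θ ≤ Real.sqrt (ε / (C + 1)) := (min_le_right _ _).trans (min_le_right _ _)
      calc Real.log (z k) ≤ θ * Real.log k := hlz
        _ ≤ Real.sqrt (ε / (C + 1)) * Real.log N := by gcongr
    have h7 : C * (Real.log (z k) / Real.log N) ^ 2 ≤ ε := by
      have h8 : (Real.log (z k) / Real.log N) ^ 2 ≤ ε / (C + 1) := by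
        calc (Real.log (z k) / Real.log N) ^ 2 ≤ (Real.sqrt (ε / (C + 1))) ^ 2 :=
              pow_le_pow_left₀ (div_nonneg hlz0.le (by linarith)) h6 2
          _ = ε / (C + 1) := Real.sq_sqrt (by positivity)
      calc C * (Real.log (z k) / Real.log N) ^ 2 ≤ C * (ε / (C + 1)) :=
            mul_le_mul_of_nonneg_left h8 hC
        _ = ε * (C / (C + 1)) := by ring
        _ ≤ ε * 1 := by
            apply mul_le_mul_of_nonneg_left _ hε.le
            rw [div_le_one (by positivity)]; linarith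
        _ = ε := mul_one _
    have hN0 : (0 : ℝ) ≤ N := by positivity
    calc (1 - ε) * N * V (z k) = N * V (z k) * (1 - ε) := by ring
      _ ≤ _ := mul_le_mul_of_nonneg_left (by linarith) (by positivity)

/-- if every interval of length `h k` in the block contains an element, the limsup is small -/
theorem limsup_le {S : Set ℕ} (hS : S.Infinite) {c : ℝ} {h : ℕ → ℕ}
    (hh : ∀ᶠ k : ℕ in atTop, (h k : ℝ) ≤ c * ((k : ℝ) * Real.log 2) ^ 2)
    (hf : ∀ᶠ k in atTop, ∀ b, 2 ^ k ≤ b → b < 2 ^ (k + 1) → ∃ n ∈ Ioc b (b + h k), n ∈ S) :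
    cramerLimsup S ≤ (c : EReal) := by
  classical
  have hinf : (Set.ofPred (· ∈ S)).Infinite := hS
  have hsm := Nat.nth_strictMono hinf
  unfold cramerLimsup
  apply limsup_le_of_le
  · isBoundedDefault
  obtain ⟨K, hK⟩ := eventually_atTop.1 (hh.and hf)
  rw [eventually_atTop]
  refine ⟨2 ^ (K + 1), fun m hm => ?_⟩
  set x := Nat.nth (· ∈ S) m with hx
  have hmx : m ≤ x := hsm.le_apply
  set k := Nat.log 2 x with hk
  have hx0 : x ≠ 0 := by
    have : 0 < 2 ^ (K + 1) := by positivity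
    omega
  have hk1 : 2 ^ k ≤ x := Nat.pow_log_le_self 2 hx0
  have hk2 : x < 2 ^ (k + 1) := Nat.lt_pow_succ_log_self (by norm_num) x
  have hKk : K + 1 ≤ k := by
    rw [hk]
    exact Nat.le_log_of_pow_le (by norm_num) (hm.trans hmx)
  obtain ⟨h1, h2⟩ := hK k (by omega)
  obtain ⟨n, hn, hnS⟩ := h2 x hk1 hk2
  rw [mem_Ioc] at hn
  have h3 : m < Nat.count (· ∈ S) n := (Nat.lt_nth_iff_count_lt hinf).2 hn.1
  have h4 : Nat.nth (· ∈ S) (m + 1) ≤ n := by
    have h5 : Nat.nth (· ∈ S) (Nat.count (· ∈ S) n) = n := Nat.nth_count hnS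
    calc Nat.nth (· ∈ S) (m + 1) ≤ Nat.nth (· ∈ S) (Nat.count (· ∈ S) n) :=
          hsm.monotone (by omega)
      _ = n := h5
  set y := Nat.nth (· ∈ S) (m + 1) with hy
  rw [EReal.coe_le_coe_iff]
  have hkpos : (0 : ℝ) < k := by exact_mod_cast (by omega : 0 < k)
  have hl2 : 0 < Real.log 2 := Real.log_pos (by norm_num)
  have hlx : (k : ℝ) * Real.log 2 ≤ Real.log x := log_ge hk1
  have hlx0 : 0 < (k : ℝ) * Real.log 2 := by positivity
  have h6 : (y : ℝ) - x ≤ h k := by
    have : y ≤ x + h k := by omega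
    have : (y : ℝ) ≤ x + h k := by exact_mod_cast this
    linarith
  have hlxp : 0 < Real.log x := lt_of_lt_of_le hlx0 hlx
  rw [div_le_iff₀ (by positivity)]
  have hc0 : 0 ≤ c := by
    by_contra hcn
    push Not at hcn
    have h7 : c * ((k : ℝ) * Real.log 2) ^ 2 < 0 := mul_neg_of_neg_of_pos hcn (by positivity)
    have : (0 : ℝ) ≤ h k := by positivity
    linarith
  have h7 : ((k : ℝ) * Real.log 2) ^ 2 ≤ Real.log x ^ 2 := pow_le_pow_left₀ hlx0.le hlx 2
  have h8 := mul_le_mul_of_nonneg_left h7 hc0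
  linarith

end Pool.Agent.H318R2.Cr
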