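import Mathlib
import Pool.Agent.H318R2.Cr.ResB

set_option autoImplicit false

namespace Pool.Agent.H318R2.Cr

open Filter Topology Finset MeasureTheory ProbabilityTheory

section upper

variable {Ω : Type*} [MeasurableSpace Ω] {μ : Measure Ω} [IsProbabilityMeasure μ]
variable {z : ℕ → ℕ} {A : ℕ → Set Ω}

theorem empty_le (hA : IsSievedModel μ z A) (S : Finset ℕ) :
    μ.real (⋂ n ∈ S, (A n)ᶜ) ≤ Real.exp (-(∑ n ∈ S, keepProb z n)) := by
  rw [real_compl_inter hA.indep, ← sum_neg_distrib, Real.exp_sum]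
  apply Finset.prod_le_prod
  · intro n _; exact measureReal_nonneg
  · intro n _
    rw [real_prob_compl hA]
    have := Real.add_one_le_exp (-keepProb z n)
    linarith

omit [IsProbabilityMeasure μ] in
/-- lower bound of the sum of the probabilities over a stretch inside one block -/
theorem sum_keep_ge {κ a N : ℕ} {q : ℝ} (hq : ∀ n ∈ Ioc a (a + N), Rgh (z κ) n → q ≤ keepProb z n) :
    cnt (z κ) a N * q ≤ ∑ n ∈ Ioc a (a + N), keepProb z n := by
  classical
  unfold cnt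
  calc (((Ioc a (a + N)).filter (Rgh (z κ))).card : ℝ) * q
      = ∑ _n ∈ (Ioc a (a + N)).filter (Rgh (z κ)), q := by rw [sum_const, nsmul_eq_mul]
    _ ≤ ∑ n ∈ (Ioc a (a + N)).filter (Rgh (z κ)), keepProb z n := by
        apply sum_le_sum
        intro n hn
        rw [mem_filter] at hn
        exact hq n hn.1 hn.2
    _ ≤ _ := by
        apply sum_le_sum_of_subset_of_nonneg (filter_subset _ _)
        intro n _ _; exact keepProb_nonneg z n

omit [IsProbabilityMeasure μ] in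
theorem keep_ge {κ k n : ℕ} (h1 : 2 ^ κ ≤ n) (h2 : n < 2 ^ (κ + 1)) (h3 : n < 2 ^ (k + 2)) (hκ : 1 ≤ κ)
    (hr : Rgh (z κ) n) (hbig : 1 ≤ V (z κ) * (((k : ℝ) + 2) * Real.log 2)) :
    1 / (V (z κ) * (((k : ℝ) + 2) * Real.log 2)) ≤ keepProb z n := by
  have e2 : Nat.log 2 n = κ := log2_of_mem h1 h2
  unfold keepProb
  rw [e2, if_pos hr]
  have hV := V_pos (z κ)
  have hl2 : 0 < Real.log 2 := Real.log_pos (by norm_num)
  have hn1 : 1 < n := by
    have : 2 ^ 1 ≤ 2 ^ κ := Nat.pow_le_pow_right (by norm_num) hκ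
    omega
  have hlog1 : 0 < Real.log (n : ℝ) := Real.log_pos (by exact_mod_cast hn1)
  have hlog2 : Real.log (n : ℝ) ≤ ((k : ℝ) + 2) * Real.log 2 := by
    have h1 : Real.log (n : ℝ) ≤ Real.log ((2 : ℝ) ^ (k + 2)) := by
      apply Real.log_le_log
      · exact_mod_cast (by omega : 0 < n)
      · exact_mod_cast h3.le
    rw [Real.log_pow] at h1
    push_cast at h1
    exact h1
  apply le_min
  · rw [div_le_one (by positivity)]; exact hbig
  · apply one_div_le_one_div_of_le (by positivity)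
    exact mul_le_mul_of_nonneg_left hlog2 hV.le

omit [IsProbabilityMeasure μ] in
theorem sum_keep_block {k b h : ℕ} {ε : ℝ} (hε0 : 0 < ε) (hε1 : ε < 1) (hk : 1 ≤ k)
    (hb1 : 2 ^ k ≤ b) (hb2 : b < 2 ^ (k + 1)) (hbh : b + h < 2 ^ (k + 2))
    (hεh : ((k : ℝ) + 1) ≤ ε * h)
    (hs1 : ∀ a N : ℕ, k ≤ N → (1 - ε) * N * V (z k) ≤ cnt (z k) a N)
    (hs2 : ∀ a N : ℕ, k + 1 ≤ N → (1 - ε) * N * V (z (k + 1)) ≤ cnt (z (k + 1)) a N)
    (hbig1 : 1 ≤ V (z k) * (((k : ℝ) + 2) * Real.log 2))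
    (hbig2 : 1 ≤ V (z (k + 1)) * (((k : ℝ) + 2) * Real.log 2)) :
    (1 - 3 * ε) * h / (((k : ℝ) + 2) * Real.log 2) ≤ ∑ n ∈ Ioc b (b + h), keepProb z n := by
  have hl2 : 0 < Real.log 2 := Real.log_pos (by norm_num)
  have hh0 : (0 : ℝ) ≤ h := by positivity
  set D := ((k : ℝ) + 2) * Real.log 2 with hD
  have hD0 : 0 < D := by positivity
  -- general lower bound on a stretch
  have gen : ∀ κ : ℕ, 1 ≤ κ → κ ≤ k + 1 → (∀ a N : ℕ, κ ≤ N → (1 - ε) * N * V (z κ) ≤ cnt (z κ) a N) →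
      1 ≤ V (z κ) * D → ∀ a N : ℕ, 2 ^ κ ≤ a + 1 → a + N < 2 ^ (κ + 1) → a + N < 2 ^ (k + 2) →
      ((1 - ε) * N - ε * h) / D ≤ ∑ n ∈ Ioc a (a + N), keepProb z n := by
    intro κ hκ1 hκk hs hbig a N ha1 ha2 ha3
    have hV := V_pos (z κ)
    rcases Nat.lt_or_ge N κ with hN | hN
    · have h1 : ((1 - ε) * N - ε * h) / D ≤ 0 := by
        apply div_nonpos_of_nonpos_of_nonneg _ hD0.le
        have hN' : (N : ℝ) ≤ k + 1 := by
          have : N ≤ k + 1 := by omega
          exact_mod_cast this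
        have hN0 : (0 : ℝ) ≤ N := by positivity
        nlinarith
      refine h1.trans ?_
      exact sum_nonneg fun n _ => keepProb_nonneg z n
    · have h1 := sum_keep_ge (z := z) (κ := κ) (a := a) (N := N) (q := 1 / (V (z κ) * D)) (by
        intro n hn hr
        rw [mem_Ioc] at hn
        exact keep_ge (by omega) (by omega) (by omega) hκ1 hr hbig)
      refine le_trans ?_ h1
      have h2 := hs a N hN
      have h3 : (1 - ε) * N ≤ cnt (z κ) a N / V (z κ) := by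
        rw [le_div_iff₀ hV]; exact h2
      have h4 : (cnt (z κ) a N : ℝ) * (1 / (V (z κ) * D)) = (cnt (z κ) a N / V (z κ)) / D := by
        field_simp
      rw [h4]
      apply div_le_div_of_nonneg_right _ hD0.le
      have : 0 ≤ ε * h := by positivity
      linarith
  -- split
  set N₁ := min h (2 ^ (k + 1) - 1 - b) with hN₁
  have hN1h : N₁ ≤ h := min_le_left _ _
  have e1 : ∑ n ∈ Ioc b (b + h), keepProb z n =
      ∑ n ∈ Ioc b (b + N₁), keepProb z n + ∑ n ∈ Ioc (b + N₁) (b + N₁ + (h - N₁)), keepProb z n := by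
    rw [sum_Ioc_consecutive _ (by omega) (by omega)]
    congr 2; omega
  rw [e1]
  have p1 := gen k hk (by omega) hs1 hbig1 b N₁ (by omega) (by omega) (by omega)
  rcases Nat.lt_or_ge N₁ h with hlt | hge
  · have hN1' : N₁ = 2 ^ (k + 1) - 1 - b := by
      rw [hN₁] at hlt ⊢
      exact min_eq_right (by omega)
    have p2 := gen (k + 1) (by omega) le_rfl hs2 hbig2 (b + N₁) (h - N₁) (by omega)
      (by have e : 2 ^ (k + 1 + 1) = 2 ^ (k + 2) := rfl
          omega) (by omega)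
    have e2 : ((h - N₁ : ℕ) : ℝ) = h - N₁ := by rw [Nat.cast_sub hN1h]
    rw [e2] at p2
    have : (1 - 3 * ε) * h / D ≤ ((1 - ε) * N₁ - ε * h) / D + ((1 - ε) * (h - N₁) - ε * h) / D := by
      rw [← add_div]
      apply div_le_div_of_nonneg_right _ hD0.le
      linarith
    linarith
  · have hN1' : N₁ = h := by omega
    rw [hN1'] at p1
    have h2 : 0 ≤ ∑ n ∈ Ioc (b + N₁) (b + N₁ + (h - N₁)), keepProb z n :=
      sum_nonneg fun n _ => keepProb_nonneg z n
    have h3 : (1 - 3 * ε) * h / D ≤ ((1 - ε) * h - ε * h) / D := by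
      apply div_le_div_of_nonneg_right _ hD0.le
      nlinarith
    rw [hN1'] at h2 ⊢
    linarith

theorem upper_eps (ε : ℝ) (hε : 0 < ε) : ∃ θ : ℝ, 0 < θ ∧ θ ≤ 1 / 2 ∧ ∀ z : ℕ → ℕ,
    (∀ᶠ k : ℕ in atTop, (z k : ℝ) ≤ (k : ℝ) ^ θ) →
    ∀ {Ω : Type*} [MeasurableSpace Ω] (μ : Measure Ω) [IsProbabilityMeasure μ] (A : ℕ → Set Ω),
      IsSievedModel μ z A → (∀ᵐ ω ∂μ, {n | ω ∈ A n}.Infinite) →
      ∀ᵐ ω ∂μ, cramerLimsup {n | ω ∈ A n} ≤ ((1 + ε : ℝ) : EReal) := by
  set ε' := min (1 / 2) (ε / (12 * (1 + ε))) with hε'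
  have hε'0 : 0 < ε' := lt_min (by norm_num) (by positivity)
  obtain ⟨θ, hθ0, hθ1, hs⟩ := short_lower ε' hε'0
  refine ⟨θ, hθ0, hθ1, ?_⟩
  intro z hz Ω _ μ _ A hA hinf
  have hl2 : 0 < Real.log 2 := Real.log_pos (by norm_num)
  have hε'1 : ε' < 1 := lt_of_le_of_lt (min_le_left _ _) (by norm_num)
  have hε'2 : 3 * ε' * (1 + ε) ≤ ε / 4 := by
    have h1 : ε' ≤ ε / (12 * (1 + ε)) := min_le_right _ _
    calc 3 * ε' * (1 + ε) ≤ 3 * (ε / (12 * (1 + ε))) * (1 + ε) := by gcongr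
      _ = ε / 4 := by field_simp; ring
  let h : ℕ → ℕ := fun k => ⌊(1 + ε) * ((k : ℝ) * Real.log 2) ^ 2⌋₊
  have hhle : ∀ k : ℕ, (h k : ℝ) ≤ (1 + ε) * ((k : ℝ) * Real.log 2) ^ 2 := fun k =>
    Nat.floor_le (by positivity)
  have hhge : ∀ k : ℕ, (1 + ε) * ((k : ℝ) * Real.log 2) ^ 2 ≤ h k + 1 := fun k =>
    (Nat.lt_floor_add_one _).le
  -- the sum of the probabilities
  have hsum : ∀ᶠ k : ℕ in atTop, ∀ b, 2 ^ k ≤ b → b < 2 ^ (k + 1) →
      (1 + ε / 2) * (k * Real.log 2) ≤ ∑ n ∈ Ioc b (b + h k), keepProb z n := by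
    have hs1 := hs z hz
    have hs2 := (tendsto_add_atTop_nat 1).eventually hs1
    have hz2 := (tendsto_add_atTop_nat 1).eventually hz
    -- various eventual inequalities
    have E1 : ∀ᶠ k : ℕ in atTop, ((k : ℝ) + 1) ≤ ε' * h k := by
      have E := ev_sq (a := 0) (b := 1) (c := ε' / 2 * (1 + ε)) (L := Real.log 2) (by positivity) hl2
      have hlim : Tendsto (fun k : ℕ => (k : ℝ)) atTop atTop := tendsto_natCast_atTop_atTop
      filter_upwards [E, hlim.eventually_ge_atTop (4 / (ε' / 2 * (1 + ε) * Real.log 2 ^ 2)),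
        hlim.eventually_ge_atTop 1, hlim.eventually_ge_atTop (4 * ε')] with k e1 e2 e3 e4
      have h1 := hhge k
      have h2 : 4 ≤ (ε' / 2 * (1 + ε) * Real.log 2 ^ 2) * k := by
        rw [div_le_iff₀ (by positivity)] at e2; linarith
      have h3 : 4 * (k : ℝ) ≤ ε' / 2 * (1 + ε) * (k * Real.log 2) ^ 2 := by
        have := mul_le_mul_of_nonneg_right h2 (by linarith : (0 : ℝ) ≤ k)
        calc 4 * (k : ℝ) ≤ (ε' / 2 * (1 + ε) * Real.log 2 ^ 2) * k * k := this
          _ = _ := by ring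
      have h4 : ε' * ((1 + ε) * ((k : ℝ) * Real.log 2) ^ 2) ≤ ε' * (h k + 1) :=
        mul_le_mul_of_nonneg_left h1 hε'0.le
      nlinarith
    have E2 : ∀ᶠ k : ℕ in atTop, (1 + ε / 2) * (k * Real.log 2) * (((k : ℝ) + 2) * Real.log 2) ≤
        (1 - 3 * ε') * h k := by
      have hlim : Tendsto (fun k : ℕ => (k : ℝ)) atTop atTop := tendsto_natCast_atTop_atTop
      filter_upwards [hlim.eventually_ge_atTop ((8 * (1 + ε / 2) * Real.log 2 ^ 2 + 4) / (ε * Real.log 2 ^ 2)),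
        hlim.eventually_ge_atTop 1] with k e1 e2
      have h1 := hhge k
      have h2 : 8 * (1 + ε / 2) * Real.log 2 ^ 2 + 4 ≤ (ε * Real.log 2 ^ 2) * k := by
        rw [div_le_iff₀ (by positivity)] at e1; linarith
      have h3 : (8 * (1 + ε / 2) * Real.log 2 ^ 2 + 4) * k ≤ ε * (k * Real.log 2) ^ 2 := by
        have := mul_le_mul_of_nonneg_right h2 (by linarith : (0 : ℝ) ≤ k)
        calc _ ≤ _ := this
          _ = _ := by ring
      have h13 : 0 < 1 - 3 * ε' := by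
        have h4 : 3 * ε' * 1 ≤ 3 * ε' * (1 + ε) := by
          apply mul_le_mul_of_nonneg_left _ (by positivity); linarith
        have h5 : ε' ≤ ε / (12 * (1 + ε)) := min_le_right _ _
        have h6 : ε / (12 * (1 + ε)) ≤ 1 / 12 := by
          rw [div_le_div_iff₀ (by positivity) (by norm_num)]; linarith
        linarith
      have h4 : (1 - 3 * ε') * ((1 + ε) * ((k : ℝ) * Real.log 2) ^ 2) ≤ (1 - 3 * ε') * (h k + 1) :=
        mul_le_mul_of_nonneg_left h1 h13.le
      have h5 : (1 + 3 * ε / 4) * ((k : ℝ) * Real.log 2) ^ 2 ≤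
          (1 - 3 * ε') * ((1 + ε) * ((k : ℝ) * Real.log 2) ^ 2) := by
        have : 1 + 3 * ε / 4 ≤ (1 - 3 * ε') * (1 + ε) := by linarith
        have := mul_le_mul_of_nonneg_right this (by positivity : 0 ≤ ((k : ℝ) * Real.log 2) ^ 2)
        linarith
      have h6 : (1 + ε / 2) * (k * Real.log 2) * (((k : ℝ) + 2) * Real.log 2) =
        (1 + ε / 2) * (k * Real.log 2) ^ 2 + 2 * (1 + ε / 2) * Real.log 2 ^ 2 * k := by ring
      rw [h6]
      have h7 : (1 - 3 * ε') * (h k + 1 : ℝ) ≤ (1 - 3 * ε') * h k + 1 := by nlinarith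
      nlinarith
    have E3 : ∀ᶠ k : ℕ in atTop, h k ≤ 2 ^ (k + 1) := by
      have E := small2 (F := atTop) le_rfl (w := fun _ => 0) (by simp) 0
        (Real.log (1 + ε)) 2 (Real.log 2) hl2
      filter_upwards [E, eventually_ge_atTop 1] with k e1 hk
      have hk0 : (0 : ℝ) < k := by exact_mod_cast hk
      have h1 : (1 + ε) * ((k : ℝ) * Real.log 2) ^ 2 ≤ (2 : ℝ) ^ k := by
        have h2 : (1 + ε) * (k : ℝ) ^ 2 ≤ (2 : ℝ) ^ k := by
          apply (Real.log_le_log_iff (by positivity) (by positivity)).1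
          rw [Real.log_mul (by positivity) (by positivity), Real.log_pow, Real.log_pow]
          push_cast
          linarith
        refine le_trans ?_ h2
        apply mul_le_mul_of_nonneg_left _ (by positivity)
        apply pow_le_pow_left₀ (by positivity)
        have : Real.log 2 ≤ 1 := by have := Real.log_two_lt_d9; linarith
        nlinarith
      have h3 : (h k : ℝ) ≤ (2 : ℝ) ^ (k + 1) := by
        have : (2 : ℝ) ^ k ≤ 2 ^ (k + 1) := pow_le_pow_right₀ (by norm_num) (by omega)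
        exact (hhle k).trans (h1.trans this)
      exact_mod_cast h3
    have E4 : ∀ᶠ k : ℕ in atTop, (((k : ℝ) + 1) ^ θ + 1) ≤ ((k : ℝ) + 2) * Real.log 2 := by
      have hlim : Tendsto (fun k : ℕ => (k : ℝ)) atTop atTop := tendsto_natCast_atTop_atTop
      filter_upwards [hlim.eventually_ge_atTop (16 / Real.log 2 ^ 2 )] with k e1
      have hk1 : (1 : ℝ) ≤ (k : ℝ) + 1 := by
        have : (0 : ℝ) ≤ k := by positivity
        linarith
      have h1 : ((k : ℝ) + 1) ^ θ ≤ ((k : ℝ) + 1) ^ ((1 : ℝ) / 2) :=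
        Real.rpow_le_rpow_of_exponent_le hk1 hθ1
      rw [← Real.sqrt_eq_rpow] at h1
      have h2 : Real.sqrt ((k : ℝ) + 1) * Real.sqrt ((k : ℝ) + 1) = (k : ℝ) + 1 :=
        Real.mul_self_sqrt (by linarith)
      have h3 : 4 / Real.log 2 ≤ Real.sqrt ((k : ℝ) + 1) := by
        apply Real.le_sqrt_of_sq_le
        rw [div_pow]
        norm_num
        linarith
      have h4 : 4 ≤ Real.sqrt ((k : ℝ) + 1) * Real.log 2 := by
        rwa [div_le_iff₀ hl2] at h3
      have h5 : 0 < Real.sqrt ((k : ℝ) + 1) := Real.sqrt_pos.2 (by linarith)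
      have h6 : 1 ≤ Real.sqrt ((k : ℝ) + 1) := by
        rw [Real.one_le_sqrt]; exact hk1
      nlinarith
    filter_upwards [hs1, hs2, hz, hz2, E1, E2, E3, E4, eventually_ge_atTop 1] with
      k a1 a2 a3 a4 e1 e2 e3 e4 hk
    intro b hb1 hb2
    have hbigκ : ∀ κ : ℕ, (z κ : ℝ) ≤ ((k : ℝ) + 1) ^ θ →
        1 ≤ V (z κ) * (((k : ℝ) + 2) * Real.log 2) := by
      intro κ hκ
      have hV := V_pos (z κ)
      have h1 := V_ge (z κ)
      calc 1 ≤ V (z κ) * (z κ + 1) := h1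
        _ ≤ V (z κ) * (((k : ℝ) + 2) * Real.log 2) := by
            apply mul_le_mul_of_nonneg_left _ hV.le
            linarith
    have hk0 : (0 : ℝ) ≤ k := by positivity
    have h1 := sum_keep_block (z := z) hε'0 hε'1 hk hb1 hb2 (by
      have e : 2 ^ (k + 2) = 2 ^ (k + 1) + 2 ^ (k + 1) := by ring
      omega) e1 a1 a2
      (hbigκ k (a3.trans (Real.rpow_le_rpow hk0 (by linarith) hθ0.le)))
      (hbigκ (k + 1) (by push_cast at a4; exact a4))
    refine le_trans ?_ h1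
    rw [le_div_iff₀ (by positivity)]
    exact e2
  -- Borel-Cantelli
  let E : ℕ → Set Ω := fun k => ⋃ b ∈ Ico (2 ^ k) (2 ^ (k + 1)), ⋂ n ∈ Ioc b (b + h k), (A n)ᶜ
  have hE : ∀ᶠ k : ℕ in atTop, μ.real (E k) ≤ (Real.exp (-(ε / 2 * Real.log 2))) ^ k := by
    filter_upwards [hsum] with k hk
    calc μ.real (E k) ≤ ∑ b ∈ Ico (2 ^ k) (2 ^ (k + 1)), μ.real (⋂ n ∈ Ioc b (b + h k), (A n)ᶜ) :=
          measureReal_biUnion_finset_le _ _
      _ ≤ ∑ b ∈ Ico (2 ^ k) (2 ^ (k + 1)), Real.exp (-((1 + ε / 2) * (k * Real.log 2))) := by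
          apply sum_le_sum
          intro b hb
          rw [mem_Ico] at hb
          refine (empty_le hA _).trans ?_
          apply Real.exp_le_exp.2
          have := hk b hb.1 hb.2
          linarith
      _ = (Real.exp (-(ε / 2 * Real.log 2))) ^ k := by
          rw [sum_const, Nat.card_Ico, nsmul_eq_mul]
          have e : ((2 ^ (k + 1) - 2 ^ k : ℕ) : ℝ) = Real.exp (k * Real.log 2) := by
            have : 2 ^ (k + 1) - 2 ^ k = 2 ^ k := by
              rw [pow_succ, mul_two, Nat.add_sub_cancel]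
            rw [this]
            push_cast
            rw [← Real.log_pow, Real.exp_log (by positivity)]
          rw [e, ← Real.exp_add, ← Real.exp_nat_mul]
          congr 1; ring
  have hsummable : Summable (fun k => μ.real (E k)) := by
    apply Summable.of_norm_bounded_eventually_nat (summable_geometric_of_lt_one (Real.exp_pos _).le _)
    · filter_upwards [hE] with k hk
      rw [Real.norm_of_nonneg measureReal_nonneg]
      exact hk
    · rw [Real.exp_lt_one_iff]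
      have : 0 < ε / 2 * Real.log 2 := by positivity
      linarith
  have hne : (∑' k, μ (E k)) ≠ ⊤ := by
    have h1 : ∀ k, μ (E k) = ENNReal.ofReal (μ.real (E k)) := fun k => by
      rw [Measure.real, ENNReal.ofReal_toReal (measure_ne_top _ _)]
    simp_rw [h1]
    rw [← ENNReal.ofReal_tsum_of_nonneg (fun k => measureReal_nonneg) hsummable]
    exact ENNReal.ofReal_ne_top
  filter_upwards [ae_eventually_notMem hne, hinf] with ω h1 h2
  apply limsup_le h2 (Eventually.of_forall hhle)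
  filter_upwards [h1] with k hk
  intro b hb1 hb2
  by_contra hcon
  push Not at hcon
  apply hk
  simp only [E, Set.mem_iUnion, Set.mem_iInter, Set.mem_compl_iff]
  exact ⟨b, mem_Ico.2 ⟨hb1, hb2⟩, fun n hn hAn => hcon n hn hAn⟩

end upper

theorem resB (ε : ℝ) (hε : 0 < ε) : ∃ θ : ℝ, 0 < θ ∧ ∀ z : ℕ → ℕ,
    (∀ᶠ k : ℕ in atTop, (z k : ℝ) ≤ (k : ℝ) ^ θ) →
    ∀ {Ω : Type*} [MeasurableSpace Ω] (μ : Measure Ω) [IsProbabilityMeasure μ] (A : ℕ → Set Ω),
      IsSievedModel μ z A →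
      ∀ᵐ ω ∂μ, {n | ω ∈ A n}.Infinite ∧ (1 : EReal) ≤ cramerLimsup {n | ω ∈ A n} ∧
        cramerLimsup {n | ω ∈ A n} ≤ ((1 + ε : ℝ) : EReal) := by
  obtain ⟨θ, hθ0, hθ1, h⟩ := upper_eps ε hε
  refine ⟨θ, hθ0, fun z hz Ω _ μ _ A hA => ?_⟩
  have hzk : Tendsto (fun k => (z k : ℝ) / k) atTop (𝓝 0) := by
    have h1 : Tendsto (fun k : ℕ => (k : ℝ) ^ (-((1 : ℝ) / 2))) atTop (𝓝 0) :=
      (tendsto_rpow_neg_atTop (by norm_num)).comp tendsto_natCast_atTop_atTop
    refine squeeze_zero' (Eventually.of_forall fun k => by positivity) ?_ h1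
    filter_upwards [hz, eventually_ge_atTop 1] with k hk hk1
    have hk1' : (1 : ℝ) ≤ k := by exact_mod_cast hk1
    have hk0 : (0 : ℝ) < k := by linarith
    rw [div_le_iff₀ hk0]
    calc (z k : ℝ) ≤ (k : ℝ) ^ θ := hk
      _ ≤ (k : ℝ) ^ ((1 : ℝ) / 2) := Real.rpow_le_rpow_of_exponent_le hk1' hθ1
      _ = (k : ℝ) ^ (-((1 : ℝ) / 2)) * k := by
          rw [← Real.rpow_add_one hk0.ne']; norm_num
  have hinf := infinite_ae hA hzk
  filter_upwards [hinf, lower_one hA hzk, h z hz μ A hA hinf] with ω h1 h2 h3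
  exact ⟨h1, h2, h3⟩

end Pool.Agent.H318R2.Cr
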